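import Pool.Agent.Run7.h931.RS.OneTwo

/-!
# The number of primes in perturbed intervals, part 1: the sharp mean with a general constant
-/

set_option autoImplicit false

namespace Pool.Agent.Run7.h931.EX

open Finset Filter
open Pool.Agent.Run7.h931.RS (Pw Fw gw Wd Wd_pos one_le_Pw one_le_Fw Pw_le tails mean gw_nonneg Fw_ge Fw_le_exp)

theorem sharpc (c η : ℝ) (hc : 0 < c) (hη : 0 < η) : ∃ w₀ : ℕ, 3 ≤ w₀ ∧ ∀ w : ℕ, w₀ ≤ w → ∀ H : ℕ,
    ∑ h ∈ Icc 1 H, (Real.exp (c * (Pw w * (Fw w h - 1))) - 1) ≤ η * H := by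
  classical
  obtain ⟨C₁, hC1, hP⟩ := Pw_le
  obtain ⟨w₁, hw13, hw1⟩ := tails (c * C₁) (by positivity) 1 (η / 2) (by positivity)
  obtain ⟨η', hη'⟩ : ∃ η' : ℝ, η' = min η 1 := ⟨_, rfl⟩
  have hη0 : 0 < η' := by rw [hη']; exact lt_min hη one_pos
  have hη1 : η' ≤ 1 := by rw [hη']; exact min_le_right _ _
  have hη2 : η' ≤ η := by rw [hη']; exact min_le_left _ _
  obtain ⟨x₀, hx₀⟩ := eventually_atTop.1 (Pool.Agent.N384.MQ.ev_log_pow 1 (16 * c * C₁ / η'))
  refine ⟨max w₁ x₀, le_max_of_le_left hw13, fun w hw H => ?_⟩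
  have hw2 := hw1 w ((le_max_left _ _).trans hw) H
  have hw3 : 3 ≤ w := hw13.trans ((le_max_left _ _).trans hw)
  have hwr : (3 : ℝ) ≤ w := by exact_mod_cast hw3
  have hlw : 0 ≤ Real.log (w : ℝ) := Real.log_natCast_nonneg w
  have hx := hx₀ w ((le_max_right _ _).trans hw)
  rw [pow_one] at hx
  have hPw := hP w hw3
  have hPw1 := one_le_Pw w
  obtain ⟨ω, hω⟩ : ∃ ω, ω = Pw w := ⟨_, rfl⟩
  rw [← hω] at hPw hPw1 ⊢
  have hωw : 16 * (c * ω) ≤ η' * w := by
    have h1 : 16 * c * C₁ / η' * Real.log w * η' ≤ w * η' := mul_le_mul_of_nonneg_right hx hη0.le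
    have h2 : 16 * c * C₁ / η' * Real.log w * η' = 16 * (c * (C₁ * Real.log w)) := by field_simp
    have h3 : c * ω ≤ c * (C₁ * Real.log w) := mul_le_mul_of_nonneg_left hPw hc.le
    linarith
  rw [← sum_filter_add_sum_filter_not (Icc 1 H) (fun h => 2 < Fw w h)]
  have h1 : ∑ h ∈ (Icc 1 H).filter (fun h => 2 < Fw w h), (Real.exp (c * (ω * (Fw w h - 1))) - 1) ≤ η / 2 * H := by
    refine le_trans (sum_le_sum fun h _ => ?_) hw2
    have h2 : Real.exp (c * (ω * (Fw w h - 1))) ≤ Real.exp (c * C₁ * (Real.log w * Fw w h) ^ 1) := by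
      apply Real.exp_le_exp.2
      rw [pow_one]
      have h3 := one_le_Fw w h
      calc c * (ω * (Fw w h - 1)) ≤ c * (ω * Fw w h) := by
            apply mul_le_mul_of_nonneg_left _ hc.le
            apply mul_le_mul_of_nonneg_left _ (by linarith)
            linarith
        _ ≤ c * ((C₁ * Real.log w) * Fw w h) := by
            apply mul_le_mul_of_nonneg_left _ hc.le
            apply mul_le_mul_of_nonneg_right _ (by linarith)
            linarith
        _ = _ := by ring
    linarith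
  have h2 : ∑ h ∈ (Icc 1 H).filter (fun h => ¬ 2 < Fw w h), (Real.exp (c * (ω * (Fw w h - 1))) - 1) ≤ η / 2 * H := by
    have h3 : ∀ h ∈ (Icc 1 H).filter (fun h => ¬ 2 < Fw w h), Real.exp (c * (ω * (Fw w h - 1))) - 1 ≤
        Real.exp (2 * (c * ω) * gw w h) - 1 := by
      intro h hh
      rw [mem_filter, not_lt] at hh
      have a1 := Fw_ge w h
      have a2 := Fw_le_exp w h
      have a3 := gw_nonneg w h
      have a4 : gw w h ≤ 1 := by linarith [hh.2]
      have a5 : Real.exp (gw w h) ≤ 1 + 2 * gw w h := by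
        have h8 := Real.exp_bound' a3 a4 (n := 2) (by norm_num)
        simp only [Finset.sum_range_succ, Finset.sum_range_zero, pow_zero, pow_one, Nat.factorial] at h8
        norm_num at h8
        nlinarith
      have a6 : Real.exp (c * (ω * (Fw w h - 1))) ≤ Real.exp (2 * (c * ω) * gw w h) := by
        apply Real.exp_le_exp.2
        have : Fw w h - 1 ≤ 2 * gw w h := by linarith
        calc c * (ω * (Fw w h - 1)) ≤ c * (ω * (2 * gw w h)) :=
              mul_le_mul_of_nonneg_left (mul_le_mul_of_nonneg_left this (by linarith)) hc.le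
          _ = _ := by ring
      linarith
    refine (sum_le_sum h3).trans ?_
    have h4 : ∑ h ∈ (Icc 1 H).filter (fun h => ¬ 2 < Fw w h), (Real.exp (2 * (c * ω) * gw w h) - 1) ≤
        ∑ h ∈ Icc 1 H, (Real.exp (2 * (c * ω) * gw w h) - 1) := by
      apply sum_le_sum_of_subset_of_nonneg (filter_subset _ _)
      intro h _ _
      have := gw_nonneg w h
      have : 1 ≤ Real.exp (2 * (c * ω) * gw w h) := Real.one_le_exp (by positivity)
      linarith
    refine h4.trans ?_
    rw [sum_sub_distrib, sum_const, Nat.card_Icc, Nat.add_sub_cancel, nsmul_eq_mul, mul_one]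
    have h0 : 0 ≤ c * ω := by positivity
    have h5 := mean (2 * (c * ω)) w H (by linarith) (by nlinarith) (by omega)
    obtain ⟨u, hu⟩ : ∃ u, u = 2 * (2 * (c * ω)) / (w : ℝ) := ⟨_, rfl⟩
    rw [← hu] at h5
    have hu0 : 0 ≤ u := by rw [hu]; positivity
    have hu1 : u ≤ η' / 4 := by
      rw [hu, div_le_iff₀ (by linarith)]
      linarith
    have h6 : Real.exp u ≤ 1 + 2 * u := by
      have h8 := Real.exp_bound' hu0 (by linarith) (n := 2) (by norm_num)
      simp only [Finset.sum_range_succ, Finset.sum_range_zero, pow_zero, pow_one, Nat.factorial] at h8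
      norm_num at h8
      nlinarith
    have hH : (0 : ℝ) ≤ H := Nat.cast_nonneg H
    have h7 : H * Real.exp u ≤ H * (1 + η / 2) := mul_le_mul_of_nonneg_left (by linarith) hH
    linarith
  linarith

end Pool.Agent.Run7.h931.EX
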