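import Pool.Agent.Run7.h931.EX.Law

/-!
# The number of primes in perturbed intervals, part 8: the largest and the smallest number
-/

set_option autoImplicit false

namespace Pool.Agent.Run7.h931.EX

open Finset Filter
open Pool.Agent.Run7.h931.RS (ev_log)

/-- the largest number of primes -/
def most {m : ℕ} (N : ℕ) (s : Fin m → ℕ) : ℕ := (Icc 1 N).sup (hc s)

/-- the smallest number of primes -/
noncomputable def least {m : ℕ} (N : ℕ) (s : Fin m → ℕ) : ℕ := sInf (hc s '' Set.Icc 1 N)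

/-- the largest number of primes -/
theorem maxlaw (T a : ℕ) (Λ ε : ℝ) (hΛ : 1 ≤ Λ) (hε : 0 < ε) (hε1 : ε ≤ 1) : ∀ᶠ N : ℕ in atTop, ∀ (q m : ℕ)
    (b : Fin m → ℕ), Adm T a Λ N q m b →
      (((Fintype.piFinset fun j => Ioc (b j) (b j + q)).filter fun s =>
        ¬ (m / Real.log N ≤ most N s ∧ |m / Real.log N ^ 2 * ent (most N s * Real.log N / m) - 1| ≤ ε)).card : ℝ) ≤
          ε * (q : ℝ) ^ m := by
  classical
  obtain ⟨Z, hZ⟩ : ∃ Z, Z = Real.exp (2 * Λ + 1) := ⟨_, rfl⟩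
  have hZ1 : 1 ≤ Z := by rw [hZ]; exact Real.one_le_exp (by linarith)
  have hentZ : 2 * Λ ≤ ent Z := by
    unfold ent
    rw [hZ, Real.log_exp, ← hZ]
    nlinarith
  filter_upwards [many_hi T a Λ Z (ε / 4) hΛ hZ1 (by positivity) (by linarith), none T a Λ Z (ε / 4) hΛ hZ1 (by positivity) (by linarith),
    eventually_ge_atTop 3, ev_log 1] with N g1 g2 g3 g4 q m b hA
  have k1 := g1 q m b hA
  have k2 := g2 q m b hA
  obtain ⟨hq, hqN, hb, hm1, hm2⟩ := hA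
  obtain ⟨L, hL⟩ : ∃ L, L = Real.log (N : ℝ) := ⟨_, rfl⟩
  rw [← hL] at g4 k1 k2 hm1 hm2 ⊢
  have hL0 : 0 < L := by linarith
  have hN0 : (0 : ℝ) < N := by exact_mod_cast (by omega : 0 < N)
  have hN1 : (1 : ℝ) ≤ N := by exact_mod_cast (by omega : 1 ≤ N)
  have hm0 : (0 : ℝ) < m := by
    by_contra h
    have : (m : ℝ) = 0 := le_antisymm (not_lt.1 h) (Nat.cast_nonneg m)
    rw [this] at hm1
    nlinarith
  obtain ⟨lam, hlam⟩ : ∃ lam, lam = (m : ℝ) / L ^ 2 := ⟨_, rfl⟩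
  have hlam0 : 0 < lam := by rw [hlam]; positivity
  have hlam1 : 1 ≤ Λ * lam := by
    rw [hlam, mul_div_assoc', le_div_iff₀ (by positivity)]
    linarith
  have hcont : ContinuousOn (fun z => lam * ent z) (Set.Icc 1 Z) := (continuous_const.mul ent_cont).continuousOn
  have hivt := intermediate_value_Icc hZ1 hcont
  simp only [ent_one, mul_zero] at hivt
  have hent2 : 2 ≤ lam * ent Z := by
    calc (2 : ℝ) ≤ 2 * (Λ * lam) := by linarith
      _ = lam * (2 * Λ) := by ring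
      _ ≤ lam * ent Z := mul_le_mul_of_nonneg_left hentZ hlam0.le
  obtain ⟨z₁, ⟨hz1a, hz1b⟩, hz1⟩ := hivt (⟨by linarith, by linarith⟩ : (1 - ε / 2) ∈ Set.Icc 0 (lam * ent Z))
  obtain ⟨z₂, ⟨hz2a, hz2b⟩, hz2⟩ := hivt (⟨by linarith, by linarith⟩ : (1 + ε / 2) ∈ Set.Icc 0 (lam * ent Z))
  simp only at hz1 hz2
  have c1 := k1 z₁ hz1a hz1b (by rw [← hlam, hz1]; linarith)
  have c2 := k2 z₂ (by linarith) (by rw [abs_le]; constructor <;> linarith) (by rw [← hlam, hz2]; linarith)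
  rw [← hlam, hz1] at c1
  obtain ⟨Ω, hΩ⟩ : ∃ Ω, Ω = Fintype.piFinset fun j => Ioc (b j) (b j + q) := ⟨_, rfl⟩
  rw [← hΩ] at c1 c2 ⊢
  obtain ⟨B1, hB1⟩ : ∃ B1, B1 = Ω.filter fun s =>
    (((Icc 1 N).filter fun n => z₁ * m / L ≤ hc s n).card : ℝ) < (N : ℝ) ^ (1 - (1 - ε / 2) - ε / 4) := ⟨_, rfl⟩
  obtain ⟨B2, hB2⟩ : ∃ B2, B2 = Ω.filter fun s =>
    ((Icc 1 N).filter fun n => z₂ * m / L * Real.log z₂ ≤ hc s n * Real.log z₂).Nonempty := ⟨_, rfl⟩
  rw [← hB1] at c1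
  rw [← hB2] at c2
  have c3 : (Ω.filter fun s => ¬ (m / L ≤ most N s ∧ |m / L ^ 2 * ent (most N s * L / m) - 1| ≤ ε)) ⊆ B1 ∪ B2 := by
    intro s hs
    rw [mem_filter] at hs
    obtain ⟨hsΩ, hs⟩ := hs
    by_contra hnot
    rw [mem_union, not_or, hB1, hB2, mem_filter, mem_filter, not_and, not_and, not_lt] at hnot
    have n1 := hnot.1 hsΩ
    have n2 := hnot.2 hsΩ
    apply hs
    have p1 : (1 : ℝ) ≤ (((Icc 1 N).filter fun n => z₁ * m / L ≤ hc s n).card : ℝ) :=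
      (Real.one_le_rpow hN1 (by linarith)).trans n1
    have p2 : 0 < ((Icc 1 N).filter fun n => z₁ * m / L ≤ hc s n).card := by exact_mod_cast p1
    obtain ⟨n, hn⟩ := card_pos.1 p2
    rw [mem_filter] at hn
    have p3 : (hc s n : ℝ) ≤ most N s := by exact_mod_cast Finset.le_sup (f := hc s) hn.1
    have p4 : z₁ * m / L ≤ most N s := hn.2.trans p3
    obtain ⟨u, hu⟩ : ∃ u, u = (most N s : ℝ) * L / m := ⟨_, rfl⟩
    have p5 : z₁ ≤ u := by
      rw [hu, le_div_iff₀ hm0]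
      rw [div_le_iff₀ hL0] at p4
      linarith
    obtain ⟨n0, hn0, hn0'⟩ := Finset.exists_mem_eq_sup (Icc 1 N) ⟨1, by rw [mem_Icc]; omega⟩ (hc s)
    have p6 : u ≤ z₂ := by
      by_contra h
      rw [not_le] at h
      apply n2
      refine ⟨n0, ?_⟩
      rw [mem_filter]
      refine ⟨hn0, ?_⟩
      apply mul_le_mul_of_nonneg_right _ (Real.log_nonneg hz2a)
      have e1 : (hc s n0 : ℝ) = most N s := by
        unfold most
        rw [hn0']
      rw [e1, div_le_iff₀ hL0]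
      rw [hu, lt_div_iff₀ hm0] at h
      exact h.le
    have p7 : ent z₁ ≤ ent u := ent_mono z₁ u hz1a p5
    have p8 : ent u ≤ ent z₂ := ent_mono u z₂ (by linarith) p6
    have p9 := mul_le_mul_of_nonneg_left p7 hlam0.le
    have p10 := mul_le_mul_of_nonneg_left p8 hlam0.le
    rw [← hu, ← hlam]
    refine ⟨?_, ?_⟩
    · refine le_trans ?_ p4
      apply div_le_div_of_nonneg_right _ hL0.le
      nlinarith
    · rw [abs_le]
      constructor <;> linarith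
  have c4 : (((Ω.filter fun s => ¬ (m / L ≤ most N s ∧ |m / L ^ 2 * ent (most N s * L / m) - 1| ≤ ε))).card : ℝ) ≤
      B1.card + B2.card := by exact_mod_cast (card_le_card c3).trans (card_union_le B1 B2)
  have : 0 ≤ ε / 4 * (q : ℝ) ^ m := by positivity
  linarith

/-- the smallest number of primes -/
theorem minlaw (T a : ℕ) (Λ ε : ℝ) (hΛ : 1 ≤ Λ) (hε : 0 < ε) (hε1 : ε ≤ 1) : ∀ᶠ N : ℕ in atTop, ∀ (q m : ℕ)
    (b : Fin m → ℕ), Adm T a Λ N q m b → (1 + ε) * Real.log N ^ 2 ≤ m →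
      (((Fintype.piFinset fun j => Ioc (b j) (b j + q)).filter fun s =>
        ¬ ((least N s : ℝ) ≤ m / Real.log N ∧ |m / Real.log N ^ 2 * ent (least N s * Real.log N / m) - 1| ≤ ε)).card : ℝ) ≤
          ε * (q : ℝ) ^ m := by
  classical
  obtain ⟨x, hx⟩ : ∃ x, x = ε / 8 := ⟨_, rfl⟩
  have hx0 : 0 < x := by rw [hx]; positivity
  have hx1 : x ≤ 1 := by rw [hx]; linarith
  obtain ⟨Z, hZ⟩ : ∃ Z, Z = 1 / x ^ 2 := ⟨_, rfl⟩
  have hx2 : x ^ 2 ≤ 1 := pow_le_one₀ hx0.le hx1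
  have hZ1 : 1 ≤ Z := by rw [hZ, le_div_iff₀ (by positivity)]; linarith
  have hZx : 1 / Z = x ^ 2 := by rw [hZ, one_div_one_div]
  have hentZ : 1 - ε / 4 ≤ ent (x ^ 2) := by
    unfold ent
    rw [Real.log_pow]
    have h1 := Real.one_sub_inv_le_log_of_pos hx0
    have h2 := mul_le_mul_of_nonneg_left h1 (sq_nonneg x)
    have h3 : x ^ 2 * (1 - x⁻¹) = x ^ 2 - x := by field_simp
    rw [h3] at h2
    push_cast
    have h4 : x ^ 2 * (2 * Real.log x) = 2 * (x ^ 2 * Real.log x) := by ring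
    rw [h4]
    nlinarith
  filter_upwards [many_lo T a Λ Z (ε / 4) hΛ hZ1 (by positivity) (by linarith), none T a Λ Z (ε / 4) hΛ hZ1 (by positivity) (by linarith),
    eventually_ge_atTop 3, ev_log 1] with N g1 g2 g3 g4 q m b hA hme
  have k1 := g1 q m b hA
  have k2 := g2 q m b hA
  obtain ⟨hq, hqN, hb, hm1, hm2⟩ := hA
  obtain ⟨L, hL⟩ : ∃ L, L = Real.log (N : ℝ) := ⟨_, rfl⟩
  rw [← hL] at g4 k1 k2 hm1 hm2 hme ⊢
  have hL0 : 0 < L := by linarith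
  have hN0 : (0 : ℝ) < N := by exact_mod_cast (by omega : 0 < N)
  have hN1 : (1 : ℝ) ≤ N := by exact_mod_cast (by omega : 1 ≤ N)
  have hm0 : (0 : ℝ) < m := lt_of_lt_of_le (by positivity) hme
  obtain ⟨lam, hlam⟩ : ∃ lam, lam = (m : ℝ) / L ^ 2 := ⟨_, rfl⟩
  have hlam0 : 0 < lam := by rw [hlam]; positivity
  have hlam1 : 1 + ε ≤ lam := by
    rw [hlam, le_div_iff₀ (by positivity)]
    exact hme
  have hcont : ContinuousOn (fun z => lam * ent z) (Set.Icc (x ^ 2) 1) := (continuous_const.mul ent_cont).continuousOn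
  have hivt := intermediate_value_Icc' hx2 hcont
  simp only [ent_one, mul_zero] at hivt
  have hent2 : 1 + ε / 2 ≤ lam * ent (x ^ 2) := by
    calc 1 + ε / 2 ≤ (1 + ε) * (1 - ε / 4) := by nlinarith
      _ ≤ lam * ent (x ^ 2) := mul_le_mul hlam1 hentZ (by linarith) hlam0.le
  obtain ⟨z₁, ⟨hz1a, hz1b⟩, hz1⟩ := hivt (⟨by linarith, by linarith⟩ : (1 - ε / 2) ∈ Set.Icc 0 (lam * ent (x ^ 2)))
  obtain ⟨z₂, ⟨hz2a, hz2b⟩, hz2⟩ := hivt (⟨by linarith, by linarith⟩ : (1 + ε / 2) ∈ Set.Icc 0 (lam * ent (x ^ 2)))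
  simp only at hz1 hz2
  have hz20 : 0 < z₂ := lt_of_lt_of_le (by positivity) hz2a
  have hz10 : 0 < z₁ := lt_of_lt_of_le (by positivity) hz1a
  have c1 := k1 z₁ (by rw [hZx]; exact hz1a) hz1b (by rw [← hlam, hz1]; linarith)
  have c2 := k2 z₂ hz20 (by rw [abs_le]; constructor <;> linarith) (by rw [← hlam, hz2]; linarith)
  rw [← hlam, hz1] at c1
  obtain ⟨Ω, hΩ⟩ : ∃ Ω, Ω = Fintype.piFinset fun j => Ioc (b j) (b j + q) := ⟨_, rfl⟩
  rw [← hΩ] at c1 c2 ⊢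
  obtain ⟨B1, hB1⟩ : ∃ B1, B1 = Ω.filter fun s =>
    (((Icc 1 N).filter fun n => (hc s n : ℝ) ≤ z₁ * m / L).card : ℝ) < (N : ℝ) ^ (1 - (1 - ε / 2) - ε / 4) := ⟨_, rfl⟩
  obtain ⟨B2, hB2⟩ : ∃ B2, B2 = Ω.filter fun s =>
    ((Icc 1 N).filter fun n => z₂ * m / L * Real.log z₂ ≤ hc s n * Real.log z₂).Nonempty := ⟨_, rfl⟩
  rw [← hB1] at c1
  rw [← hB2] at c2
  have c3 : (Ω.filter fun s => ¬ ((least N s : ℝ) ≤ m / L ∧ |m / L ^ 2 * ent (least N s * L / m) - 1| ≤ ε)) ⊆ B1 ∪ B2 := by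
    intro s hs
    rw [mem_filter] at hs
    obtain ⟨hsΩ, hs⟩ := hs
    by_contra hnot
    rw [mem_union, not_or, hB1, hB2, mem_filter, mem_filter, not_and, not_and, not_lt] at hnot
    have n1 := hnot.1 hsΩ
    have n2 := hnot.2 hsΩ
    apply hs
    have p1 : (1 : ℝ) ≤ (((Icc 1 N).filter fun n => (hc s n : ℝ) ≤ z₁ * m / L).card : ℝ) :=
      (Real.one_le_rpow hN1 (by linarith)).trans n1
    have p2 : 0 < ((Icc 1 N).filter fun n => (hc s n : ℝ) ≤ z₁ * m / L).card := by exact_mod_cast p1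
    obtain ⟨n, hn⟩ := card_pos.1 p2
    rw [mem_filter, mem_Icc] at hn
    have p3 : (least N s : ℝ) ≤ hc s n := by
      have : least N s ≤ hc s n := Nat.sInf_le ⟨n, ⟨hn.1.1, hn.1.2⟩, rfl⟩
      exact_mod_cast this
    have p4 : (least N s : ℝ) ≤ z₁ * m / L := p3.trans hn.2
    obtain ⟨u, hu⟩ : ∃ u, u = (least N s : ℝ) * L / m := ⟨_, rfl⟩
    have hu0 : 0 ≤ u := by rw [hu]; positivity
    have p5 : u ≤ z₁ := by
      rw [hu, div_le_iff₀ hm0]
      rw [le_div_iff₀ hL0] at p4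
      linarith
    obtain ⟨n0, hn0, hn0'⟩ : least N s ∈ hc s '' Set.Icc 1 N := Nat.sInf_mem ⟨hc s 1, 1, ⟨le_rfl, by omega⟩, rfl⟩
    have p6 : z₂ < u := by
      by_contra h
      rw [not_lt] at h
      apply n2
      refine ⟨n0, ?_⟩
      rw [mem_filter, mem_Icc]
      refine ⟨⟨hn0.1, hn0.2⟩, ?_⟩
      apply mul_le_mul_of_nonpos_right _ (Real.log_nonpos hz20.le hz2b)
      rw [hn0', le_div_iff₀ hL0]
      rw [hu, div_le_iff₀ hm0] at h
      exact h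
    have p7 : ent z₁ ≤ ent u := ent_anti u z₁ hu0 p5 hz10 hz1b
    have p8 : ent u ≤ ent z₂ := ent_anti z₂ u hz20.le p6.le (hz20.trans p6) (p5.trans hz1b)
    have p9 := mul_le_mul_of_nonneg_left p7 hlam0.le
    have p10 := mul_le_mul_of_nonneg_left p8 hlam0.le
    rw [← hu, ← hlam]
    refine ⟨?_, ?_⟩
    · refine p4.trans ?_
      apply div_le_div_of_nonneg_right _ hL0.le
      nlinarith
    · rw [abs_le]
      constructor <;> linarith
  have c4 : (((Ω.filter fun s => ¬ ((least N s : ℝ) ≤ m / L ∧ |m / L ^ 2 * ent (least N s * L / m) - 1| ≤ ε))).card : ℝ) ≤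
      B1.card + B2.card := by exact_mod_cast (card_le_card c3).trans (card_union_le B1 B2)
  have : 0 ≤ ε / 4 * (q : ℝ) ^ m := by positivity
  linarith

end Pool.Agent.Run7.h931.EX
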