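import Pool.Agent.Run7.h931.EX.Low

/-!
# The number of primes in perturbed intervals, part 7: the extreme numbers of primes
-/

set_option autoImplicit false

namespace Pool.Agent.Run7.h931.EX

open Finset Filter
open Pool.Agent.Run7.h931.RS (ev_log)

lemma ent_conv (u v : ℝ) (hu : 0 ≤ u) (hv : 0 < v) : ent v + (u - v) * Real.log v ≤ ent u := by
  unfold ent
  rcases hu.eq_or_lt with h0 | h0
  · rw [← h0]
    simp only [zero_mul, zero_sub, neg_zero, zero_add]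
    linarith
  · have h1 := Real.log_le_sub_one_of_pos (div_pos hv h0)
    rw [Real.log_div hv.ne' h0.ne'] at h1
    have h2 := mul_le_mul_of_nonneg_left h1 h0.le
    have h3 : u * (v / u - 1) = v - u := by field_simp
    rw [h3] at h2
    linarith

lemma ent_one : ent 1 = 0 := by simp [ent]

lemma ent_zero : ent 0 = 1 := by simp [ent]

lemma ent_nonneg (u : ℝ) (hu : 0 ≤ u) : 0 ≤ ent u := by
  have := ent_conv u 1 hu one_pos
  rw [ent_one, Real.log_one] at this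
  linarith

lemma ent_mono (u v : ℝ) (hu : 1 ≤ u) (huv : u ≤ v) : ent u ≤ ent v := by
  have h1 := ent_conv v u (by linarith) (by linarith)
  have h2 : 0 ≤ (v - u) * Real.log u := mul_nonneg (by linarith) (Real.log_nonneg hu)
  linarith

lemma ent_anti (u v : ℝ) (hu : 0 ≤ u) (huv : u ≤ v) (hv0 : 0 < v) (hv : v ≤ 1) : ent v ≤ ent u := by
  have h1 := ent_conv u v hu hv0
  have h2 : 0 ≤ (u - v) * Real.log v := mul_nonneg_of_nonpos_of_nonpos (by linarith) (Real.log_nonpos hv0.le hv)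
  linarith

lemma ent_cont : Continuous ent := by
  unfold ent
  exact (Real.continuous_mul_log.sub continuous_id).add continuous_const

/-- the first moment of the tails -/
theorem upp (T a : ℕ) (Λ Z ε : ℝ) (hΛ : 1 ≤ Λ) (hZ : 1 ≤ Z) (hε : 0 < ε) (hε1 : ε ≤ 1) : ∀ᶠ N : ℕ in atTop, ∀ q : ℕ,
    (N : ℝ) ≤ q * Real.log N ^ a → q ≤ N → ∀ (m : ℕ) (b : Fin m → ℕ), (∀ j, b j ≤ T * N) → (m : ℝ) ≤ Λ * Real.log N ^ 2 →
      ∀ z : ℝ, 0 < z → |z - 1| ≤ Z →
        ∑ s ∈ Fintype.piFinset (fun j => Ioc (b j) (b j + q)), (((Icc 1 N).filter fun n =>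
          z * m / Real.log N * Real.log z ≤ hc s n * Real.log z).card : ℝ) ≤
            (N : ℝ) ^ (1 - m / Real.log N ^ 2 * ent z + ε) * (q : ℝ) ^ m := by
  classical
  obtain ⟨δ, hδ⟩ : ∃ δ, δ = ε / (Z * Λ) := ⟨_, rfl⟩
  have hδ0 : 0 < δ := by rw [hδ]; positivity
  have hδ1 : δ ≤ 1 := by
    rw [hδ, div_le_iff₀ (by positivity)]
    nlinarith
  have hδZ : Z * δ * Λ = ε := by rw [hδ]; field_simp
  filter_upwards [upper T a δ hδ0 hδ1, eventually_ge_atTop 3, ev_log 1] with N g1 g2 g3 q hq hqN m b hb hm z hz hzZ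
  have k1 := g1 q hq hqN m b hb z hz.le
  obtain ⟨L, hL⟩ : ∃ L, L = Real.log (N : ℝ) := ⟨_, rfl⟩
  rw [← hL] at g3 k1 hm ⊢
  have hL0 : 0 < L := by linarith
  have hN0 : (0 : ℝ) < N := by exact_mod_cast (by omega : 0 < N)
  have hNL : (N : ℝ) = Real.exp L := by rw [hL, Real.exp_log hN0]
  have h1 : ∀ s : Fin m → ℕ, (((Icc 1 N).filter fun n => z * m / L * Real.log z ≤ hc s n * Real.log z).card : ℝ) ≤
      (∑ n ∈ Icc 1 N, z ^ hc s n) * Real.exp (-(z * m / L * Real.log z)) := by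
    intro s
    rw [card_filter]
    push_cast
    rw [sum_mul]
    apply sum_le_sum
    intro n _
    have e0 : z ^ hc s n = Real.exp (hc s n * Real.log z) := by rw [Real.exp_nat_mul, Real.exp_log hz]
    rw [e0, ← Real.exp_add]
    split_ifs with h
    · exact Real.one_le_exp (by linarith)
    · exact (Real.exp_pos _).le
  refine (sum_le_sum fun s _ => h1 s).trans ?_
  rw [← sum_mul]
  refine (mul_le_mul_of_nonneg_right k1 (Real.exp_pos _).le).trans ?_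
  have e1 : (N : ℝ) * (Real.exp ((z - 1) * (m / L) + |z - 1| * δ * (m / L)) * (q : ℝ) ^ m) * Real.exp (-(z * m / L * Real.log z)) =
      Real.exp (L + ((z - 1) * (m / L) + |z - 1| * δ * (m / L)) + -(z * m / L * Real.log z)) * (q : ℝ) ^ m := by
    rw [Real.exp_add (L + ((z - 1) * (m / L) + |z - 1| * δ * (m / L))), Real.exp_add L, ← hNL]
    ring
  rw [e1, Real.rpow_def_of_pos hN0, ← hL]
  apply mul_le_mul_of_nonneg_right _ (by positivity)
  apply Real.exp_le_exp.2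
  have e2 : L * (1 - m / L ^ 2 * ent z + ε) = L + ((z - 1) * (m / L) - z * m / L * Real.log z) + ε * L := by
    unfold ent
    field_simp
    ring
  have e3 : |z - 1| * δ * (m / L) ≤ ε * L := by
    have f1 : (m : ℝ) / L ≤ Λ * L := by
      rw [div_le_iff₀ hL0]
      linarith
    calc |z - 1| * δ * (m / L) ≤ Z * δ * (Λ * L) :=
          mul_le_mul (mul_le_mul_of_nonneg_right hzZ hδ0.le) f1 (by positivity) (by positivity)
      _ = (Z * δ * Λ) * L := by ring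
      _ = ε * L := by rw [hδZ]
  rw [e2]
  linarith

/-- the lower bound at a level near `z` -/
theorem low2 (T a : ℕ) (Λ Z ε e : ℝ) (hΛ : 1 ≤ Λ) (hZ : 1 ≤ Z) (hε1 : ε ≤ 1) (he : 0 < e) (heZ : e * Z ≤ ε / 4) :
    ∀ᶠ N : ℕ in atTop, ∀ q : ℕ, (N : ℝ) ≤ q * Real.log N ^ a → q ≤ N → ∀ (m : ℕ) (b : Fin m → ℕ), (∀ j, b j ≤ T * N) →
      Real.log N ^ 2 ≤ Λ * m → (m : ℝ) ≤ Λ * Real.log N ^ 2 → ∀ z z' : ℝ, 0 < z → 0 < z' → |z' - 1| ≤ Z → |Real.log z'| ≤ Z →
        m / Real.log N ^ 2 * |z' - z| ≤ e → m / Real.log N ^ 2 * ent z ≤ 1 - ε →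
          (((Fintype.piFinset fun j => Ioc (b j) (b j + q)).filter fun s =>
            (((Icc 1 N).filter fun n => |(hc s n : ℝ) - z' * m / Real.log N| ≤ e * Real.log N).card : ℝ) <
              (N : ℝ) ^ (1 - m / Real.log N ^ 2 * ent z - ε)).card : ℝ) ≤ ε * (q : ℝ) ^ m := by
  classical
  have he1 : e ≤ ε / 4 := by nlinarith
  filter_upwards [low T a Λ Z e hΛ hZ he (by linarith), eventually_ge_atTop 3, ev_log 1] with N g1 g2 g3 q hq hqN m b hb hm1 hm2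
    z z' hz hz' hzZ hlz hzz hent
  obtain ⟨L, hL⟩ : ∃ L, L = Real.log (N : ℝ) := ⟨_, rfl⟩
  have k1 := g1 q hq hqN m b hb hm1 hm2 z' hz' hzZ hlz
  rw [← hL] at g3 k1 hzz hent ⊢
  have hL0 : 0 < L := by linarith
  have hN1 : (1 : ℝ) ≤ N := by exact_mod_cast (by omega : 1 ≤ N)
  have h1 : m / L ^ 2 * ent z' ≤ m / L ^ 2 * ent z + ε / 4 := by
    have e1 := ent_conv z z' hz.le hz'
    have e2 : ent z' ≤ ent z + |z' - z| * Z := by
      have : (z' - z) * Real.log z' ≤ |z' - z| * Z := by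
        calc (z' - z) * Real.log z' ≤ |(z' - z) * Real.log z'| := le_abs_self _
          _ = |z' - z| * |Real.log z'| := abs_mul _ _
          _ ≤ _ := mul_le_mul_of_nonneg_left hlz (abs_nonneg _)
      linarith
    have e3 : 0 ≤ (m : ℝ) / L ^ 2 := by positivity
    have e4 := mul_le_mul_of_nonneg_left e2 e3
    have e5 := mul_le_mul_of_nonneg_right hzz (by linarith : 0 ≤ Z)
    linarith
  have k2 := k1 (by linarith)
  refine le_trans ?_ (k2.trans (mul_le_mul_of_nonneg_right (by linarith) (by positivity)))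
  have k3 : ((Fintype.piFinset fun j => Ioc (b j) (b j + q)).filter fun s =>
      (((Icc 1 N).filter fun n => |(hc s n : ℝ) - z' * m / L| ≤ e * L).card : ℝ) < (N : ℝ) ^ (1 - m / L ^ 2 * ent z - ε)) ⊆
      (Fintype.piFinset fun j => Ioc (b j) (b j + q)).filter fun s =>
        (((Icc 1 N).filter fun n => |(hc s n : ℝ) - z' * m / L| ≤ e * L).card : ℝ) < (N : ℝ) ^ (1 - m / L ^ 2 * ent z' - e) := by
    intro s hs
    rw [mem_filter] at hs ⊢
    refine ⟨hs.1, hs.2.trans_le ?_⟩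
    exact Real.rpow_le_rpow_of_exponent_le hN1 (by linarith)
  exact_mod_cast card_le_card k3

/-- the conditions which are common to the following statements -/
def Adm (T a : ℕ) (Λ : ℝ) (N q m : ℕ) (b : Fin m → ℕ) : Prop := (N : ℝ) ≤ q * Real.log N ^ a ∧ q ≤ N ∧ (∀ j, b j ≤ T * N) ∧
  Real.log N ^ 2 ≤ Λ * m ∧ (m : ℝ) ≤ Λ * Real.log N ^ 2

lemma abs_log_le {z Z : ℝ} (hZ : 1 ≤ Z) (h1 : 1 / Z ≤ z) (h2 : z ≤ Z) : 0 < z ∧ |z - 1| ≤ Z ∧ |Real.log z| ≤ Z := by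
  have hz : 0 < z := lt_of_lt_of_le (by positivity) h1
  have hl : Real.log Z ≤ Z := by
    have := Real.log_le_sub_one_of_pos (by linarith : 0 < Z)
    linarith
  refine ⟨hz, ?_, ?_⟩
  · rw [abs_le]
    constructor <;> linarith
  · rw [abs_le]
    constructor
    · have h3 : Real.log (1 / Z) ≤ Real.log z := Real.log_le_log (by positivity) h1
      rw [Real.log_div one_ne_zero (by linarith), Real.log_one] at h3
      linarith
    · exact (Real.log_le_log hz h2).trans hl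

/-- many `n` with many primes -/
theorem many_hi (T a : ℕ) (Λ Z ε : ℝ) (hΛ : 1 ≤ Λ) (hZ : 1 ≤ Z) (hε : 0 < ε) (hε1 : ε ≤ 1) : ∀ᶠ N : ℕ in atTop, ∀ (q m : ℕ)
    (b : Fin m → ℕ), Adm T a Λ N q m b → ∀ z : ℝ, 1 ≤ z → z ≤ Z → m / Real.log N ^ 2 * ent z ≤ 1 - ε →
      (((Fintype.piFinset fun j => Ioc (b j) (b j + q)).filter fun s =>
        (((Icc 1 N).filter fun n => z * m / Real.log N ≤ hc s n).card : ℝ) < (N : ℝ) ^ (1 - m / Real.log N ^ 2 * ent z - ε)).card : ℝ) ≤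
          ε * (q : ℝ) ^ m := by
  classical
  obtain ⟨e, he⟩ : ∃ e, e = ε / (4 * (Z + Λ)) := ⟨_, rfl⟩
  have he0 : 0 < e := by rw [he]; positivity
  have heZ : e * (Z + Λ) = ε / 4 := by rw [he]; field_simp
  filter_upwards [low2 T a Λ (Z + Λ) ε e hΛ (by linarith) hε1 he0 heZ.le, ev_log 1] with N g1 g2 q m b hA z hz hzZ hent
  obtain ⟨hq, hqN, hb, hm1, hm2⟩ := hA
  obtain ⟨L, hL⟩ : ∃ L, L = Real.log (N : ℝ) := ⟨_, rfl⟩
  have k0 := g1 q hq hqN m b hb hm1 hm2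
  rw [← hL] at g2 hm1 hm2 hent k0 ⊢
  have hL0 : 0 < L := by linarith
  have hm0 : (0 : ℝ) < m := by
    by_contra h
    have : (m : ℝ) = 0 := le_antisymm (not_lt.1 h) (Nat.cast_nonneg m)
    rw [this] at hm1
    nlinarith
  obtain ⟨z', hz'⟩ : ∃ z', z' = z + e * (L ^ 2 / m) := ⟨_, rfl⟩
  have hr : L ^ 2 / m ≤ Λ := by rwa [div_le_iff₀ hm0]
  have h1 : 0 ≤ e * (L ^ 2 / m) := by positivity
  have h2 : e * (L ^ 2 / m) ≤ Λ := by
    have : e ≤ 1 := by nlinarith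
    calc e * (L ^ 2 / m) ≤ 1 * Λ := mul_le_mul this hr (by positivity) (by norm_num)
      _ = Λ := one_mul Λ
  obtain ⟨a1, a2, a3⟩ := abs_log_le (z := z') (Z := Z + Λ) (by linarith) (by
    rw [div_le_iff₀ (by linarith)]
    have : 1 ≤ z' := by linarith
    nlinarith) (by linarith)
  have k1 := k0 z z' (by linarith) a1 a2 a3 (by
    rw [hz', add_sub_cancel_left, abs_of_nonneg h1]
    apply le_of_eq
    field_simp) hent
  refine le_trans ?_ k1
  have k2 : ((Fintype.piFinset fun j => Ioc (b j) (b j + q)).filter fun s =>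
      (((Icc 1 N).filter fun n => z * m / L ≤ hc s n).card : ℝ) < (N : ℝ) ^ (1 - m / L ^ 2 * ent z - ε)) ⊆
      (Fintype.piFinset fun j => Ioc (b j) (b j + q)).filter fun s =>
        (((Icc 1 N).filter fun n => |(hc s n : ℝ) - z' * m / L| ≤ e * L).card : ℝ) < (N : ℝ) ^ (1 - m / L ^ 2 * ent z - ε) := by
    intro s hs
    rw [mem_filter] at hs ⊢
    refine ⟨hs.1, lt_of_le_of_lt ?_ hs.2⟩
    have : ((Icc 1 N).filter fun n => |(hc s n : ℝ) - z' * m / L| ≤ e * L) ⊆ (Icc 1 N).filter fun n => z * m / L ≤ hc s n := by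
      intro n hn
      rw [mem_filter] at hn ⊢
      refine ⟨hn.1, ?_⟩
      have h3 := (abs_le.1 hn.2).1
      have h4 : z' * m / L = z * m / L + e * L := by rw [hz']; field_simp
      linarith
    exact_mod_cast card_le_card this
  exact_mod_cast card_le_card k2

/-- many `n` with few primes -/
theorem many_lo (T a : ℕ) (Λ Z ε : ℝ) (hΛ : 1 ≤ Λ) (hZ : 1 ≤ Z) (hε : 0 < ε) (hε1 : ε ≤ 1) : ∀ᶠ N : ℕ in atTop, ∀ (q m : ℕ)
    (b : Fin m → ℕ), Adm T a Λ N q m b → ∀ z : ℝ, 1 / Z ≤ z → z ≤ 1 → m / Real.log N ^ 2 * ent z ≤ 1 - ε →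
      (((Fintype.piFinset fun j => Ioc (b j) (b j + q)).filter fun s =>
        (((Icc 1 N).filter fun n => (hc s n : ℝ) ≤ z * m / Real.log N).card : ℝ) <
          (N : ℝ) ^ (1 - m / Real.log N ^ 2 * ent z - ε)).card : ℝ) ≤ ε * (q : ℝ) ^ m := by
  classical
  obtain ⟨e, he⟩ : ∃ e, e = ε / (8 * Z * Λ) := ⟨_, rfl⟩
  have he0 : 0 < e := by rw [he]; positivity
  have heZ : e * (2 * Z) ≤ ε / 4 := by
    rw [he, div_mul_eq_mul_div, div_le_iff₀ (by positivity)]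
    have : ε * Z ≤ ε * Z * Λ := le_mul_of_one_le_right (by positivity) hΛ
    linarith
  filter_upwards [low2 T a Λ (2 * Z) ε e hΛ (by linarith) hε1 he0 heZ, ev_log 1] with N g1 g2 q m b hA z hz hzZ hent
  obtain ⟨hq, hqN, hb, hm1, hm2⟩ := hA
  obtain ⟨L, hL⟩ : ∃ L, L = Real.log (N : ℝ) := ⟨_, rfl⟩
  have k0 := g1 q hq hqN m b hb hm1 hm2
  rw [← hL] at g2 hm1 hm2 hent k0 ⊢
  have hL0 : 0 < L := by linarith
  have hm0 : (0 : ℝ) < m := by
    by_contra h
    have : (m : ℝ) = 0 := le_antisymm (not_lt.1 h) (Nat.cast_nonneg m)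
    rw [this] at hm1
    nlinarith
  obtain ⟨z', hz'⟩ : ∃ z', z' = z - e * (L ^ 2 / m) := ⟨_, rfl⟩
  have hr : L ^ 2 / m ≤ Λ := by rwa [div_le_iff₀ hm0]
  have h1 : 0 ≤ e * (L ^ 2 / m) := by positivity
  have h2 : e * (L ^ 2 / m) ≤ 1 / (2 * Z) := by
    calc e * (L ^ 2 / m) ≤ e * Λ := mul_le_mul_of_nonneg_left hr he0.le
      _ = ε / (8 * Z) := by rw [he]; field_simp
      _ ≤ 1 / (2 * Z) := by
          rw [div_le_div_iff₀ (by positivity) (by positivity)]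
          nlinarith
  have h3 : 1 / Z = 1 / (2 * Z) + 1 / (2 * Z) := by field_simp; norm_num
  obtain ⟨a1, a2, a3⟩ := abs_log_le (z := z') (Z := 2 * Z) (by linarith) (by linarith) (by linarith)
  have k1 := k0 z z' (lt_of_lt_of_le (by positivity) hz) a1 a2 a3 (by
    rw [hz', show z - e * (L ^ 2 / m) - z = -(e * (L ^ 2 / m)) by ring, abs_neg, abs_of_nonneg h1]
    apply le_of_eq
    field_simp) hent
  refine le_trans ?_ k1
  have k2 : ((Fintype.piFinset fun j => Ioc (b j) (b j + q)).filter fun s =>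
      (((Icc 1 N).filter fun n => (hc s n : ℝ) ≤ z * m / L).card : ℝ) < (N : ℝ) ^ (1 - m / L ^ 2 * ent z - ε)) ⊆
      (Fintype.piFinset fun j => Ioc (b j) (b j + q)).filter fun s =>
        (((Icc 1 N).filter fun n => |(hc s n : ℝ) - z' * m / L| ≤ e * L).card : ℝ) < (N : ℝ) ^ (1 - m / L ^ 2 * ent z - ε) := by
    intro s hs
    rw [mem_filter] at hs ⊢
    refine ⟨hs.1, lt_of_le_of_lt ?_ hs.2⟩
    have : ((Icc 1 N).filter fun n => |(hc s n : ℝ) - z' * m / L| ≤ e * L) ⊆ (Icc 1 N).filter fun n => (hc s n : ℝ) ≤ z * m / L := by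
      intro n hn
      rw [mem_filter] at hn ⊢
      refine ⟨hn.1, ?_⟩
      have h3 := (abs_le.1 hn.2).2
      have h4 : z' * m / L = z * m / L - e * L := by rw [hz']; field_simp
      linarith
    exact_mod_cast card_le_card this
  exact_mod_cast card_le_card k2

/-- few `n` -/
theorem few (T a : ℕ) (Λ Z ε : ℝ) (hΛ : 1 ≤ Λ) (hZ : 1 ≤ Z) (hε : 0 < ε) (hε1 : ε ≤ 1) : ∀ᶠ N : ℕ in atTop, ∀ (q m : ℕ)
    (b : Fin m → ℕ), Adm T a Λ N q m b → ∀ z : ℝ, 0 < z → |z - 1| ≤ Z →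
      (((Fintype.piFinset fun j => Ioc (b j) (b j + q)).filter fun s => (N : ℝ) ^ (1 - m / Real.log N ^ 2 * ent z + ε) <
        (((Icc 1 N).filter fun n => z * m / Real.log N * Real.log z ≤ hc s n * Real.log z).card : ℝ)).card : ℝ) ≤
          ε * (q : ℝ) ^ m := by
  classical
  filter_upwards [upp T a Λ Z (ε / 2) hΛ hZ (by positivity) (by linarith), eventually_ge_atTop 3, ev_log (Real.log (1 / ε) / (ε / 2))]
    with N g1 g2 g3 q m b hA z hz hzZ
  obtain ⟨hq, hqN, hb, hm1, hm2⟩ := hA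
  have k1 := g1 q hq hqN m b hb hm2 z hz hzZ
  have hN0 : (0 : ℝ) < N := by exact_mod_cast (by omega : 0 < N)
  obtain ⟨ρ, hρ⟩ : ∃ ρ, ρ = (1 : ℝ) - m / Real.log N ^ 2 * ent z := ⟨_, rfl⟩
  rw [← hρ] at k1 ⊢
  obtain ⟨Ω, hΩ⟩ : ∃ Ω, Ω = Fintype.piFinset fun j => Ioc (b j) (b j + q) := ⟨_, rfl⟩
  rw [← hΩ] at k1 ⊢
  obtain ⟨f, hf⟩ : ∃ f : (Fin m → ℕ) → ℝ, f = fun s =>
    (((Icc 1 N).filter fun n => z * m / Real.log N * Real.log z ≤ hc s n * Real.log z).card : ℝ) := ⟨_, rfl⟩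
  have hf' : ∀ s, (((Icc 1 N).filter fun n => z * m / Real.log N * Real.log z ≤ hc s n * Real.log z).card : ℝ) = f s := fun s => by
    rw [hf]
  have hf0 : ∀ s, 0 ≤ f s := fun s => by rw [hf]; exact Nat.cast_nonneg _
  simp only [hf'] at k1 ⊢
  have h1 : ((Ω.filter fun s => (N : ℝ) ^ (ρ + ε) < f s).card : ℝ) * (N : ℝ) ^ (ρ + ε) ≤ ∑ s ∈ Ω, f s := by
    rw [← nsmul_eq_mul, ← sum_const]
    refine le_trans (sum_le_sum (fun s hs => ?_)) (sum_le_sum_of_subset_of_nonneg (filter_subset _ _) fun s _ _ => hf0 s)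
    exact (mem_filter.1 hs).2.le
  have h2 := h1.trans k1
  have h3 : (N : ℝ) ^ (ρ + ε / 2) = (N : ℝ) ^ (-(ε / 2)) * (N : ℝ) ^ (ρ + ε) := by
    rw [← Real.rpow_add hN0]
    congr 1
    ring
  have h4 : (N : ℝ) ^ (ρ + ε / 2) * (q : ℝ) ^ m = ((N : ℝ) ^ (-(ε / 2)) * (q : ℝ) ^ m) * (N : ℝ) ^ (ρ + ε) := by
    rw [h3]
    ring
  rw [h4] at h2
  have h5 := le_of_mul_le_mul_right h2 (Real.rpow_pos_of_pos hN0 _)
  refine h5.trans (mul_le_mul_of_nonneg_right ?_ (by positivity))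
  rw [Real.rpow_def_of_pos hN0]
  rw [div_le_iff₀ (by positivity)] at g3
  have h6 : Real.exp (Real.log N * -(ε / 2)) ≤ Real.exp (-Real.log (1 / ε)) := Real.exp_le_exp.2 (by linarith)
  rwa [Real.exp_neg, Real.exp_log (by positivity), one_div, inv_inv] at h6

/-- no `n` -/
theorem none (T a : ℕ) (Λ Z ε : ℝ) (hΛ : 1 ≤ Λ) (hZ : 1 ≤ Z) (hε : 0 < ε) (hε1 : ε ≤ 1) : ∀ᶠ N : ℕ in atTop, ∀ (q m : ℕ)
    (b : Fin m → ℕ), Adm T a Λ N q m b → ∀ z : ℝ, 0 < z → |z - 1| ≤ Z → 1 + ε ≤ m / Real.log N ^ 2 * ent z →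
      (((Fintype.piFinset fun j => Ioc (b j) (b j + q)).filter fun s =>
        ((Icc 1 N).filter fun n => z * m / Real.log N * Real.log z ≤ hc s n * Real.log z).Nonempty).card : ℝ) ≤
          ε * (q : ℝ) ^ m := by
  classical
  filter_upwards [upp T a Λ Z (ε / 2) hΛ hZ (by positivity) (by linarith), eventually_ge_atTop 3, ev_log (Real.log (1 / ε) / (ε / 2))]
    with N g1 g2 g3 q m b hA z hz hzZ hent
  obtain ⟨hq, hqN, hb, hm1, hm2⟩ := hA
  have k1 := g1 q hq hqN m b hb hm2 z hz hzZ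
  have hN0 : (0 : ℝ) < N := by exact_mod_cast (by omega : 0 < N)
  have hN1 : (1 : ℝ) ≤ N := by exact_mod_cast (by omega : 1 ≤ N)
  have h1 : (((Fintype.piFinset fun j => Ioc (b j) (b j + q)).filter fun s =>
      ((Icc 1 N).filter fun n => z * m / Real.log N * Real.log z ≤ hc s n * Real.log z).Nonempty).card : ℝ) ≤
      ∑ s ∈ Fintype.piFinset (fun j => Ioc (b j) (b j + q)), (((Icc 1 N).filter fun n =>
        z * m / Real.log N * Real.log z ≤ hc s n * Real.log z).card : ℝ) := by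
    rw [card_filter]
    push_cast
    apply sum_le_sum
    intro s _
    split_ifs with h
    · exact_mod_cast h.card_pos
    · exact Nat.cast_nonneg _
  refine h1.trans (k1.trans (mul_le_mul_of_nonneg_right ?_ (by positivity)))
  refine (Real.rpow_le_rpow_of_exponent_le hN1 (by linarith : 1 - m / Real.log N ^ 2 * ent z + ε / 2 ≤ -(ε / 2))).trans ?_
  rw [Real.rpow_def_of_pos hN0]
  rw [div_le_iff₀ (by positivity)] at g3
  have h6 : Real.exp (Real.log N * -(ε / 2)) ≤ Real.exp (-Real.log (1 / ε)) := Real.exp_le_exp.2 (by linarith)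
  rwa [Real.exp_neg, Real.exp_log (by positivity), one_div, inv_inv] at h6

end Pool.Agent.Run7.h931.EX
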