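import Pool.Agent.Run7.h931.EX.Zz

/-!
# The number of primes in perturbed intervals, part 6: many `n` with the prescribed number of primes
-/

set_option autoImplicit false

namespace Pool.Agent.Run7.h931.EX

open Finset Filter
open Pool.Agent.Run7.h931.RS (Pw Fw Wd Wd_pos one_le_Pw one_le_Fw Cd hit cop hit_sub ev_log lln)

/-- the size of the truncated weights -/
lemma Wk_le {m : ℕ} {w : ℕ} {L δ K : ℝ} {q n : ℕ} {b : Fin m → ℕ} (h : ∀ j, Cd w L δ K q (b j) n) (z Z : ℝ) (hz : 0 < z)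
    (hzZ : |z - 1| ≤ Z) (hZδ : Z * δ ≤ 1) (hL0 : 0 < L) (hδ0 : 0 < δ) (s : Fin m → ℕ)
    (hs : s ∈ Fintype.piFinset fun j => Ioc (b j) (b j + q)) (v e : ℝ) (hve : |(hc s n : ℝ) - v| ≤ e) (μ : ℝ) (hμ1 : μ ≤ 1)
    (h1 : ((univ.filter fun j => s j ∈ cop (Wd w) (b j) q).card : ℝ) ≤ (1 + μ) * (m / Pw w))
    (h2 : (1 - μ) * (m / Pw w) ≤ ((univ.filter fun j => s j ∈ cop (Wd w) (b j) q).card : ℝ)) :
    Wk z w q b n s ≤ Real.exp (v * Real.log z + e * |Real.log z| + (1 - z) * (m / L) + (Z * μ + 2 * Z * ((3 + Z) * δ)) * (m / L)) := by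
  classical
  have hP := one_le_Pw w
  have hZ0 : 0 ≤ Z := (abs_nonneg _).trans hzZ
  obtain ⟨c, hcc⟩ : ∃ c : ℕ, c = (univ.filter fun j => s j ∈ cop (Wd w) (b j) q).card := ⟨_, rfl⟩
  rw [← hcc] at h1 h2
  obtain ⟨β, hβ⟩ : ∃ β : ℝ, β = (1 - z) * (Pw w / L) + Z * ((3 + Z) * δ * (Pw w / L)) := ⟨_, rfl⟩
  have e1 : ∀ j, wz z (cop (Wd w) (b j) q) (hit (b j) q n) (s j) ≤
      (if (n + s j).Prime then z else 1) * (if s j ∈ cop (Wd w) (b j) q then Real.exp β else 1) := by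
    intro j
    obtain ⟨d1, d2, d3, d4, d5⟩ := (h j).dens z Z hz hzZ hZδ
    have hsub := hit_sub w (b j) q n (h j).hn (h j).hWn
    obtain ⟨cz, hcz⟩ : ∃ cz, cz = cf z (cop (Wd w) (b j) q) (hit (b j) q n) := ⟨_, rfl⟩
    have f1 : cz ≤ Real.exp β := by
      rw [← hcz] at d2 d5
      obtain ⟨X, hX⟩ : ∃ X : ℝ, X = cz * (hit (b j) q n).card / (cop (Wd w) (b j) q).card := ⟨_, rfl⟩
      rw [← hX] at d5
      have f2 : cz = (1 - z) * X + 1 := by
        have hU : (0 : ℝ) < (cop (Wd w) (b j) q).card := by exact_mod_cast (h j).ucard.2.2.1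
        rw [hX, hcz]
        unfold cf
        field_simp
        ring
      rw [f2]
      refine (Real.add_one_le_exp _).trans (Real.exp_le_exp.2 ?_)
      rw [hβ]
      have f3 : (1 - z) * (X - Pw w / L) ≤ Z * ((3 + Z) * δ * (Pw w / L)) := by
        calc (1 - z) * (X - Pw w / L) ≤ |(1 - z) * (X - Pw w / L)| := le_abs_self _
          _ = |z - 1| * |X - Pw w / L| := by rw [abs_mul, abs_sub_comm 1 z]
          _ ≤ _ := mul_le_mul hzZ d5 (abs_nonneg _) hZ0
      linarith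
    have hβ0 : 0 < Real.exp β := Real.exp_pos _
    unfold wz
    rw [← hcz]
    by_cases g1 : s j ∈ hit (b j) q n
    · rw [if_pos g1, if_pos ((hit_iff q b n s hs j).1 g1), if_pos (hsub g1)]
      exact mul_le_mul_of_nonneg_left f1 hz.le
    · rw [if_neg g1, if_neg (fun g2 => g1 ((hit_iff q b n s hs j).2 g2)), one_mul]
      by_cases g3 : s j ∈ cop (Wd w) (b j) q
      · rw [if_pos g3, if_pos g3]
        exact f1
      · rw [if_neg g3, if_neg g3]
  have e2 : Wk z w q b n s ≤ z ^ hc s n * Real.exp (c * β) := by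
    unfold Wk
    refine (Finset.prod_le_prod (fun j _ => wz_nonneg z hz _ _ ((h j).dens z Z hz hzZ hZδ).1 _) fun j _ => e1 j).trans ?_
    rw [prod_mul_distrib, ← pow_hc]
    apply le_of_eq
    congr 1
    rw [prod_ite, prod_const, prod_const_one, mul_one, ← Real.exp_nat_mul, hcc]
  have e3 : z ^ hc s n ≤ Real.exp (v * Real.log z + e * |Real.log z|) := by
    have f1 : z ^ hc s n = Real.exp (hc s n * Real.log z) := by rw [Real.exp_nat_mul, Real.exp_log hz]
    rw [f1]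
    apply Real.exp_le_exp.2
    have f2 : ((hc s n : ℝ) - v) * Real.log z ≤ e * |Real.log z| := by
      calc ((hc s n : ℝ) - v) * Real.log z ≤ |((hc s n : ℝ) - v) * Real.log z| := le_abs_self _
        _ = |(hc s n : ℝ) - v| * |Real.log z| := abs_mul _ _
        _ ≤ _ := mul_le_mul_of_nonneg_right hve (abs_nonneg _)
    linarith
  have e4 : (c : ℝ) * β ≤ (1 - z) * (m / L) + (Z * μ + 2 * Z * ((3 + Z) * δ)) * (m / L) := by
    have hm0 : (0 : ℝ) ≤ m := Nat.cast_nonneg m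
    have f1 : (c : ℝ) * β = (1 - z) * (c * (Pw w / L)) + Z * ((3 + Z) * δ) * (c * (Pw w / L)) := by rw [hβ]; ring
    have f2 : |(c : ℝ) * (Pw w / L) - m / L| ≤ μ * (m / L) := by
      have g0 : (c : ℝ) * (Pw w / L) - m / L = (c - m / Pw w) * (Pw w / L) := by field_simp
      have g1 : |(c : ℝ) - m / Pw w| ≤ μ * (m / Pw w) := by
        rw [abs_le]
        constructor <;> linarith
      rw [g0, abs_mul, abs_of_pos (by positivity : 0 < Pw w / L)]
      calc |(c : ℝ) - m / Pw w| * (Pw w / L) ≤ μ * (m / Pw w) * (Pw w / L) := mul_le_mul_of_nonneg_right g1 (by positivity)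
        _ = _ := by field_simp
    have f3 : (1 - z) * (c * (Pw w / L) - m / L) ≤ Z * (μ * (m / L)) := by
      calc (1 - z) * (c * (Pw w / L) - m / L) ≤ |(1 - z) * (c * (Pw w / L) - m / L)| := le_abs_self _
        _ = |z - 1| * |(c : ℝ) * (Pw w / L) - m / L| := by rw [abs_mul, abs_sub_comm 1 z]
        _ ≤ _ := mul_le_mul hzZ f2 (abs_nonneg _) hZ0
    have f4 : (c : ℝ) * (Pw w / L) ≤ 2 * (m / L) := by
      have := (abs_le.1 f2).2
      have g1 : μ * (m / L) ≤ 1 * (m / L) := mul_le_mul_of_nonneg_right hμ1 (by positivity)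
      linarith
    have f5 : Z * ((3 + Z) * δ) * (c * (Pw w / L)) ≤ Z * ((3 + Z) * δ) * (2 * (m / L)) := mul_le_mul_of_nonneg_left f4 (by positivity)
    rw [f1]
    linarith
  calc Wk z w q b n s ≤ z ^ hc s n * Real.exp (c * β) := e2
    _ ≤ Real.exp (v * Real.log z + e * |Real.log z|) * Real.exp ((1 - z) * (m / L) + (Z * μ + 2 * Z * ((3 + Z) * δ)) * (m / L)) :=
        mul_le_mul e3 (Real.exp_le_exp.2 e4) (Real.exp_pos _).le (Real.exp_pos _).le
    _ = _ := by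
        rw [← Real.exp_add]
        congr 1
        ring

/-- there are many `n` with the prescribed number of primes -/
theorem low (T a : ℕ) (Λ Z ε : ℝ) (hΛ : 1 ≤ Λ) (hZ : 1 ≤ Z) (hε : 0 < ε) (hε1 : ε ≤ 1) : ∀ᶠ N : ℕ in atTop, ∀ q : ℕ,
    (N : ℝ) ≤ q * Real.log N ^ a → q ≤ N → ∀ (m : ℕ) (b : Fin m → ℕ), (∀ j, b j ≤ T * N) → Real.log N ^ 2 ≤ Λ * m →
      (m : ℝ) ≤ Λ * Real.log N ^ 2 → ∀ z : ℝ, 0 < z → |z - 1| ≤ Z → |Real.log z| ≤ Z → m / Real.log N ^ 2 * ent z ≤ 1 - ε →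
        (((Fintype.piFinset fun j => Ioc (b j) (b j + q)).filter fun s =>
          (((Icc 1 N).filter fun n => |(hc s n : ℝ) - z * m / Real.log N| ≤ ε * Real.log N).card : ℝ) <
            (N : ℝ) ^ (1 - m / Real.log N ^ 2 * ent z - ε)).card : ℝ) ≤ ε * (q : ℝ) ^ m := by
  classical
  obtain ⟨κ, hκ⟩ : ∃ κ, κ = Λ * Z ^ 2 := ⟨_, rfl⟩
  have hκ0 : 0 < κ := by rw [hκ]; positivity
  obtain ⟨η, hη⟩ : ∃ η, η = ε / 400 := ⟨_, rfl⟩
  have hη0 : 0 < η := by rw [hη]; positivity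
  have hη1 : η ≤ 1 := by rw [hη]; linarith
  obtain ⟨w, hw3, hw⟩ := sharpc (2 * κ) η (by positivity) hη0
  have hsh := hw w le_rfl
  have hP := one_le_Pw w
  obtain ⟨e₀, he₀⟩ : ∃ e₀, e₀ = ε / (8 * Z) := ⟨_, rfl⟩
  have he0 : 0 < e₀ := by rw [he₀]; positivity
  have heZ : e₀ * Z = ε / 8 := by rw [he₀]; field_simp
  have heε : e₀ ≤ ε / 8 := by rw [← heZ]; nlinarith
  obtain ⟨δ, hδ⟩ : ∃ δ, δ = min (e₀ / (4 * ((1 + Z) * Λ * (3 + Z)))) (η / (8 * κ * Pw w)) := ⟨_, rfl⟩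
  have hδ0 : 0 < δ := by rw [hδ]; exact lt_min (by positivity) (by positivity)
  have hδa : (1 + Z) * Λ * ((3 + Z) * δ) ≤ e₀ / 4 := by
    have : δ ≤ e₀ / (4 * ((1 + Z) * Λ * (3 + Z))) := by rw [hδ]; exact min_le_left _ _
    rw [le_div_iff₀ (by positivity)] at this
    linarith
  have hδb : 4 * κ * (δ * Pw w) ≤ η / 2 := by
    have : δ ≤ η / (8 * κ * Pw w) := by rw [hδ]; exact min_le_right _ _
    rw [le_div_iff₀ (by positivity)] at this
    linarith
  have hZ3 : Z * ((3 + Z) * δ) * Λ ≤ e₀ / 4 := by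
    refine le_trans ?_ hδa
    have : 0 ≤ Λ * ((3 + Z) * δ) := by positivity
    nlinarith
  have hδΛ : δ ≤ e₀ / 4 := by
    refine le_trans ?_ hZ3
    have h0 : 1 ≤ Z * (3 + Z) := by nlinarith
    have h1 : 1 ≤ Z * (3 + Z) * Λ := by
      calc (1 : ℝ) ≤ Z * (3 + Z) := h0
        _ = Z * (3 + Z) * 1 := by ring
        _ ≤ Z * (3 + Z) * Λ := mul_le_mul_of_nonneg_left hΛ (by linarith)
    calc δ = 1 * δ := by ring
      _ ≤ (Z * (3 + Z) * Λ) * δ := mul_le_mul_of_nonneg_right h1 hδ0.le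
      _ = _ := by ring
  have hZδ : Z * δ ≤ 1 := by
    have h1 : Z * δ ≤ Z * ((3 + Z) * δ) * Λ := by
      have h2 : 1 ≤ (3 + Z) * Λ := by nlinarith
      have h3 : 0 ≤ Z * δ := by positivity
      calc Z * δ = Z * δ * 1 := by ring
        _ ≤ Z * δ * ((3 + Z) * Λ) := mul_le_mul_of_nonneg_left h2 h3
        _ = _ := by ring
    linarith
  obtain ⟨K, hK, h1⟩ := two_Zz T a w Λ Z ε e₀ δ η hΛ hZ hε he0 (by linarith) hδ0 (by linarith) hZδ hδa (by linarith) hη0 hη1
    (by rw [← hκ]; exact hsh) (by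
      rw [← hκ]
      have f1 := Real.exp_le_exp.2 hδb
      have := Real.abs_exp_sub_one_sub_id_le (x := η / 2) (by rw [abs_of_pos (by positivity)]; linarith)
      have := (abs_le.1 this).2
      nlinarith)
  have hWpos := Wd_pos w
  have hWr : (0 : ℝ) < Wd w := by exact_mod_cast hWpos
  obtain ⟨c₂, hc₂⟩ : ∃ c₂, c₂ = (δ / Pw w) ^ 3 / 4 := ⟨_, rfl⟩
  have hc₂0 : 0 < c₂ := by rw [hc₂]; positivity
  filter_upwards [h1, eventually_ge_atTop 3, ev_log (Real.log (16 * Wd w) / (ε / 2)), ev_log (Λ * Real.log (4 / ε) / c₂), ev_log 1]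
    with N g1 g2 g3 g4 g5 q hq hqN m b hb hm1 hm2 z hz hzZ hlz hent
  obtain ⟨n, R, a1, a2, a3, a4, a5⟩ := g1 q hq hqN m b hb hm2
  have a6 := a5 z hz hzZ hlz hent
  obtain ⟨L, hL⟩ : ∃ L, L = Real.log (N : ℝ) := ⟨_, rfl⟩
  rw [← hL] at g3 g4 g5 hm1 hm2 a4 a6 hent ⊢
  have hN0 : (0 : ℝ) < N := by exact_mod_cast (by omega : 0 < N)
  have hL0 : 0 < L := by linarith
  have hNL : (N : ℝ) = Real.exp L := by rw [hL, Real.exp_log hN0]
  have hm0 : (0 : ℝ) ≤ m := Nat.cast_nonneg m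
  have hcm : Real.log (4 / ε) ≤ c₂ * m := by
    rw [div_le_iff₀ hc₂0] at g4
    have h2 : L * c₂ ≤ L ^ 2 * c₂ := mul_le_mul_of_nonneg_right (by nlinarith) hc₂0.le
    have h3 : L ^ 2 * c₂ ≤ Λ * m * c₂ := mul_le_mul_of_nonneg_right hm1 hc₂0.le
    have h4 : Λ * Real.log (4 / ε) ≤ Λ * (c₂ * m) := by linarith
    exact le_of_mul_le_mul_left h4 (by linarith)
  have hexp : Real.exp (-(c₂ * m)) ≤ ε / 4 := by
    have := Real.exp_le_exp.2 hcm
    rw [Real.exp_log (by positivity)] at this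
    rw [Real.exp_neg, ← one_div, div_le_iff₀ (Real.exp_pos _)]
    rw [div_le_iff₀ hε] at this
    linarith
  obtain ⟨Ω, hΩ⟩ : ∃ Ω, Ω = Fintype.piFinset fun j => Ioc (b j) (b j + q) := ⟨_, rfl⟩
  have hR0 : 0 < R := by
    have : (0 : ℝ) < R := lt_of_lt_of_le (by positivity) a1
    exact_mod_cast this
  have hqm : 0 ≤ (q : ℝ) ^ m := by positivity
  obtain ⟨ρ, hρ⟩ : ∃ ρ, ρ = (1 + δ) / Pw w := ⟨_, rfl⟩
  obtain ⟨ρ', hρ'⟩ : ∃ ρ', ρ' = 1 - (1 - δ) / Pw w := ⟨_, rfl⟩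
  have hρ0 : δ / Pw w ≤ ρ := by
    rw [hρ]
    apply div_le_div_of_nonneg_right _ (by linarith)
    linarith
  have hδP : δ / Pw w ≤ δ := div_le_self hδ0.le hP
  have hρ'0 : δ / Pw w ≤ ρ' := by
    rw [hρ', sub_div]
    have : 1 / Pw w ≤ 1 := by rw [div_le_one (by linarith)]; exact hP
    linarith
  rw [← hΩ] at a6 ⊢
  -- the three bad sets
  obtain ⟨B1, hB1⟩ : ∃ B1, B1 = Ω.filter fun s => Xt z (z * m / L) (e₀ * L) w q b n R s < R / 2 := ⟨_, rfl⟩
  obtain ⟨B2, hB2⟩ : ∃ B2, B2 = Ω.filter fun s => (1 + δ) * ρ * m <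
    ((univ.filter fun j => s j ∈ cop (Wd w) (b j) q).card : ℝ) := ⟨_, rfl⟩
  obtain ⟨B3, hB3⟩ : ∃ B3, B3 = Ω.filter fun s => (1 + δ / Pw w) * ρ' * m <
    ((univ.filter fun j => s j ∈ Ioc (b j) (b j + q) \ cop (Wd w) (b j) q).card : ℝ) := ⟨_, rfl⟩
  rw [← hB1] at a6
  have c1 : (B1.card : ℝ) ≤ ε / 4 * (q : ℝ) ^ m := by
    refine a6.trans (mul_le_mul_of_nonneg_right ?_ hqm)
    rw [hη]
    linarith
  have hδ1 : δ ≤ 1 := by linarith
  have hprod : ∏ j : Fin m, ((Ioc (b j) (b j + q)).card : ℝ) = (q : ℝ) ^ m := by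
    rw [prod_congr rfl fun j _ => by rw [Nat.card_Ioc, Nat.add_sub_cancel_left], prod_const, card_univ, Fintype.card_fin]
  have c2 : (B2.card : ℝ) ≤ ε / 4 * (q : ℝ) ^ m := by
    have d1 := lln (fun j => Ioc (b j) (b j + q)) (fun j => cop (Wd w) (b j) q) (fun j => filter_subset _ _) ρ δ hδ0 hδ1
      (fun j => by
        have := (a4 0 hR0 j).ucard.2.1
        rw [Nat.card_Ioc, Nat.add_sub_cancel_left, hρ]
        refine this.trans ?_
        rw [div_mul_eq_mul_div, mul_div_assoc]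
        apply mul_le_mul_of_nonneg_right _ (by positivity)
        linarith)
    rw [hprod, ← hΩ, ← hB2] at d1
    refine d1.trans (mul_le_mul_of_nonneg_right ?_ hqm)
    refine le_trans (Real.exp_le_exp.2 ?_) hexp
    apply neg_le_neg
    apply mul_le_mul_of_nonneg_right _ hm0
    rw [hc₂]
    have e1 : (δ / Pw w) ^ 2 ≤ δ ^ 2 := pow_le_pow_left₀ (by positivity) hδP 2
    calc (δ / Pw w) ^ 3 / 4 = (δ / Pw w) ^ 2 / 4 * (δ / Pw w) := by ring
      _ ≤ δ ^ 2 / 4 * ρ := mul_le_mul (by linarith) hρ0 (by positivity) (by positivity)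
  have c3 : (B3.card : ℝ) ≤ ε / 4 * (q : ℝ) ^ m := by
    have d1 := lln (fun j => Ioc (b j) (b j + q)) (fun j => Ioc (b j) (b j + q) \ cop (Wd w) (b j) q) (fun j => sdiff_subset) ρ'
      (δ / Pw w) (by positivity) (by linarith)
      (fun j => by
        have := (a4 0 hR0 j).ucard.1
        have hsub : cop (Wd w) (b j) q ⊆ Ioc (b j) (b j + q) := filter_subset _ _
        rw [cast_card_sdiff hsub, Nat.card_Ioc, Nat.add_sub_cancel_left, hρ']
        have e1 : (1 - (1 - δ) / Pw w) * (q : ℝ) = q - (1 - δ) * (q / Pw w) := by field_simp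
        have e2 : (1 - δ) * ((q : ℝ) / Pw w) ≤ (1 - δ / 4) * (q / Pw w) := mul_le_mul_of_nonneg_right (by linarith) (by positivity)
        rw [e1]
        linarith)
    rw [hprod, ← hΩ, ← hB3] at d1
    refine d1.trans (mul_le_mul_of_nonneg_right ?_ hqm)
    refine le_trans (Real.exp_le_exp.2 ?_) hexp
    apply neg_le_neg
    apply mul_le_mul_of_nonneg_right _ hm0
    rw [hc₂]
    calc (δ / Pw w) ^ 3 / 4 = (δ / Pw w) ^ 2 / 4 * (δ / Pw w) := by ring
      _ ≤ (δ / Pw w) ^ 2 / 4 * ρ' := mul_le_mul_of_nonneg_left hρ'0 (by positivity)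
  -- every other vector of shifts is good
  have c4 : (Ω.filter fun s => (((Icc 1 N).filter fun n => |(hc s n : ℝ) - z * m / L| ≤ ε * L).card : ℝ) <
      (N : ℝ) ^ (1 - m / L ^ 2 * ent z - ε)) ⊆ B1 ∪ (B2 ∪ B3) := by
    intro s hs
    rw [mem_filter] at hs
    obtain ⟨hsΩ, hs⟩ := hs
    by_contra hnot
    rw [mem_union, mem_union, not_or, not_or] at hnot
    obtain ⟨n1, n2, n3⟩ := hnot
    rw [hB1, mem_filter, not_and, not_lt] at n1
    rw [hB2, mem_filter, not_and, not_lt] at n2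
    rw [hB3, mem_filter, not_and, not_lt] at n3
    apply absurd hs
    rw [not_lt]
    have n1' := n1 hsΩ
    have n2' := n2 hsΩ
    have n3' := n3 hsΩ
    have hsΩ' : s ∈ Fintype.piFinset fun j => Ioc (b j) (b j + q) := by rw [← hΩ]; exact hsΩ
    obtain ⟨c, hcc⟩ : ∃ c : ℕ, c = (univ.filter fun j => s j ∈ cop (Wd w) (b j) q).card := ⟨_, rfl⟩
    have hcV : ((univ.filter fun j => s j ∈ Ioc (b j) (b j + q) \ cop (Wd w) (b j) q).card : ℝ) = m - c := by
      have e1 : (univ.filter fun j => s j ∈ Ioc (b j) (b j + q) \ cop (Wd w) (b j) q) =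
          univ.filter fun j => ¬ s j ∈ cop (Wd w) (b j) q := by
        apply filter_congr
        intro j _
        rw [Finset.mem_sdiff]
        exact ⟨fun h => h.2, fun h => ⟨(Fintype.mem_piFinset.1 hsΩ') j, h⟩⟩
      have e2 := card_filter_add_card_filter_not (s := (univ : Finset (Fin m))) (fun j => s j ∈ cop (Wd w) (b j) q)
      rw [card_univ, Fintype.card_fin, ← hcc] at e2
      rw [e1]
      have e3 : (c : ℝ) + (univ.filter fun j => ¬ s j ∈ cop (Wd w) (b j) q).card = m := by exact_mod_cast e2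
      linarith
    rw [hcV] at n3'
    rw [← hcc] at n2'
    have hmP : 0 ≤ (m : ℝ) / Pw w := by positivity
    have u1 : (c : ℝ) ≤ (1 + 3 * δ) * (m / Pw w) := by
      refine n2'.trans ?_
      have : (1 + δ) * ρ * m = (1 + δ) ^ 2 * (m / Pw w) := by rw [hρ]; ring
      rw [this]
      apply mul_le_mul_of_nonneg_right _ hmP
      nlinarith
    have u2 : (1 - 3 * δ) * (m / Pw w) ≤ (c : ℝ) := by
      have e1 : (1 + δ / Pw w) * ρ' * m ≤ (ρ' + δ / Pw w) * m := by
        apply mul_le_mul_of_nonneg_right _ hm0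
        have : ρ' ≤ 1 := by
          rw [hρ']
          have : 0 ≤ (1 - δ) / Pw w := div_nonneg (by linarith) (by linarith)
          linarith
        have : 0 ≤ δ / Pw w := by positivity
        nlinarith
      have e2 : (ρ' + δ / Pw w) * m = m - (1 - 2 * δ) * (m / Pw w) := by rw [hρ']; field_simp; ring
      have e3 : (1 - 3 * δ) * (m / Pw w) ≤ (1 - 2 * δ) * (m / Pw w) := mul_le_mul_of_nonneg_right (by linarith) hmP
      linarith
    -- the count
    obtain ⟨M, hM⟩ : ∃ M : ℕ, M = ((Icc 1 N).filter fun n => |(hc s n : ℝ) - z * m / L| ≤ ε * L).card := ⟨_, rfl⟩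
    rw [← hM]
    obtain ⟨G, hG⟩ : ∃ G : ℝ, G = z * m / L * Real.log z + e₀ * L * |Real.log z| + (1 - z) * (m / L) +
      (Z * (3 * δ) + 2 * Z * ((3 + Z) * δ)) * (m / L) := ⟨_, rfl⟩
    have v1 : Xt z (z * m / L) (e₀ * L) w q b n R s ≤ M * Real.exp G := by
      unfold Xt
      have w1 : ∀ k ∈ range R, Wk z w q b (n k) s * (if |(hc s (n k) : ℝ) - z * m / L| ≤ e₀ * L then 1 else 0) ≤
          if n k ∈ (Icc 1 N).filter (fun n => |(hc s n : ℝ) - z * m / L| ≤ ε * L) then Real.exp G else 0 := by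
        intro k hk
        rw [mem_range] at hk
        by_cases h2 : |(hc s (n k) : ℝ) - z * m / L| ≤ e₀ * L
        · have h3 : n k ∈ (Icc 1 N).filter (fun n => |(hc s n : ℝ) - z * m / L| ≤ ε * L) := by
            rw [mem_filter, mem_Icc]
            refine ⟨a2 k hk, h2.trans (mul_le_mul_of_nonneg_right ?_ hL0.le)⟩
            linarith
          rw [if_pos h2, if_pos h3, mul_one, hG]
          exact Wk_le (fun j => a4 k hk j) z Z hz hzZ hZδ hL0 hδ0 s hsΩ' _ _ h2 (3 * δ) (by linarith) (by rw [← hcc]; exact u1)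
            (by rw [← hcc]; exact u2)
        · rw [if_neg h2, mul_zero]
          split_ifs
          · exact (Real.exp_pos _).le
          · exact le_rfl
      refine (sum_le_sum w1).trans ?_
      rw [← sum_filter, sum_const, nsmul_eq_mul]
      apply mul_le_mul_of_nonneg_right _ (Real.exp_pos _).le
      have h2 : ((range R).filter fun k => n k ∈ (Icc 1 N).filter (fun n => |(hc s n : ℝ) - z * m / L| ≤ ε * L)).card ≤ M := by
        rw [hM]
        apply card_le_card_of_injOn n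
        · intro k hk
          have hk' : k ∈ (range R).filter fun k => n k ∈ (Icc 1 N).filter (fun n => |(hc s n : ℝ) - z * m / L| ≤ ε * L) := by
            exact_mod_cast hk
          exact_mod_cast (mem_filter.1 hk').2
        · intro k _ k' _ hkk
          exact a3 k k' hkk
      exact_mod_cast h2
    have v2 : G ≤ m / L ^ 2 * ent z * L + ε / 2 * L := by
      have e1 : G = m / L ^ 2 * ent z * L + (e₀ * |Real.log z| * L + (3 * (Z * δ) + 2 * (Z * ((3 + Z) * δ))) * (m / L)) := by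
        rw [hG]
        unfold ent
        field_simp
        ring
      rw [e1]
      have e2 : e₀ * |Real.log z| * L ≤ e₀ * Z * L := mul_le_mul_of_nonneg_right (mul_le_mul_of_nonneg_left hlz he0.le) hL0.le
      have e3 : (m : ℝ) / L ≤ Λ * L := by
        rw [div_le_iff₀ hL0]
        linarith
      have e4 : (3 * (Z * δ) + 2 * (Z * ((3 + Z) * δ))) * (m / L) ≤ (3 * (Z * ((3 + Z) * δ))) * (Λ * L) := by
        have : 0 ≤ Z * Z * δ := by positivity
        exact mul_le_mul (by nlinarith) e3 (by positivity) (by positivity)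
      have e5 : (3 * (Z * ((3 + Z) * δ))) * (Λ * L) = 3 * (Z * ((3 + Z) * δ) * Λ) * L := by ring
      have e6 : 3 * (Z * ((3 + Z) * δ) * Λ) * L ≤ 3 * (e₀ / 4) * L := mul_le_mul_of_nonneg_right (by linarith) hL0.le
      have e7 : e₀ * L ≤ ε / 8 * L := mul_le_mul_of_nonneg_right heε hL0.le
      rw [heZ] at e2
      have : 0 ≤ ε * L := by positivity
      linarith
    have v3 := Real.exp_le_exp.2 v2
    have v4 : (N : ℝ) / (16 * Wd w) ≤ M * Real.exp (m / L ^ 2 * ent z * L + ε / 2 * L) := by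
      have e1 := mul_le_mul_of_nonneg_left v3 (Nat.cast_nonneg (α := ℝ) M)
      have e2 : (N : ℝ) / (16 * Wd w) = (N / (8 * Wd w)) / 2 := by field_simp; norm_num
      linarith
    rw [Real.rpow_def_of_pos hN0, ← hL]
    rw [div_le_iff₀ (by positivity)] at g3
    have f6 : L * (1 - m / L ^ 2 * ent z - ε) ≤ L - Real.log (16 * Wd w) - (m / L ^ 2 * ent z * L + ε / 2 * L) := by linarith
    refine (Real.exp_le_exp.2 f6).trans ?_
    rw [Real.exp_sub, Real.exp_sub, Real.exp_log (by positivity), ← hNL, div_le_iff₀ (Real.exp_pos _)]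
    exact v4
  have c5 := (card_le_card c4).trans ((card_union_le B1 (B2 ∪ B3)).trans (Nat.add_le_add_left (card_union_le B2 B3) _))
  have c6 : (((Ω.filter fun s => (((Icc 1 N).filter fun n => |(hc s n : ℝ) - z * m / L| ≤ ε * L).card : ℝ) <
      (N : ℝ) ^ (1 - m / L ^ 2 * ent z - ε))).card : ℝ) ≤ B1.card + (B2.card + B3.card) := by exact_mod_cast c5
  refine c6.trans ?_
  have : 0 ≤ ε / 4 * (q : ℝ) ^ m := by positivity
  linarith

end Pool.Agent.Run7.h931.EX
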