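import Pool.Agent.Run7.h931.EX.Ext

/-!
# The number of primes in perturbed intervals, part 9: all levels at the same time
-/

set_option autoImplicit false

namespace Pool.Agent.Run7.h931.EX

open Finset Filter
open Pool.Agent.Run7.h931.RS (ev_log)

/-- the number of the `n ≤ N` with at least `z m / log N` primes -/
noncomputable def Hi {m : ℕ} (N : ℕ) (s : Fin m → ℕ) (z : ℝ) : ℕ := ((Icc 1 N).filter fun n => z * m / Real.log N ≤ hc s n).card

/-- the number of the `n ≤ N` with at most `z m / log N` primes -/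
noncomputable def Lo {m : ℕ} (N : ℕ) (s : Fin m → ℕ) (z : ℝ) : ℕ := ((Icc 1 N).filter fun n => (hc s n : ℝ) ≤ z * m / Real.log N).card

/-- the expected behaviour at the level `z` -/
def Lev {m : ℕ} (ε : ℝ) (N : ℕ) (s : Fin m → ℕ) (z : ℝ) : Prop :=
  (1 ≤ z → (m / Real.log N ^ 2 * ent z ≤ 1 - ε → (N : ℝ) ^ (1 - m / Real.log N ^ 2 * ent z - ε) ≤ Hi N s z) ∧
    (Hi N s z : ℝ) ≤ (N : ℝ) ^ (1 - m / Real.log N ^ 2 * ent z + ε)) ∧
  (z ≤ 1 → (m / Real.log N ^ 2 * ent z ≤ 1 - ε → (N : ℝ) ^ (1 - m / Real.log N ^ 2 * ent z - ε) ≤ Lo N s z) ∧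
    (Lo N s z : ℝ) ≤ (N : ℝ) ^ (1 - m / Real.log N ^ 2 * ent z + ε))

theorem one_pt (T a : ℕ) (Λ Z ε : ℝ) (hΛ : 1 ≤ Λ) (hZ : 1 ≤ Z) (hε : 0 < ε) (hε1 : ε ≤ 1) : ∀ᶠ N : ℕ in atTop, ∀ (q m : ℕ)
    (b : Fin m → ℕ), Adm T a Λ N q m b → ∀ z : ℝ, 1 / Z ≤ z → z ≤ Z →
      (open Classical in (((Fintype.piFinset fun j => Ioc (b j) (b j + q)).filter fun s => ¬ Lev ε N s z).card : ℝ)) ≤
        4 * ε * (q : ℝ) ^ m := by
  classical
  filter_upwards [many_hi T a Λ Z ε hΛ hZ hε hε1, many_lo T a Λ Z ε hΛ hZ hε hε1, few T a Λ Z ε hΛ hZ hε hε1] with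
    N g1 g2 g3 q m b hA z hz1 hz2
  obtain ⟨hz, hzZ, _⟩ := abs_log_le hZ hz1 hz2
  have k1 := g1 q m b hA z
  have k2 := g2 q m b hA z hz1
  have k3 := g3 q m b hA z hz hzZ
  obtain ⟨Ω, hΩ⟩ : ∃ Ω, Ω = Fintype.piFinset fun j => Ioc (b j) (b j + q) := ⟨_, rfl⟩
  rw [← hΩ] at k1 k2 k3 ⊢
  obtain ⟨ρ, hρ⟩ : ∃ ρ, ρ = (m : ℝ) / Real.log N ^ 2 * ent z := ⟨_, rfl⟩
  rw [← hρ] at k1 k2 k3
  have hqm : 0 ≤ ε * (q : ℝ) ^ m := by positivity
  obtain ⟨A1, hA1⟩ : ∃ A1, A1 = Ω.filter fun s => 1 ≤ z ∧ ρ ≤ 1 - ε ∧ (Hi N s z : ℝ) < (N : ℝ) ^ (1 - ρ - ε) := ⟨_, rfl⟩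
  obtain ⟨A2, hA2⟩ : ∃ A2, A2 = Ω.filter fun s => 1 ≤ z ∧ (N : ℝ) ^ (1 - ρ + ε) < Hi N s z := ⟨_, rfl⟩
  obtain ⟨A3, hA3⟩ : ∃ A3, A3 = Ω.filter fun s => z ≤ 1 ∧ ρ ≤ 1 - ε ∧ (Lo N s z : ℝ) < (N : ℝ) ^ (1 - ρ - ε) := ⟨_, rfl⟩
  obtain ⟨A4, hA4⟩ : ∃ A4, A4 = Ω.filter fun s => z ≤ 1 ∧ (N : ℝ) ^ (1 - ρ + ε) < Lo N s z := ⟨_, rfl⟩
  have c1 : (A1.card : ℝ) ≤ ε * (q : ℝ) ^ m := by
    by_cases h : 1 ≤ z ∧ ρ ≤ 1 - ε
    · refine le_trans ?_ (k1 h.1 hz2 h.2)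
      have : A1 ⊆ Ω.filter fun s => (((Icc 1 N).filter fun n => z * m / Real.log N ≤ hc s n).card : ℝ) < (N : ℝ) ^ (1 - ρ - ε) := by
        rw [hA1]
        intro s hs
        rw [mem_filter] at hs ⊢
        exact ⟨hs.1, hs.2.2.2⟩
      exact_mod_cast card_le_card this
    · have : A1 = ∅ := by
        rw [hA1, filter_eq_empty_iff]
        intro s _ hs
        exact h ⟨hs.1, hs.2.1⟩
      rw [this, card_empty, Nat.cast_zero]
      exact hqm
  have c3 : (A3.card : ℝ) ≤ ε * (q : ℝ) ^ m := by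
    by_cases h : z ≤ 1 ∧ ρ ≤ 1 - ε
    · refine le_trans ?_ (k2 h.1 h.2)
      have : A3 ⊆ Ω.filter fun s => (((Icc 1 N).filter fun n => (hc s n : ℝ) ≤ z * m / Real.log N).card : ℝ) <
          (N : ℝ) ^ (1 - ρ - ε) := by
        rw [hA3]
        intro s hs
        rw [mem_filter] at hs ⊢
        exact ⟨hs.1, hs.2.2.2⟩
      exact_mod_cast card_le_card this
    · have : A3 = ∅ := by
        rw [hA3, filter_eq_empty_iff]
        intro s _ hs
        exact h ⟨hs.1, hs.2.1⟩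
      rw [this, card_empty, Nat.cast_zero]
      exact hqm
  have c2 : (A2.card : ℝ) ≤ ε * (q : ℝ) ^ m := by
    refine le_trans ?_ k3
    have : A2 ⊆ Ω.filter fun s => (N : ℝ) ^ (1 - ρ + ε) < (((Icc 1 N).filter fun n =>
        z * m / Real.log N * Real.log z ≤ hc s n * Real.log z).card : ℝ) := by
      rw [hA2]
      intro s hs
      rw [mem_filter] at hs ⊢
      refine ⟨hs.1, hs.2.2.trans_le ?_⟩
      have h1 : ((Icc 1 N).filter fun n => z * m / Real.log N ≤ hc s n) ⊆ (Icc 1 N).filter fun n =>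
          z * m / Real.log N * Real.log z ≤ hc s n * Real.log z := by
        intro n hn
        rw [mem_filter] at hn ⊢
        exact ⟨hn.1, mul_le_mul_of_nonneg_right hn.2 (Real.log_nonneg hs.2.1)⟩
      exact_mod_cast card_le_card h1
    exact_mod_cast card_le_card this
  have c4 : (A4.card : ℝ) ≤ ε * (q : ℝ) ^ m := by
    refine le_trans ?_ k3
    have : A4 ⊆ Ω.filter fun s => (N : ℝ) ^ (1 - ρ + ε) < (((Icc 1 N).filter fun n =>
        z * m / Real.log N * Real.log z ≤ hc s n * Real.log z).card : ℝ) := by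
      rw [hA4]
      intro s hs
      rw [mem_filter] at hs ⊢
      refine ⟨hs.1, hs.2.2.trans_le ?_⟩
      have h1 : ((Icc 1 N).filter fun n => (hc s n : ℝ) ≤ z * m / Real.log N) ⊆ (Icc 1 N).filter fun n =>
          z * m / Real.log N * Real.log z ≤ hc s n * Real.log z := by
        intro n hn
        rw [mem_filter] at hn ⊢
        exact ⟨hn.1, mul_le_mul_of_nonpos_right hn.2 (Real.log_nonpos hz.le hs.2.1)⟩
      exact_mod_cast card_le_card h1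
    exact_mod_cast card_le_card this
  have c5 : (Ω.filter fun s => ¬ Lev ε N s z) ⊆ (A1 ∪ A2) ∪ (A3 ∪ A4) := by
    intro s hs
    rw [mem_filter] at hs
    by_contra hnot
    simp only [mem_union, not_or, hA1, hA2, hA3, hA4, mem_filter, not_and, not_lt] at hnot
    obtain ⟨⟨n1, n2⟩, n3, n4⟩ := hnot
    apply hs.2
    unfold Lev
    rw [← hρ]
    exact ⟨fun h => ⟨fun h' => n1 hs.1 h h', n2 hs.1 h⟩, fun h => ⟨fun h' => n3 hs.1 h h', n4 hs.1 h⟩⟩
  have c6 : ((Ω.filter fun s => ¬ Lev ε N s z).card : ℝ) ≤ (A1.card + A2.card) + (A3.card + A4.card) := by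
    exact_mod_cast (card_le_card c5).trans ((card_union_le _ _).trans (Nat.add_le_add (card_union_le _ _) (card_union_le _ _)))
  linarith

/-- finitely many levels -/
theorem grid (T a : ℕ) (Λ Z ε ε' : ℝ) (hΛ : 1 ≤ Λ) (hZ : 1 ≤ Z) (hε : 0 < ε) (hε' : 0 < ε') (hε'1 : ε' ≤ 1) (P : Finset ℝ)
    (hP : ∀ p ∈ P, 1 / Z ≤ p ∧ p ≤ Z) : ∀ᶠ N : ℕ in atTop, ∀ (q m : ℕ) (b : Fin m → ℕ), Adm T a Λ N q m b →
      (open Classical in (((Fintype.piFinset fun j => Ioc (b j) (b j + q)).filter fun s => ¬ ∀ p ∈ P, Lev ε' N s p).card : ℝ)) ≤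
        ε * (q : ℝ) ^ m := by
  classical
  obtain ⟨e, he⟩ : ∃ e, e = min ε' (ε / (4 * (P.card + 1))) := ⟨_, rfl⟩
  have he0 : 0 < e := by rw [he]; exact lt_min hε' (by positivity)
  have he1 : e ≤ ε' := by rw [he]; exact min_le_left _ _
  have he2 : 4 * (P.card + 1) * e ≤ ε := by
    have : e ≤ ε / (4 * (P.card + 1)) := by rw [he]; exact min_le_right _ _
    rw [le_div_iff₀ (by positivity)] at this
    linarith
  filter_upwards [one_pt T a Λ Z e hΛ hZ he0 (he1.trans hε'1), eventually_ge_atTop 3] with N g1 g2 q m b hA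
  have hN1 : (1 : ℝ) ≤ N := by exact_mod_cast (by omega : 1 ≤ N)
  have k1 := g1 q m b hA
  obtain ⟨Ω, hΩ⟩ : ∃ Ω, Ω = Fintype.piFinset fun j => Ioc (b j) (b j + q) := ⟨_, rfl⟩
  rw [← hΩ] at k1 ⊢
  have c1 : (Ω.filter fun s => ¬ ∀ p ∈ P, Lev ε' N s p) ⊆ P.biUnion fun p => Ω.filter fun s => ¬ Lev e N s p := by
    intro s hs
    rw [mem_filter] at hs
    obtain ⟨hsΩ, hs⟩ := hs
    push Not at hs
    obtain ⟨p, hp, hps⟩ := hs
    rw [mem_biUnion]
    refine ⟨p, hp, ?_⟩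
    rw [mem_filter]
    refine ⟨hsΩ, fun h => hps ?_⟩
    obtain ⟨h1, h2⟩ := h
    unfold Lev
    obtain ⟨ρ, hρ⟩ : ∃ ρ, ρ = (m : ℝ) / Real.log N ^ 2 * ent p := ⟨_, rfl⟩
    rw [← hρ] at h1 h2 ⊢
    have e1 : (N : ℝ) ^ (1 - ρ - ε') ≤ (N : ℝ) ^ (1 - ρ - e) := Real.rpow_le_rpow_of_exponent_le hN1 (by linarith)
    have e2 : (N : ℝ) ^ (1 - ρ + e) ≤ (N : ℝ) ^ (1 - ρ + ε') := Real.rpow_le_rpow_of_exponent_le hN1 (by linarith)
    exact ⟨fun h => ⟨fun h' => e1.trans ((h1 h).1 (by linarith)), (h1 h).2.trans e2⟩,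
      fun h => ⟨fun h' => e1.trans ((h2 h).1 (by linarith)), (h2 h).2.trans e2⟩⟩
  have c2 : ((Ω.filter fun s => ¬ ∀ p ∈ P, Lev ε' N s p).card : ℝ) ≤ ∑ p ∈ P, ((Ω.filter fun s => ¬ Lev e N s p).card : ℝ) := by
    exact_mod_cast (card_le_card c1).trans card_biUnion_le
  refine c2.trans ((sum_le_sum fun p hp => k1 p (hP p hp).1 (hP p hp).2).trans ?_)
  rw [sum_const, nsmul_eq_mul]
  have : 0 ≤ (q : ℝ) ^ m := by positivity
  have h1 : (P.card : ℝ) * (4 * e) ≤ ε := by linarith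
  calc (P.card : ℝ) * (4 * e * (q : ℝ) ^ m) = (P.card : ℝ) * (4 * e) * (q : ℝ) ^ m := by ring
    _ ≤ _ := mul_le_mul_of_nonneg_right h1 this

/-- all levels at the same time -/
theorem prof (T a : ℕ) (Λ ε : ℝ) (hΛ : 1 ≤ Λ) (hε : 0 < ε) (hε1 : ε ≤ 1) : ∀ᶠ N : ℕ in atTop, ∀ (q m : ℕ)
    (b : Fin m → ℕ), Adm T a Λ N q m b →
      (open Classical in (((Fintype.piFinset fun j => Ioc (b j) (b j + q)).filter fun s =>
        ¬ ∀ z : ℝ, 1 / Λ ≤ z → z ≤ Λ → Lev ε N s z).card : ℝ)) ≤ ε * (q : ℝ) ^ m := by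
  classical
  obtain ⟨γ, hγ⟩ : ∃ γ, γ = ε / (4 * Λ * (2 + 2 * Λ)) := ⟨_, rfl⟩
  have hγ0 : 0 < γ := by rw [hγ]; positivity
  have hγΛ : Λ * (γ * (2 + 2 * Λ)) = ε / 4 := by rw [hγ]; field_simp
  have hγ1 : γ ≤ 1 := by
    rw [hγ, div_le_one (by positivity)]
    nlinarith
  obtain ⟨G, hG⟩ : ∃ G : ℕ, G = ⌈Λ / γ⌉₊ := ⟨_, rfl⟩
  have hG1 : Λ / γ ≤ G := by rw [hG]; exact Nat.le_ceil _
  have hG2 : (G : ℝ) * γ ≤ Λ + 1 := by
    have : (G : ℝ) < Λ / γ + 1 := by rw [hG]; exact Nat.ceil_lt_add_one (by positivity)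
    have h1 : (G : ℝ) * γ ≤ (Λ / γ + 1) * γ := mul_le_mul_of_nonneg_right this.le hγ0.le
    have h2 : (Λ / γ + 1) * γ = Λ + γ := by field_simp
    linarith
  obtain ⟨P, hP⟩ : ∃ P : Finset ℝ, P = (range (G + 1)).image (fun i : ℕ => 1 + i * γ) ∪
      (range (G + 1)).image (fun i : ℕ => min 1 (1 / (2 * Λ) + i * γ)) := ⟨_, rfl⟩
  have hiG : ∀ i : ℕ, i < G + 1 → (i : ℝ) * γ ≤ Λ + 1 := by
    intro i hi
    have : (i : ℝ) ≤ G := by exact_mod_cast Nat.lt_succ_iff.1 hi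
    exact (mul_le_mul_of_nonneg_right this hγ0.le).trans hG2
  have hPb : ∀ p ∈ P, 1 / (2 + 2 * Λ) ≤ p ∧ p ≤ 2 + 2 * Λ := by
    intro p hp
    rw [hP, mem_union, mem_image, mem_image] at hp
    have h0 : 1 / (2 + 2 * Λ) ≤ 1 := by rw [div_le_one (by linarith)]; linarith
    rcases hp with ⟨i, hi, rfl⟩ | ⟨i, hi, rfl⟩
    · have h1 := hiG i (mem_range.1 hi)
      have h2 : 0 ≤ (i : ℝ) * γ := by positivity
      exact ⟨by linarith, by linarith⟩
    · have h2 : 0 ≤ (i : ℝ) * γ := by positivity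
      have h3 : 1 / (2 + 2 * Λ) ≤ 1 / (2 * Λ) := div_le_div_of_nonneg_left (by norm_num) (by linarith) (by linarith)
      refine ⟨le_min h0 (by linarith), (min_le_left _ _).trans (by linarith)⟩
  filter_upwards [grid T a Λ (2 + 2 * Λ) ε (ε / 2) hΛ (by linarith) hε (by positivity) (by linarith) P hPb, eventually_ge_atTop 3,
    ev_log 1] with N g1 g2 g3 q m b hA
  refine le_trans ?_ (g1 q m b hA)
  obtain ⟨hq, hqN, hb, hm1, hm2⟩ := hA
  obtain ⟨Ω, hΩ⟩ : ∃ Ω, Ω = Fintype.piFinset fun j => Ioc (b j) (b j + q) := ⟨_, rfl⟩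
  rw [← hΩ]
  have hN1 : (1 : ℝ) ≤ N := by exact_mod_cast (by omega : 1 ≤ N)
  obtain ⟨L, hL⟩ : ∃ L, L = Real.log (N : ℝ) := ⟨_, rfl⟩
  have hL0 : 0 < L := by rw [hL]; linarith
  obtain ⟨lam, hlam⟩ : ∃ lam, lam = (m : ℝ) / L ^ 2 := ⟨_, rfl⟩
  have hlam0 : 0 ≤ lam := by rw [hlam]; positivity
  have hlam2 : lam ≤ Λ := by
    rw [hlam, div_le_iff₀ (by positivity), hL]
    exact hm2
  have key : ∀ s ∈ Ω, (∀ p ∈ P, Lev (ε / 2) N s p) → ∀ z : ℝ, 1 / Λ ≤ z → z ≤ Λ → Lev ε N s z := by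
    intro s _ hs z hz1 hz2
    have hz0 : 0 < z := lt_of_lt_of_le (by positivity) hz1
    obtain ⟨_, _, hlz⟩ := abs_log_le hΛ hz1 hz2
    have hHi : ∀ u v : ℝ, u ≤ v → (Hi N s v : ℝ) ≤ Hi N s u := by
      intro u v huv
      unfold Hi
      have : ((Icc 1 N).filter fun n => v * m / Real.log N ≤ hc s n) ⊆ (Icc 1 N).filter fun n => u * m / Real.log N ≤ hc s n := by
        intro n hn
        rw [mem_filter] at hn ⊢
        refine ⟨hn.1, le_trans ?_ hn.2⟩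
        apply div_le_div_of_nonneg_right _ (by linarith)
        exact mul_le_mul_of_nonneg_right huv (Nat.cast_nonneg _)
      exact_mod_cast card_le_card this
    have hLo : ∀ u v : ℝ, u ≤ v → (Lo N s u : ℝ) ≤ Lo N s v := by
      intro u v huv
      unfold Lo
      have : ((Icc 1 N).filter fun n => (hc s n : ℝ) ≤ u * m / Real.log N) ⊆
          (Icc 1 N).filter fun n => (hc s n : ℝ) ≤ v * m / Real.log N := by
        intro n hn
        rw [mem_filter] at hn ⊢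
        refine ⟨hn.1, hn.2.trans ?_⟩
        apply div_le_div_of_nonneg_right _ (by linarith)
        exact mul_le_mul_of_nonneg_right huv (Nat.cast_nonneg _)
      exact_mod_cast card_le_card this
    -- comparison of the rates
    have hcmp : ∀ u v : ℝ, 0 < u → 0 < v → |u - v| ≤ γ → |Real.log v| ≤ 2 + 2 * Λ → lam * ent v ≤ lam * ent u + ε / 4 := by
      intro u v hu hv huv hlv
      have e1 := ent_conv u v hu.le hv
      have e2 : (v - u) * Real.log v ≤ γ * (2 + 2 * Λ) := by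
        calc (v - u) * Real.log v ≤ |(v - u) * Real.log v| := le_abs_self _
          _ = |u - v| * |Real.log v| := by rw [abs_mul, abs_sub_comm]
          _ ≤ _ := mul_le_mul huv hlv (abs_nonneg _) hγ0.le
      have e3 : ent v ≤ ent u + γ * (2 + 2 * Λ) := by linarith
      have e4 := mul_le_mul_of_nonneg_left e3 hlam0
      have e5 : lam * (γ * (2 + 2 * Λ)) ≤ Λ * (γ * (2 + 2 * Λ)) := mul_le_mul_of_nonneg_right hlam2 (by positivity)
      linarith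
    have hlogP : ∀ p ∈ P, 0 < p ∧ |Real.log p| ≤ 2 + 2 * Λ := by
      intro p hp
      obtain ⟨h1, _, h3⟩ := abs_log_le (by linarith : 1 ≤ 2 + 2 * Λ) (hPb p hp).1 (hPb p hp).2
      exact ⟨h1, h3⟩
    have hr : ∀ x y : ℝ, x ≤ y → (N : ℝ) ^ x ≤ (N : ℝ) ^ y := fun x y h => Real.rpow_le_rpow_of_exponent_le hN1 h
    constructor
    · intro hz
      obtain ⟨i, hi⟩ : ∃ i : ℕ, i = ⌊(z - 1) / γ⌋₊ := ⟨_, rfl⟩
      have i1 : (i : ℝ) ≤ (z - 1) / γ := by rw [hi]; exact Nat.floor_le (div_nonneg (by linarith) hγ0.le)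
      have i2 : (z - 1) / γ < i + 1 := by rw [hi]; exact Nat.lt_floor_add_one _
      rw [le_div_iff₀ hγ0] at i1
      rw [div_lt_iff₀ hγ0] at i2
      have i3 : i < G := by
        have h1 : (i : ℝ) < G := by
          refine lt_of_lt_of_le ?_ hG1
          rw [lt_div_iff₀ hγ0]
          linarith
        exact_mod_cast h1
      have p1 : 1 + (i : ℝ) * γ ∈ P := by
        rw [hP, mem_union, mem_image]
        exact Or.inl ⟨i, mem_range.2 (by omega), rfl⟩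
      have p2 : 1 + ((i + 1 : ℕ) : ℝ) * γ ∈ P := by
        rw [hP, mem_union, mem_image]
        exact Or.inl ⟨i + 1, mem_range.2 (by omega), rfl⟩
      obtain ⟨u, hu⟩ : ∃ u, u = 1 + (i : ℝ) * γ := ⟨_, rfl⟩
      obtain ⟨v, hv⟩ : ∃ v, v = 1 + ((i + 1 : ℕ) : ℝ) * γ := ⟨_, rfl⟩
      rw [← hu] at p1
      rw [← hv] at p2
      push_cast at hv
      have hi0 : 0 ≤ (i : ℝ) * γ := by positivity
      have u1 : u ≤ z := by linarith
      have v1 : z ≤ v := by linarith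
      have uv : v - u = γ := by rw [hu, hv]; ring
      obtain ⟨hu0, _⟩ := hlogP u p1
      obtain ⟨hv0, hlv⟩ := hlogP v p2
      obtain ⟨a1, a2⟩ := (hs u p1).1 (by linarith)
      obtain ⟨b1, b2⟩ := (hs v p2).1 (by linarith)
      rw [← hL, ← hlam] at a1 a2 b1 b2 ⊢
      have q1 := hcmp z v hz0 hv0 (by rw [abs_le]; constructor <;> linarith) hlv
      have q2 := hcmp u z hu0 hz0 (by rw [abs_le]; constructor <;> linarith) (hlz.trans (by linarith))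
      refine ⟨fun h => ?_, ?_⟩
      · exact (hr _ _ (by linarith)).trans ((b1 (by linarith)).trans (hHi z v v1))
      · exact (hHi u z u1).trans (a2.trans (hr _ _ (by linarith)))
    · intro hz
      have hz1' : 1 / (2 * Λ) ≤ z := by
        refine le_trans ?_ hz1
        exact div_le_div_of_nonneg_left (by norm_num) (by linarith) (by linarith)
      obtain ⟨i, hi⟩ : ∃ i : ℕ, i = ⌊(z - 1 / (2 * Λ)) / γ⌋₊ := ⟨_, rfl⟩
      have i1 : (i : ℝ) ≤ (z - 1 / (2 * Λ)) / γ := by rw [hi]; exact Nat.floor_le (div_nonneg (by linarith) hγ0.le)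
      have i2 : (z - 1 / (2 * Λ)) / γ < i + 1 := by rw [hi]; exact Nat.lt_floor_add_one _
      rw [le_div_iff₀ hγ0] at i1
      rw [div_lt_iff₀ hγ0] at i2
      have hΛ0 : 0 < 1 / (2 * Λ) := by positivity
      have i3 : i < G := by
        have h1 : (i : ℝ) < G := by
          refine lt_of_lt_of_le ?_ hG1
          rw [lt_div_iff₀ hγ0]
          linarith
        exact_mod_cast h1
      have p1 : min 1 (1 / (2 * Λ) + (i : ℝ) * γ) ∈ P := by
        rw [hP, mem_union, mem_image, mem_image]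
        exact Or.inr ⟨i, mem_range.2 (by omega), rfl⟩
      have p2 : min 1 (1 / (2 * Λ) + ((i + 1 : ℕ) : ℝ) * γ) ∈ P := by
        rw [hP, mem_union, mem_image, mem_image]
        exact Or.inr ⟨i + 1, mem_range.2 (by omega), rfl⟩
      obtain ⟨u, hu⟩ : ∃ u, u = min 1 (1 / (2 * Λ) + (i : ℝ) * γ) := ⟨_, rfl⟩
      obtain ⟨v, hv⟩ : ∃ v, v = min 1 (1 / (2 * Λ) + ((i + 1 : ℕ) : ℝ) * γ) := ⟨_, rfl⟩
      rw [← hu] at p1
      rw [← hv] at p2
      push_cast at hv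
      have hu' : u = 1 / (2 * Λ) + (i : ℝ) * γ := by rw [hu]; exact min_eq_right (by linarith)
      have u1 : u ≤ z := by linarith
      have v1 : z ≤ v := by rw [hv]; exact le_min hz (by linarith)
      have v2 : v ≤ 1 := by rw [hv]; exact min_le_left _ _
      have v3 : v ≤ 1 / (2 * Λ) + ((i : ℝ) + 1) * γ := by rw [hv]; exact min_le_right _ _
      obtain ⟨hu0, hlu⟩ := hlogP u p1
      obtain ⟨hv0, hlv⟩ := hlogP v p2
      obtain ⟨a1, a2⟩ := (hs u p1).2 (by linarith)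
      obtain ⟨b1, b2⟩ := (hs v p2).2 v2
      rw [← hL, ← hlam] at a1 a2 b1 b2 ⊢
      have q1 := hcmp z u hz0 hu0 (by rw [abs_le]; constructor <;> linarith) hlu
      have q2 := hcmp v z hv0 hz0 (by rw [abs_le]; constructor <;> linarith) (hlz.trans (by linarith))
      refine ⟨fun h => ?_, ?_⟩
      · exact (hr _ _ (by linarith)).trans ((a1 (by linarith)).trans (hLo u z u1))
      · exact (hLo z v v1).trans (b2.trans (hr _ _ (by linarith)))
  have : (Ω.filter fun s => ¬ ∀ z : ℝ, 1 / Λ ≤ z → z ≤ Λ → Lev ε N s z) ⊆ Ω.filter fun s => ¬ ∀ p ∈ P, Lev (ε / 2) N s p := by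
    intro s hs
    rw [mem_filter] at hs ⊢
    exact ⟨hs.1, fun h => hs.2 (key s hs.1 h)⟩
  exact_mod_cast card_le_card this

end Pool.Agent.Run7.h931.EX
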