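import Pool.Agent.Run7.h931.RS.OneTwo

/-!
# The number of primes in perturbed intervals, part 3: exponential moments for every `n ≤ N`
-/

set_option autoImplicit false

namespace Pool.Agent.Run7.h931.EX

open Finset Filter
open Pool.Agent.Run7.h931.RS (hit hit_card Dc th th_win pnt_lo ev_log)

/-- the number of the primes among the `n + s j` -/
def hc {m : ℕ} (s : Fin m → ℕ) (n : ℕ) : ℕ := (univ.filter fun j => (n + s j).Prime).card

lemma pow_hc {m : ℕ} (s : Fin m → ℕ) (n : ℕ) (y : ℝ) : y ^ hc s n = ∏ j, (if (n + s j).Prime then y else 1) := by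
  rw [prod_ite, prod_const, prod_const_one, mul_one]
  rfl

lemma Dc_split (x q y : ℕ) (hy : 1 ≤ y) : (Dc x q : ℝ) * Real.log y ≤ y * Real.log y + th x q := by
  classical
  have hly : 0 ≤ Real.log (y : ℝ) := Real.log_natCast_nonneg y
  have h1 : ∀ p ∈ (Ioc x (x + q)).filter Nat.Prime, Real.log y ≤ (if p ∈ Icc 1 y then Real.log y else 0) + Real.log p := by
    intro p hp
    rw [mem_filter, mem_Ioc] at hp
    by_cases h : p ∈ Icc 1 y
    · rw [if_pos h]
      have : 0 ≤ Real.log (p : ℝ) := Real.log_natCast_nonneg p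
      linarith
    · rw [if_neg h, zero_add]
      rw [mem_Icc, not_and, not_le] at h
      have := h hp.2.one_lt.le
      apply Real.log_le_log (by exact_mod_cast hy)
      exact_mod_cast this.le
  have h2 : (Dc x q : ℝ) * Real.log y = ∑ p ∈ (Ioc x (x + q)).filter Nat.Prime, Real.log y := by
    rw [sum_const, nsmul_eq_mul]
    rfl
  rw [h2]
  refine (sum_le_sum h1).trans ?_
  rw [sum_add_distrib]
  apply add_le_add _ le_rfl
  rw [← sum_filter, sum_const, nsmul_eq_mul]
  apply mul_le_mul_of_nonneg_right _ hly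
  have h3 : (((Ioc x (x + q)).filter Nat.Prime).filter fun p => p ∈ Icc 1 y).card ≤ (Icc 1 y).card :=
    card_le_card fun p hp => (mem_filter.1 hp).2
  rw [Nat.card_Icc, Nat.add_sub_cancel] at h3
  exact_mod_cast h3

/-- an upper bound for the number of the primes in every window -/
theorem pnt_up (T a : ℕ) (δ : ℝ) (hδ : 0 < δ) (hδ1 : δ ≤ 1) : ∀ᶠ N : ℕ in atTop, ∀ x q : ℕ, x ≤ (T + 1) * N →
    (N : ℝ) ≤ q * Real.log N ^ a → q ≤ N → (Dc x q : ℝ) ≤ (1 + δ) * (q / Real.log N) := by
  have h2 := Pool.Agent.Run7.h931.RS.ev_log (8 / δ)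
  have hll : ∀ᶠ N : ℕ in atTop, (a + 3) * Real.log (Real.log (N : ℝ)) ≤ δ / 8 * Real.log N := by
    have h := (Real.isLittleO_log_id_atTop.comp_tendsto (Real.tendsto_log_atTop.comp tendsto_natCast_atTop_atTop)).bound
      (c := δ / (8 * (a + 3))) (by positivity)
    filter_upwards [h, ev_log 1] with N hN hN1
    simp only [Function.comp, id] at hN
    rw [Real.norm_of_nonneg (Real.log_nonneg hN1), Real.norm_of_nonneg (by linarith)] at hN
    have h3 : (0 : ℝ) < a + 3 := by positivity
    calc (a + 3) * Real.log (Real.log (N : ℝ)) ≤ (a + 3) * (δ / (8 * (a + 3)) * Real.log N) := mul_le_mul_of_nonneg_left hN h3.le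
      _ = _ := by field_simp
  filter_upwards [th_win T (a + 1), h2, hll, ev_log (2 * Real.exp 1), eventually_ge_atTop 3] with N g1 g2 g3 g4 g5 x q hx hq hqN
  have b1 := g1 x q hx hqN
  obtain ⟨L, hL⟩ : ∃ L, L = Real.log (N : ℝ) := ⟨_, rfl⟩
  rw [← hL] at g2 g3 g4 b1 hq ⊢
  have he : 2 ≤ Real.exp 1 := by linarith [Real.add_one_le_exp (1 : ℝ)]
  have hL4 : 4 ≤ L := by linarith
  have hL0 : 0 < L := by linarith
  have hN0 : (0 : ℝ) < N := by exact_mod_cast (by omega : 0 < N)
  have hNL : (N : ℝ) = Real.exp L := by rw [hL, Real.exp_log hN0]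
  have hqr : (N : ℝ) / L ^ a ≤ q := by rwa [div_le_iff₀ (by positivity)]
  have hq0 : (0 : ℝ) < q := lt_of_lt_of_le (by positivity) hqr
  obtain ⟨y, hy⟩ : ∃ y : ℕ, y = ⌊(q : ℝ) / L ^ 2⌋₊ := ⟨_, rfl⟩
  have hll0 : 0 ≤ Real.log L := Real.log_nonneg (by linarith)
  -- `y` is large
  have c1 : Real.exp (L - (a + 2) * Real.log L) ≤ (q : ℝ) / L ^ 2 := by
    rw [Real.exp_sub, ← hNL, add_mul, Real.exp_add]
    have e1 : Real.exp (a * Real.log L) = L ^ a := by rw [Real.exp_nat_mul, Real.exp_log hL0]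
    have e2 : Real.exp (2 * Real.log L) = L ^ 2 := by
      have := Real.exp_nat_mul (Real.log L) 2
      rw [Real.exp_log hL0] at this
      exact_mod_cast this
    rw [e1, e2, ← div_div]
    exact div_le_div_of_nonneg_right hqr (by positivity)
  have c2 : (a + 3) * Real.log L ≤ L / 8 := by nlinarith
  have c3 : (2 : ℝ) ≤ (q : ℝ) / L ^ 2 := by
    refine le_trans ?_ c1
    have : (1 : ℝ) ≤ L - (a + 2) * Real.log L := by nlinarith
    exact he.trans (Real.exp_le_exp.2 this)
  have c4 : (q : ℝ) / L ^ 2 / 2 ≤ y := by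
    have : (q : ℝ) / L ^ 2 < y + 1 := by rw [hy]; exact Nat.lt_floor_add_one _
    linarith
  have c5 : (y : ℝ) ≤ q / L ^ 2 := by rw [hy]; exact Nat.floor_le (by positivity)
  have hy1 : 1 ≤ y := by
    have : (1 : ℝ) ≤ y := by linarith
    exact_mod_cast this
  have hyr : (0 : ℝ) < y := by exact_mod_cast hy1
  have c6 : (1 - δ / 8) * L ≤ Real.log y := by
    have e1 : Real.log ((q : ℝ) / L ^ 2 / 2) ≤ Real.log y := Real.log_le_log (by positivity) c4
    have e2 : L - (a + 2) * Real.log L ≤ Real.log ((q : ℝ) / L ^ 2) := (Real.le_log_iff_exp_le (by positivity)).2 c1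
    rw [Real.log_div (by positivity) (by norm_num)] at e1
    have e3 : Real.log 2 ≤ Real.log L := Real.log_le_log (by norm_num) (by linarith)
    nlinarith
  have c7 := Dc_split x q y hy1
  have c8 : th x q ≤ q + q / L := by
    have e1 := (abs_le.1 b1).2
    have e2 : (N : ℝ) / L ^ (a + 1) ≤ q / L := by
      rw [div_le_div_iff₀ (by positivity) hL0, pow_succ]
      calc (N : ℝ) * L ≤ (q * L ^ a) * L := mul_le_mul_of_nonneg_right hq hL0.le
        _ = _ := by ring
    linarith
  have hly0 : 0 < Real.log (y : ℝ) := lt_of_lt_of_le (mul_pos (by linarith) hL0) c6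
  have c9 : (Dc x q : ℝ) ≤ y + th x q / Real.log y := by
    have : (Dc x q : ℝ) ≤ (y * Real.log y + th x q) / Real.log y := by rwa [le_div_iff₀ hly0]
    have e : (y * Real.log y + th x q) / Real.log y = y + th x q / Real.log y := by field_simp
    linarith
  have c10 : th x q / Real.log y ≤ (q + q / L) / ((1 - δ / 8) * L) := by
    apply div_le_div₀ (by positivity) c8 (mul_pos (by linarith) hL0) c6
  have c11 : 1 / L ≤ δ / 8 := by
    rw [div_le_div_iff₀ hL0 (by norm_num)]
    rw [div_le_iff₀ hδ] at g2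
    linarith
  have c12 : (q + q / L) / ((1 - δ / 8) * L) ≤ (1 + δ / 2) * (q / L) := by
    rw [div_le_iff₀ (mul_pos (by linarith) hL0)]
    have e1 : (1 + δ / 2) * (q / L) * ((1 - δ / 8) * L) = ((1 + δ / 2) * (1 - δ / 8)) * q := by field_simp
    have e2 : (q : ℝ) + q / L = (1 + 1 / L) * q := by ring
    rw [e1, e2]
    apply mul_le_mul_of_nonneg_right _ hq0.le
    nlinarith
  have c13 : (q : ℝ) / L ^ 2 ≤ δ / 8 * (q / L) := by
    have : (q : ℝ) / L ^ 2 = (1 / L) * (q / L) := by field_simp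
    rw [this]
    exact mul_le_mul_of_nonneg_right c11 (by positivity)
  have : 0 ≤ δ * (q / L) := by positivity
  nlinarith

/-- exponential moments of the numbers of the primes -/
theorem upper (T a : ℕ) (δ : ℝ) (hδ : 0 < δ) (hδ1 : δ ≤ 1) : ∀ᶠ N : ℕ in atTop, ∀ q : ℕ, (N : ℝ) ≤ q * Real.log N ^ a → q ≤ N →
    ∀ (m : ℕ) (b : Fin m → ℕ), (∀ j, b j ≤ T * N) → ∀ z : ℝ, 0 ≤ z →
      ∑ s ∈ Fintype.piFinset (fun j => Ioc (b j) (b j + q)), ∑ n ∈ Icc 1 N, z ^ hc s n ≤
        N * (Real.exp ((z - 1) * (m / Real.log N) + |z - 1| * δ * (m / Real.log N)) * (q : ℝ) ^ m) := by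
  classical
  obtain ⟨K, hK, h1⟩ := pnt_lo T a
  filter_upwards [h1, pnt_up T a δ hδ hδ1, ev_log (K / δ + 1), eventually_ge_atTop 3] with N g1 g2 g3 g4 q hq hqN m b hb z hz
  obtain ⟨L, hL⟩ : ∃ L, L = Real.log (N : ℝ) := ⟨_, rfl⟩
  have k1 := fun x hx => g1 x q hx hq hqN
  have k2 := fun x hx => g2 x q hx hq hqN
  rw [← hL] at g3 ⊢
  simp only [← hL] at k1 k2
  have hL0 : 0 < L := by
    have : 0 ≤ K / δ := by positivity
    linarith
  have hKL : K ≤ δ * L := by
    have : K / δ ≤ L := by linarith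
    rw [div_le_iff₀ hδ] at this
    linarith
  have hq0 : (0 : ℝ) ≤ q := Nat.cast_nonneg q
  rw [sum_comm]
  have h2 : ∀ n ∈ Icc 1 N, ∑ s ∈ Fintype.piFinset (fun j => Ioc (b j) (b j + q)), z ^ hc s n ≤
      Real.exp ((z - 1) * (m / L) + |z - 1| * δ * (m / L)) * (q : ℝ) ^ m := by
    intro n hn
    rw [mem_Icc] at hn
    have e1 : ∑ s ∈ Fintype.piFinset (fun j => Ioc (b j) (b j + q)), z ^ hc s n =
        ∏ j, ∑ v ∈ Ioc (b j) (b j + q), (if (n + v).Prime then z else 1) := by
      rw [Finset.prod_univ_sum]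
      exact sum_congr rfl fun s _ => pow_hc s n z
    rw [e1]
    have e2 : ∀ j, ∑ v ∈ Ioc (b j) (b j + q), (if (n + v).Prime then z else 1) ≤
        q * Real.exp ((z - 1) / L + |z - 1| * δ / L) := by
      intro j
      have f1 : ∑ v ∈ Ioc (b j) (b j + q), (if (n + v).Prime then z else 1) = q + (z - 1) * Dc (n + b j) q := by
        rw [sum_congr rfl (g := fun v => 1 + (z - 1) * (if (n + v).Prime then 1 else 0)) (fun v _ => by split_ifs <;> ring),
          sum_add_distrib, sum_const, nsmul_eq_mul, mul_one, ← mul_sum, ← sum_filter, sum_const, nsmul_eq_mul, mul_one,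
          Nat.card_Ioc, Nat.add_sub_cancel_left]
        have : ((Ioc (b j) (b j + q)).filter fun v => (n + v).Prime) = hit (b j) q n := rfl
        rw [this, hit_card]
      rw [f1]
      have hx : n + b j ≤ (T + 1) * N := by nlinarith [hb j]
      have f2 := k1 (n + b j) hx
      have f3 := k2 (n + b j) hx
      have f4 : |(Dc (n + b j) q : ℝ) - q / L| ≤ δ * (q / L) := by
        rw [abs_le]
        have : K * (q / L ^ 2) ≤ δ * (q / L) := by
          have e : K * (q / L ^ 2) = (K / L) * (q / L) := by field_simp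
          rw [e]
          apply mul_le_mul_of_nonneg_right _ (by positivity)
          rw [div_le_iff₀ hL0]
          exact hKL
        constructor <;> linarith
      have f5 : (z - 1) * (Dc (n + b j) q - q / L) ≤ |z - 1| * (δ * (q / L)) := by
        calc (z - 1) * (Dc (n + b j) q - q / L) ≤ |(z - 1) * (Dc (n + b j) q - q / L)| := le_abs_self _
          _ = |z - 1| * |(Dc (n + b j) q : ℝ) - q / L| := abs_mul _ _
          _ ≤ _ := mul_le_mul_of_nonneg_left f4 (abs_nonneg _)
      have f6 := mul_le_mul_of_nonneg_left (Real.add_one_le_exp ((z - 1) / L + |z - 1| * δ / L)) hq0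
      have f7 : (q : ℝ) * ((z - 1) / L + |z - 1| * δ / L + 1) = q + ((z - 1) * (q / L) + |z - 1| * (δ * (q / L))) := by ring
      linarith
    calc ∏ j, ∑ v ∈ Ioc (b j) (b j + q), (if (n + v).Prime then z else 1) ≤
        ∏ _j : Fin m, (q * Real.exp ((z - 1) / L + |z - 1| * δ / L)) := by
          apply Finset.prod_le_prod
          · intro j _
            apply sum_nonneg
            intro v _
            split_ifs
            · exact hz
            · exact zero_le_one
          · exact fun j _ => e2 j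
      _ = _ := by
          rw [prod_const, card_univ, Fintype.card_fin, mul_pow, ← Real.exp_nat_mul, mul_comm]
          congr 2
          ring
  refine (sum_le_sum h2).trans ?_
  rw [sum_const, Nat.card_Icc, Nat.add_sub_cancel, nsmul_eq_mul]

end Pool.Agent.Run7.h931.EX
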