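import Pool.Agent.Run7.h931.RS.OneTwo

/-!
# The number of primes in perturbed intervals, part 2: tilted weights
-/

set_option autoImplicit false

namespace Pool.Agent.Run7.h931.EX

open Finset
open Pool.Agent.Run7.h931.RS (Pw Wd Cd hit cop hit_sub hit_card hit_inter one_le_Pw Cc Dc good_ineq)

/-- the normalising factor of the tilted weights -/
noncomputable def cf (z : ℝ) (U A : Finset ℕ) : ℝ := (U.card : ℝ) / (U.card - (1 - z) * A.card)

/-- the tilted weights -/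
noncomputable def wz (z : ℝ) (U A : Finset ℕ) (v : ℕ) : ℝ :=
  open Classical in if v ∈ A then z * cf z U A else if v ∈ U then cf z U A else 1

lemma three (Ω U A : Finset ℕ) (hU : U ⊆ Ω) (hA : A ⊆ U) (f : ℕ → ℝ) (α β : ℝ) (h1 : ∀ v ∈ A, f v = α)
    (h2 : ∀ v ∈ U, v ∉ A → f v = β) (h3 : ∀ v ∈ Ω, v ∉ U → f v = 1) :
    ∑ v ∈ Ω, f v = Ω.card + (β - 1) * U.card + (α - β) * A.card := by
  classical
  have e1 : ∑ v ∈ Ω \ U, f v = Ω.card - U.card := by
    rw [sum_congr rfl (g := fun _ => (1 : ℝ)) (fun v hv => by rw [mem_sdiff] at hv; exact h3 v hv.1 hv.2), sum_const, nsmul_eq_mul,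
      mul_one, cast_card_sdiff hU]
  have e2 : ∑ v ∈ U \ A, f v = (U.card - A.card) * β := by
    rw [sum_congr rfl (g := fun _ => β) (fun v hv => by rw [mem_sdiff] at hv; exact h2 v hv.1 hv.2), sum_const, nsmul_eq_mul,
      cast_card_sdiff hA]
  have e3 : ∑ v ∈ A, f v = A.card * α := by
    rw [sum_congr rfl (g := fun _ => α) h1, sum_const, nsmul_eq_mul]
  rw [← sum_sdiff hU, ← sum_sdiff hA, e1, e2, e3]
  ring

lemma wz_sum (z : ℝ) (Ω U A : Finset ℕ) (hU : U ⊆ Ω) (hA : A ⊆ U) (h : (0 : ℝ) < U.card - (1 - z) * A.card) (y : ℝ) :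
    ∑ v ∈ Ω, wz z U A v * (open Classical in if v ∈ A then y else 1) = Ω.card + cf z U A * z * (y - 1) * A.card := by
  classical
  rw [three Ω U A hU hA _ (z * cf z U A * y) (cf z U A)]
  · unfold cf
    field_simp
    ring
  · intro v hv
    unfold wz
    rw [if_pos hv, if_pos hv]
  · intro v hv hv'
    unfold wz
    rw [if_neg hv', if_neg hv', if_pos hv, mul_one]
  · intro v _ hv
    unfold wz
    rw [if_neg (fun h => hv (hA h)), if_neg (fun h => hv (hA h)), if_neg hv, mul_one]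

lemma wz_one (z : ℝ) (Ω U A : Finset ℕ) (hU : U ⊆ Ω) (hA : A ⊆ U) (h : (0 : ℝ) < U.card - (1 - z) * A.card) :
    ∑ v ∈ Ω, wz z U A v = Ω.card := by
  classical
  have := wz_sum z Ω U A hU hA h 1
  simpa using this

lemma wz_diag (z : ℝ) (hz : 0 < z) (Ω U A : Finset ℕ) (hU : U ⊆ Ω) (hA : A ⊆ U) (h : (0 : ℝ) < U.card - (1 - z) * A.card) :
    ∑ v ∈ Ω, wz z U A v ^ 2 * (open Classical in if v ∈ A then z⁻¹ else 1) = Ω.card + (1 - z) * (cf z U A * A.card) := by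
  classical
  rw [three Ω U A hU hA _ (z * cf z U A ^ 2) (cf z U A ^ 2)]
  · unfold cf
    field_simp
    ring
  · intro v hv
    unfold wz
    rw [if_pos hv, if_pos hv]
    field_simp
  · intro v hv hv'
    unfold wz
    rw [if_neg hv', if_neg hv', if_pos hv, mul_one]
  · intro v _ hv
    unfold wz
    rw [if_neg (fun h => hv (hA h)), if_neg (fun h => hv (hA h)), if_neg hv]
    norm_num

lemma wz_pair (z : ℝ) (Ω U A A' : Finset ℕ) (hU : U ⊆ Ω) (hA : A ⊆ U) (hA' : A' ⊆ U) (hU0 : 0 < U.card)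
    (h : (0 : ℝ) < U.card - (1 - z) * A.card) (h' : (0 : ℝ) < U.card - (1 - z) * A'.card) :
    ∑ v ∈ Ω, wz z U A v * wz z U A' v = Ω.card + cf z U A * cf z U A' * ((1 - z) ^ 2 *
      ((A ∩ A').card - A.card * A'.card / U.card)) := by
  classical
  have hUr : (0 : ℝ) < U.card := by exact_mod_cast hU0
  have h1 : ∑ v ∈ Ω, wz z U A v * wz z U A' v = ∑ v ∈ Ω \ U, (1 : ℝ) + ∑ v ∈ U, (cf z U A * cf z U A') *
      ((1 - (1 - z) * (if v ∈ A then 1 else 0)) * (1 - (1 - z) * (if v ∈ A' then 1 else 0))) := by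
    rw [← sum_sdiff hU]
    congr 1
    · apply sum_congr rfl
      intro v hv
      rw [mem_sdiff] at hv
      unfold wz
      rw [if_neg (fun h => hv.2 (hA h)), if_neg hv.2, if_neg (fun h => hv.2 (hA' h)), if_neg hv.2, mul_one]
    · apply sum_congr rfl
      intro v hv
      unfold wz
      by_cases h1 : v ∈ A <;> by_cases h2 : v ∈ A' <;> simp only [h1, h2, hv, if_true, if_false] <;> ring
  have h2 : ∀ v, (1 - (1 - z) * (if v ∈ A then (1 : ℝ) else 0)) * (1 - (1 - z) * (if v ∈ A' then (1 : ℝ) else 0)) =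
      1 - (1 - z) * (if v ∈ A then (1 : ℝ) else 0) - (1 - z) * (if v ∈ A' then (1 : ℝ) else 0) +
        (1 - z) ^ 2 * (if v ∈ A ∩ A' then (1 : ℝ) else 0) := by
    intro v
    by_cases h1 : v ∈ A <;> by_cases h2 : v ∈ A' <;> simp only [h1, h2, mem_inter, if_true, if_false, and_true, and_false] <;> ring
  have hs : ∀ B : Finset ℕ, B ⊆ U → ∑ v ∈ U, (if v ∈ B then (1 : ℝ) else 0) = B.card := by
    intro B hB
    rw [← sum_filter, sum_const, nsmul_eq_mul, mul_one, filter_mem_eq_inter, inter_eq_right.2 hB]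
  rw [h1, ← mul_sum, sum_congr rfl fun v _ => h2 v, sum_add_distrib, sum_sub_distrib, sum_sub_distrib, ← mul_sum, ← mul_sum,
    ← mul_sum, hs A hA, hs A' hA', hs (A ∩ A') (inter_subset_left.trans hA), sum_const, sum_const, nsmul_eq_mul, mul_one,
    cast_card_sdiff hU]
  unfold cf
  simp only [nsmul_eq_mul, mul_one]
  field_simp
  ring

/-- the sizes in one coordinate -/
lemma _root_.Pool.Agent.Run7.h931.RS.Cd.dens {w : ℕ} {L δ K : ℝ} {q b n : ℕ} (h : Cd w L δ K q b n) (z Z : ℝ) (hz : 0 < z) (hzZ : |z - 1| ≤ Z) (hZδ : Z * δ ≤ 1) :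
    ((0 : ℝ) < (cop (Wd w) b q).card - (1 - z) * (hit b q n).card) ∧ 0 < cf z (cop (Wd w) b q) (hit b q n) ∧
      cf z (cop (Wd w) b q) (hit b q n) ≤ 1 / (1 - δ / 4) ∧
      |cf z (cop (Wd w) b q) (hit b q n) * (hit b q n).card - q / L| ≤ (3 + Z) * δ * (q / L) ∧
      |cf z (cop (Wd w) b q) (hit b q n) * (hit b q n).card / (cop (Wd w) b q).card - Pw w / L| ≤ (3 + Z) * δ * (Pw w / L) := by
  obtain ⟨u, hu⟩ : ∃ u : ℝ, u = (cop (Wd w) b q).card := ⟨_, rfl⟩
  obtain ⟨D, hD⟩ : ∃ D : ℝ, D = (hit b q n).card := ⟨_, rfl⟩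
  obtain ⟨c, hc⟩ : ∃ c : ℝ, c = cf z (cop (Wd w) b q) (hit b q n) := ⟨_, rfl⟩
  have hδ := h.hδ
  have hδ1 := h.hδ1
  have hL := h.hL
  have hP := one_le_Pw w
  have hq : (0 : ℝ) < q := by exact_mod_cast h.hq
  have hZ0 : 0 ≤ Z := (abs_nonneg _).trans hzZ
  have a1 := h.ub
  have a2 : (1 - δ / 4) * (q / L) ≤ D := by
    rw [hD, hit_card]
    refine le_trans ?_ h.lo
    have e1 : K * (q / L ^ 2) = (K / L) * (q / L) := by field_simp
    have e2 : K / L ≤ δ / 4 := by rw [div_le_iff₀ hL]; linarith [h.hKL]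
    have e3 : (K / L) * (q / L) ≤ (δ / 4) * (q / L) := mul_le_mul_of_nonneg_right e2 (by positivity)
    rw [e1]
    linarith
  have a3 := h.theta
  obtain ⟨a4, a5, a6, _⟩ := h.ucard
  have hcu : c = u / (u - (1 - z) * D) := by rw [hc, hu, hD]; rfl
  rw [← hD] at a1 a3
  rw [← hu] at a3 a4 a5
  rw [← hc, ← hu, ← hD]
  have hu0 : 0 < u := lt_of_lt_of_le (mul_pos (by linarith) (by positivity)) a4
  have hD0 : 0 < D := lt_of_lt_of_le (mul_pos (by linarith) (by positivity)) a2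
  have b0 : (1 - δ / 4) * u ≤ u - (1 - z) * D := by nlinarith
  have b1 : 0 < u - (1 - z) * D := lt_of_lt_of_le (mul_pos (by linarith) hu0) b0
  have b2 : u - (1 - z) * D ≤ (1 + Z * (δ / 4)) * u := by
    have : -(1 - z) * D ≤ Z * D := mul_le_mul_of_nonneg_right (by linarith [(abs_le.1 hzZ).2]) hD0.le
    have : Z * D ≤ Z * (δ / 4 * u) := mul_le_mul_of_nonneg_left a3 hZ0
    nlinarith
  have c1 : 0 < c := by rw [hcu]; exact div_pos hu0 b1
  have c2 : c ≤ 1 / (1 - δ / 4) := by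
    rw [hcu, div_le_div_iff₀ b1 (by linarith)]
    linarith
  have c3 : 1 - Z * (δ / 4) ≤ c := by
    rw [hcu, le_div_iff₀ b1]
    have e0 : 0 ≤ 1 - Z * (δ / 4) := by nlinarith
    calc (1 - Z * (δ / 4)) * (u - (1 - z) * D) ≤ (1 - Z * (δ / 4)) * ((1 + Z * (δ / 4)) * u) := mul_le_mul_of_nonneg_left b2 e0
      _ = (1 - (Z * (δ / 4)) ^ 2) * u := by ring
      _ ≤ 1 * u := mul_le_mul_of_nonneg_right (by nlinarith [sq_nonneg (Z * (δ / 4))]) hu0.le
      _ = u := one_mul u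
  have e1 : (1 + δ / 4) / (1 - δ / 4) ≤ 1 + δ := by
    rw [div_le_iff₀ (by linarith)]
    nlinarith
  have hZd : 0 ≤ Z * δ := by positivity
  refine ⟨b1, c1, c2, ?_, ?_⟩
  · rw [abs_le]
    constructor
    · have d1 : (1 - Z * (δ / 4)) * ((1 - δ / 4) * (q / L)) ≤ c * D :=
        mul_le_mul c3 a2 (mul_nonneg (by linarith) (by positivity)) c1.le
      have d2 : (1 - (3 + Z) * δ) * (q / L) ≤ (1 - Z * (δ / 4)) * ((1 - δ / 4) * (q / L)) := by
        rw [← mul_assoc]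
        apply mul_le_mul_of_nonneg_right _ (by positivity)
        nlinarith [mul_nonneg hZ0 (mul_nonneg hδ.le hδ.le)]
      linarith
    · have d1 : c * D ≤ 1 / (1 - δ / 4) * ((1 + δ / 4) * (q / L)) := mul_le_mul c2 a1 hD0.le (by
        have : 0 < 1 - δ / 4 := by linarith
        positivity)
      have d2 : 1 / (1 - δ / 4) * ((1 + δ / 4) * (q / L)) = ((1 + δ / 4) / (1 - δ / 4)) * (q / L) := by ring
      have d3 : ((1 + δ / 4) / (1 - δ / 4)) * (q / L) ≤ (1 + δ) * (q / L) := mul_le_mul_of_nonneg_right e1 (by positivity)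
      have d4 : (1 + δ) * (q / L) ≤ (1 + (3 + Z) * δ) * (q / L) := mul_le_mul_of_nonneg_right (by linarith) (by positivity)
      linarith
  · rw [abs_le]
    constructor
    · have d1 : (1 - Z * (δ / 4)) * ((1 - δ / 4) * (q / L)) ≤ c * D :=
        mul_le_mul c3 a2 (mul_nonneg (by linarith) (by positivity)) c1.le
      have d2 : (1 - (3 + Z) * δ) * (Pw w / L) * u ≤ (1 - Z * (δ / 4)) * ((1 - δ / 4) * (q / L)) := by
        rcases le_or_gt ((3 + Z) * δ) 1 with h3 | h3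
        · calc (1 - (3 + Z) * δ) * (Pw w / L) * u ≤ (1 - (3 + Z) * δ) * (Pw w / L) * ((1 + δ / 4) * (q / Pw w)) := by
                apply mul_le_mul_of_nonneg_left a5
                have : 0 ≤ 1 - (3 + Z) * δ := by linarith
                positivity
            _ = ((1 - (3 + Z) * δ) * (1 + δ / 4)) * (q / L) := by field_simp
            _ ≤ ((1 - Z * (δ / 4)) * (1 - δ / 4)) * (q / L) := by
                apply mul_le_mul_of_nonneg_right _ (by positivity)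
                nlinarith [mul_nonneg hZ0 (mul_nonneg hδ.le hδ.le), mul_nonneg hδ.le hδ.le]
            _ = _ := by ring
        · have f1 : (1 - (3 + Z) * δ) * (Pw w / L) * u ≤ 0 := by
            have f2 : (1 - (3 + Z) * δ) * (Pw w / L) ≤ 0 :=
              mul_nonpos_of_nonpos_of_nonneg (by linarith) (by positivity)
            exact mul_nonpos_of_nonpos_of_nonneg f2 hu0.le
          refine f1.trans ?_
          apply mul_nonneg (by linarith)
          exact mul_nonneg (by linarith) (by positivity)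
      have d3 : (1 - (3 + Z) * δ) * (Pw w / L) ≤ c * D / u := by
        rw [le_div_iff₀ hu0]
        linarith
      linarith
    · have d1 : D / u ≤ (1 + δ) * (Pw w / L) := by
        rw [div_le_iff₀ hu0]
        calc D ≤ (1 + δ / 4) * (q / L) := a1
          _ ≤ ((1 + δ) * (1 - δ / 4)) * (q / L) := by
              apply mul_le_mul_of_nonneg_right _ (by positivity)
              nlinarith
          _ = (1 + δ) * (Pw w / L) * ((1 - δ / 4) * (q / Pw w)) := by field_simp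
          _ ≤ (1 + δ) * (Pw w / L) * u := mul_le_mul_of_nonneg_left a4 (by positivity)
      have d2 : c * D / u ≤ 1 / (1 - δ / 4) * ((1 + δ) * (Pw w / L)) := by
        rw [mul_div_assoc]
        exact mul_le_mul c2 d1 (by positivity) (by
          have : 0 < 1 - δ / 4 := by linarith
          positivity)
      have d3 : 1 / (1 - δ / 4) * ((1 + δ) * (Pw w / L)) = ((1 + δ) / (1 - δ / 4)) * (Pw w / L) := by ring
      have d4 : (1 + δ) / (1 - δ / 4) ≤ 1 + 3 * δ := by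
        rw [div_le_iff₀ (by linarith)]
        nlinarith
      have d5 : ((1 + δ) / (1 - δ / 4)) * (Pw w / L) ≤ (1 + 3 * δ) * (Pw w / L) := mul_le_mul_of_nonneg_right d4 (by positivity)
      have d6 : (1 + 3 * δ) * (Pw w / L) ≤ (1 + (3 + Z) * δ) * (Pw w / L) := mul_le_mul_of_nonneg_right (by linarith) (by positivity)
      linarith

/-- the tilted exponential moments of one coordinate -/
lemma _root_.Pool.Agent.Run7.h931.RS.Cd.tilt {w : ℕ} {L δ K : ℝ} {q b n : ℕ} (h : Cd w L δ K q b n) (z Z : ℝ) (hz : 0 < z) (hzZ : |z - 1| ≤ Z) (hZδ : Z * δ ≤ 1)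
    (y : ℝ) : ∑ v ∈ Ioc b (b + q), wz z (cop (Wd w) b q) (hit b q n) v * (open Classical in if v ∈ hit b q n then y else 1) ≤
      Real.exp (z * (y - 1) / L + z * |y - 1| * ((3 + Z) * δ) / L) * (Ioc b (b + q)).card := by
  classical
  obtain ⟨d1, d2, d3, d4, d5⟩ := h.dens z Z hz hzZ hZδ
  have hL := h.hL
  have hq : (0 : ℝ) < q := by exact_mod_cast h.hq
  have hZ0 : 0 ≤ Z := (abs_nonneg _).trans hzZ
  rw [wz_sum z (Ioc b (b + q)) (cop (Wd w) b q) (hit b q n) (filter_subset _ _) (hit_sub w b q n h.hn h.hWn) d1, Nat.card_Ioc, Nat.add_sub_cancel_left]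
  obtain ⟨X, hX⟩ : ∃ X : ℝ, X = cf z (cop (Wd w) b q) (hit b q n) * (hit b q n).card := ⟨_, rfl⟩
  rw [← hX] at d4
  have e1 : cf z (cop (Wd w) b q) (hit b q n) * z * (y - 1) * (hit b q n).card = z * (y - 1) * X := by rw [hX]; ring
  rw [e1]
  have e2 : z * (y - 1) * X ≤ (z * (y - 1) / L + z * |y - 1| * ((3 + Z) * δ) / L) * q := by
    have f1 : z * (y - 1) * (X - q / L) ≤ z * |y - 1| * ((3 + Z) * δ * (q / L)) := by
      calc z * (y - 1) * (X - q / L) ≤ |z * (y - 1) * (X - q / L)| := le_abs_self _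
        _ = z * |y - 1| * |X - q / L| := by rw [abs_mul, abs_mul, abs_of_pos hz]
        _ ≤ _ := mul_le_mul_of_nonneg_left d4 (by positivity)
    have f2 : (z * (y - 1) / L + z * |y - 1| * ((3 + Z) * δ) / L) * q = z * (y - 1) * (q / L) + z * |y - 1| * ((3 + Z) * δ * (q / L)) := by
      ring
    rw [f2]
    linarith
  have e3 := Real.add_one_le_exp (z * (y - 1) / L + z * |y - 1| * ((3 + Z) * δ) / L)
  have e4 := mul_le_mul_of_nonneg_right e3 hq.le
  linarith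

/-- the diagonal terms -/
lemma _root_.Pool.Agent.Run7.h931.RS.Cd.zdiag {w : ℕ} {L δ K : ℝ} {q b n : ℕ} (h : Cd w L δ K q b n) (z Z : ℝ) (hz : 0 < z) (hzZ : |z - 1| ≤ Z) (hZδ : Z * δ ≤ 1) :
    ∑ v ∈ Ioc b (b + q), wz z (cop (Wd w) b q) (hit b q n) v ^ 2 * (open Classical in if v ∈ hit b q n then z⁻¹ else 1) ≤
      Real.exp ((1 - z) / L + Z * ((3 + Z) * δ) / L) * (Ioc b (b + q)).card := by
  classical
  obtain ⟨d1, d2, d3, d4, d5⟩ := h.dens z Z hz hzZ hZδ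
  have hL := h.hL
  have hδ := h.hδ
  have hq : (0 : ℝ) < q := by exact_mod_cast h.hq
  have hZ0 : 0 ≤ Z := (abs_nonneg _).trans hzZ
  rw [wz_diag z hz (Ioc b (b + q)) (cop (Wd w) b q) (hit b q n) (filter_subset _ _) (hit_sub w b q n h.hn h.hWn) d1, Nat.card_Ioc, Nat.add_sub_cancel_left]
  obtain ⟨X, hX⟩ : ∃ X : ℝ, X = cf z (cop (Wd w) b q) (hit b q n) * (hit b q n).card := ⟨_, rfl⟩
  rw [← hX] at d4 ⊢
  have e2 : (1 - z) * X ≤ ((1 - z) / L + Z * ((3 + Z) * δ) / L) * q := by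
    have f1 : (1 - z) * (X - q / L) ≤ Z * ((3 + Z) * δ * (q / L)) := by
      calc (1 - z) * (X - q / L) ≤ |(1 - z) * (X - q / L)| := le_abs_self _
        _ = |z - 1| * |X - q / L| := by rw [abs_mul, abs_sub_comm 1 z]
        _ ≤ _ := mul_le_mul hzZ d4 (abs_nonneg _) hZ0
    have f2 : ((1 - z) / L + Z * ((3 + Z) * δ) / L) * q = (1 - z) * (q / L) + Z * ((3 + Z) * δ * (q / L)) := by ring
    rw [f2]
    linarith
  have e3 := Real.add_one_le_exp ((1 - z) / L + Z * ((3 + Z) * δ) / L)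
  have e4 := mul_le_mul_of_nonneg_right e3 hq.le
  linarith

/-- a common bound for one coordinate -/
lemma _root_.Pool.Agent.Run7.h931.RS.Cd.zpair {w : ℕ} {L δ K : ℝ} {q b n n' : ℕ} (h : Cd w L δ K q b n) (h' : Cd w L δ K q b n') (z Z : ℝ) (hz : 0 < z)
    (hzZ : |z - 1| ≤ Z) (hZδ : Z * δ ≤ 1) (Y : ℝ) (hY : 0 ≤ Y)
    (hAA : ((hit b q n ∩ hit b q n').card : ℝ) - (hit b q n).card * (hit b q n').card / (cop (Wd w) b q).card ≤ Y * q) :
    ∑ v ∈ Ioc b (b + q), wz z (cop (Wd w) b q) (hit b q n) v * wz z (cop (Wd w) b q) (hit b q n') v ≤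
      Real.exp (Z ^ 2 * ((1 + δ) * Y)) * (Ioc b (b + q)).card := by
  obtain ⟨d1, d2, d3, _, _⟩ := h.dens z Z hz hzZ hZδ
  obtain ⟨d1', d2', d3', _, _⟩ := h'.dens z Z hz hzZ hZδ
  have hδ := h.hδ
  have hδ1 := h.hδ1
  have hq : (0 : ℝ) < q := by exact_mod_cast h.hq
  have hZ0 : 0 ≤ Z := (abs_nonneg _).trans hzZ
  rw [wz_pair z (Ioc b (b + q)) (cop (Wd w) b q) (hit b q n) (hit b q n') (filter_subset _ _) (hit_sub w b q n h.hn h.hWn) (hit_sub w b q n' h'.hn h'.hWn) h.ucard.2.2.1 d1 d1',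
    Nat.card_Ioc, Nat.add_sub_cancel_left]
  obtain ⟨c, hc⟩ : ∃ c, c = cf z (cop (Wd w) b q) (hit b q n) := ⟨_, rfl⟩
  obtain ⟨c', hc'⟩ : ∃ c, c = cf z (cop (Wd w) b q) (hit b q n') := ⟨_, rfl⟩
  obtain ⟨X, hX⟩ : ∃ X : ℝ, X = ((hit b q n ∩ hit b q n').card : ℝ) -
    (hit b q n).card * (hit b q n').card / (cop (Wd w) b q).card := ⟨_, rfl⟩
  rw [← hc] at d2 d3 ⊢
  rw [← hc'] at d2' d3' ⊢
  rw [← hX] at hAA ⊢
  have e1 : c * c' ≤ 1 + δ := by
    have f0 : 0 < 1 - δ / 4 := by linarith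
    have f1 : c * c' ≤ 1 / (1 - δ / 4) * (1 / (1 - δ / 4)) := mul_le_mul d3 d3' d2'.le (by positivity)
    refine f1.trans ?_
    rw [div_mul_div_comm, div_le_iff₀ (by positivity)]
    nlinarith [mul_nonneg hδ.le (sub_nonneg.2 hδ1)]
  have e2 : (1 - z) ^ 2 ≤ Z ^ 2 := by
    rw [← sq_abs (1 - z), abs_sub_comm]
    exact pow_le_pow_left₀ (abs_nonneg _) hzZ 2
  have e3 : c * c' * ((1 - z) ^ 2 * X) ≤ (Z ^ 2 * ((1 + δ) * Y)) * q := by
    have f1 : c * c' * ((1 - z) ^ 2 * X) ≤ c * c' * ((1 - z) ^ 2 * (Y * q)) :=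
      mul_le_mul_of_nonneg_left (mul_le_mul_of_nonneg_left hAA (sq_nonneg _)) (by positivity)
    have f2 : c * c' * ((1 - z) ^ 2 * (Y * q)) ≤ (1 + δ) * (Z ^ 2 * (Y * q)) :=
      mul_le_mul e1 (mul_le_mul_of_nonneg_right e2 (by positivity)) (by positivity) (by linarith)
    refine f1.trans (f2.trans (le_of_eq ?_))
    ring
  have e4 := mul_le_mul_of_nonneg_right (Real.add_one_le_exp (Z ^ 2 * ((1 + δ) * Y))) hq.le
  linarith

lemma _root_.Pool.Agent.Run7.h931.RS.Cd.zbad {w : ℕ} {L δ K : ℝ} {q b n h : ℕ} (hn : Cd w L δ K q b n) (hn' : Cd w L δ K q b (n + h)) (z Z : ℝ) (hz : 0 < z)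
    (hzZ : |z - 1| ≤ Z) (hZδ : Z * δ ≤ 1) (B : ℝ) (hB : 0 ≤ B) (hC : (Cc (n + b) q h : ℝ) ≤ B * (q / L ^ 2)) :
    ∑ v ∈ Ioc b (b + q), wz z (cop (Wd w) b q) (hit b q n) v * wz z (cop (Wd w) b q) (hit b q (n + h)) v ≤
      Real.exp (Z ^ 2 * (2 * B) / L ^ 2) * (Ioc b (b + q)).card := by
  have hδ := hn.hδ
  have hδ1 := hn.hδ1
  have hL := hn.hL
  refine (hn.zpair hn' z Z hz hzZ hZδ (B / L ^ 2) (by positivity) ?_).trans ?_
  · rw [hit_inter]
    have h2 : 0 ≤ ((hit b q n).card : ℝ) * (hit b q (n + h)).card / (cop (Wd w) b q).card := by positivity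
    have h3 : B * (q / L ^ 2) = B / L ^ 2 * q := by ring
    linarith
  · apply mul_le_mul_of_nonneg_right _ (Nat.cast_nonneg _)
    apply Real.exp_le_exp.2
    rw [mul_div_assoc]
    apply mul_le_mul_of_nonneg_left _ (sq_nonneg Z)
    rw [mul_div_assoc']
    apply div_le_div_of_nonneg_right _ (by positivity)
    nlinarith

lemma _root_.Pool.Agent.Run7.h931.RS.Cd.zgood {w : ℕ} {L δ K : ℝ} {q b n h : ℕ} (hn : Cd w L δ K q b n) (hn' : Cd w L δ K q b (n + h)) (z Z : ℝ) (hz : 0 < z)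
    (hzZ : |z - 1| ≤ Z) (hZδ : Z * δ ≤ 1) (F : ℝ) (hF : 1 ≤ F)
    (hC : (Cc (n + b) q h : ℝ) ≤ (1 + δ) * (Pw w * F) * (q / L ^ 2)) :
    ∑ v ∈ Ioc b (b + q), wz z (cop (Wd w) b q) (hit b q n) v * wz z (cop (Wd w) b q) (hit b q (n + h)) v ≤
      Real.exp (Z ^ 2 * (2 * Pw w * (F - 1) + 4 * δ * Pw w) / L ^ 2) * (Ioc b (b + q)).card := by
  have hδ := hn.hδ
  have hδ1 := hn.hδ1
  have hL := hn.hL
  have hP := one_le_Pw w
  have hq : (0 : ℝ) < q := by exact_mod_cast hn.hq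
  have hFP : 0 ≤ Pw w * (F - 1) := mul_nonneg (by linarith) (by linarith)
  have e0 : (1 + δ) * (Pw w * F) - (1 - δ) * Pw w = (1 + δ) * (Pw w * (F - 1)) + 2 * δ * Pw w := by ring
  have hY0 : 0 ≤ (1 + δ) * (Pw w * F) - (1 - δ) * Pw w := by
    rw [e0]
    positivity
  refine (hn.zpair hn' z Z hz hzZ hZδ (((1 + δ) * (Pw w * F) - (1 - δ) * Pw w) / L ^ 2) (by positivity) ?_).trans ?_
  · rw [hit_inter, hit_card, hit_card]
    have h1 := good_ineq hL hq hP hδ hδ1 hn.hKL hn.hW hC hn.lo hn'.lo (by exact_mod_cast hn.ucard.2.2.1) hn.ucard.2.2.2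
    refine h1.trans (le_of_eq ?_)
    ring
  · apply mul_le_mul_of_nonneg_right _ (Nat.cast_nonneg _)
    apply Real.exp_le_exp.2
    rw [mul_div_assoc]
    apply mul_le_mul_of_nonneg_left _ (sq_nonneg Z)
    rw [mul_div_assoc', e0]
    apply div_le_div_of_nonneg_right _ (by positivity)
    have h1 : (1 + δ) * ((1 + δ) * (Pw w * (F - 1)) + 2 * δ * Pw w) =
        (1 + δ) ^ 2 * (Pw w * (F - 1)) + (1 + δ) * (2 * δ * Pw w) := by ring
    rw [h1]
    have h2 : (1 + δ) ^ 2 * (Pw w * (F - 1)) ≤ 2 * (Pw w * (F - 1)) := mul_le_mul_of_nonneg_right (by nlinarith) hFP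
    have h3 : (1 + δ) * (2 * δ * Pw w) ≤ 2 * (2 * δ * Pw w) := mul_le_mul_of_nonneg_right (by linarith) (by positivity)
    linarith

lemma wz_nonneg (z : ℝ) (hz : 0 < z) (U A : Finset ℕ) (h : (0 : ℝ) < U.card - (1 - z) * A.card) (v : ℕ) : 0 ≤ wz z U A v := by
  classical
  have h1 : 0 ≤ cf z U A := div_nonneg (Nat.cast_nonneg _) h.le
  unfold wz
  split_ifs
  · positivity
  · exact h1
  · exact zero_le_one

end Pool.Agent.Run7.h931.EX
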