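import Pool.Agent.Run7.h931.EX.Av
import Pool.Agent.Run7.h931.EX.Wt
import Pool.Agent.Run7.h931.EX.Up

/-!
# The number of primes in perturbed intervals, part 4: the truncated second moment
-/

set_option autoImplicit false

namespace Pool.Agent.Run7.h931.EX

open Finset Filter
open Pool.Agent.Run7.h931.RS (Pw Fw Wd Wd_pos one_le_Pw one_le_Fw Cd hit cop hit_sub prod_exp pairs_sum tri cd_ev sieve moments hl_up
  bad_sum Fw_mulW Cc ev_log)

/-- Chebyshev's inequality -/
lemma cheb2 {ι : Type} (Ω : Finset ι) (X : ι → ℝ) (r η : ℝ) (hr : 0 < r) (h1 : (1 - η) * r * Ω.card ≤ ∑ s ∈ Ω, X s)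
    (h2 : ∑ s ∈ Ω, X s ^ 2 ≤ (1 + η) * r ^ 2 * Ω.card) : ((Ω.filter fun s => X s < r / 2).card : ℝ) ≤ 12 * η * Ω.card := by
  classical
  have h3 : ∑ s ∈ Ω, (X s - r) ^ 2 ≤ 3 * η * r ^ 2 * Ω.card := by
    have e : ∀ s ∈ Ω, (X s - r) ^ 2 = X s ^ 2 - 2 * r * X s + r ^ 2 := fun s _ => by ring
    rw [sum_congr rfl e, sum_add_distrib, sum_sub_distrib, ← mul_sum, sum_const, nsmul_eq_mul]
    have := mul_le_mul_of_nonneg_left h1 (by positivity : (0 : ℝ) ≤ 2 * r)
    nlinarith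
  have h4 : ((Ω.filter fun s => X s < r / 2).card : ℝ) * (r ^ 2 / 4) ≤ ∑ s ∈ Ω, (X s - r) ^ 2 := by
    rw [← nsmul_eq_mul, ← sum_const]
    refine le_trans (sum_le_sum (fun s hs => ?_)) (sum_le_sum_of_subset_of_nonneg (filter_subset _ _) fun s _ _ => sq_nonneg _)
    rw [mem_filter] at hs
    nlinarith [hs.2]
  have h5 := h4.trans h3
  have h6 : 3 * η * r ^ 2 * Ω.card = (12 * η * Ω.card) * (r ^ 2 / 4) := by ring
  rw [h6] at h5
  exact le_of_mul_le_mul_right h5 (by positivity)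

/-- the tilted weight of `n` -/
noncomputable def Wk {m : ℕ} (z : ℝ) (w q : ℕ) (b : Fin m → ℕ) (n : ℕ) (s : Fin m → ℕ) : ℝ :=
  ∏ j, wz z (cop (Wd w) (b j) q) (hit (b j) q n) (s j)

lemma hit_iff {m : ℕ} (q : ℕ) (b : Fin m → ℕ) (n : ℕ) (s : Fin m → ℕ) (hs : s ∈ Fintype.piFinset fun j => Ioc (b j) (b j + q))
    (j : Fin m) : s j ∈ hit (b j) q n ↔ (n + s j).Prime := by
  rw [Fintype.mem_piFinset] at hs
  unfold hit
  rw [mem_filter]
  exact ⟨fun h => h.2, fun h => ⟨hs j, h⟩⟩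

lemma Wk_nonneg {m : ℕ} {w : ℕ} {L δ K : ℝ} {q n : ℕ} {b : Fin m → ℕ} (h : ∀ j, Cd w L δ K q (b j) n) (z Z : ℝ) (hz : 0 < z)
    (hzZ : |z - 1| ≤ Z) (hZδ : Z * δ ≤ 1) (s : Fin m → ℕ) : 0 ≤ Wk z w q b n s :=
  prod_nonneg fun j _ => wz_nonneg z hz _ _ ((h j).dens z Z hz hzZ hZδ).1 _

lemma Wk_sum {m : ℕ} {w : ℕ} {L δ K : ℝ} {q n : ℕ} {b : Fin m → ℕ} (h : ∀ j, Cd w L δ K q (b j) n) (z Z : ℝ) (hz : 0 < z)
    (hzZ : |z - 1| ≤ Z) (hZδ : Z * δ ≤ 1) : ∑ s ∈ Fintype.piFinset (fun j => Ioc (b j) (b j + q)), Wk z w q b n s = (q : ℝ) ^ m := by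
  unfold Wk
  rw [← Finset.prod_univ_sum (fun j => Ioc (b j) (b j + q)) (fun j v => wz z (cop (Wd w) (b j) q) (hit (b j) q n) v)]
  rw [prod_congr rfl fun j _ => by
    rw [wz_one z (Ioc (b j) (b j + q)) (cop (Wd w) (b j) q) (hit (b j) q n) (filter_subset _ _)
      (hit_sub w (b j) q n (h j).hn (h j).hWn) ((h j).dens z Z hz hzZ hZδ).1, Nat.card_Ioc, Nat.add_sub_cancel_left],
    prod_const, card_univ, Fintype.card_fin]

/-- the tilted exponential moments -/
lemma Wk_tilt {m : ℕ} {w : ℕ} {L δ K : ℝ} {q n : ℕ} {b : Fin m → ℕ} (h : ∀ j, Cd w L δ K q (b j) n) (z Z : ℝ) (hz : 0 < z)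
    (hzZ : |z - 1| ≤ Z) (hZδ : Z * δ ≤ 1) (y : ℝ) (hy : 0 ≤ y) :
    ∑ s ∈ Fintype.piFinset (fun j => Ioc (b j) (b j + q)), Wk z w q b n s * y ^ hc s n ≤
      Real.exp (z * m / L * (y - 1) + z * m / L * |y - 1| * ((3 + Z) * δ)) * (q : ℝ) ^ m := by
  classical
  have h1 : ∀ s ∈ Fintype.piFinset (fun j => Ioc (b j) (b j + q)), Wk z w q b n s * y ^ hc s n =
      ∏ j, (wz z (cop (Wd w) (b j) q) (hit (b j) q n) (s j) * (if s j ∈ hit (b j) q n then y else 1)) := by
    intro s hs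
    rw [prod_mul_distrib, pow_hc]
    unfold Wk
    congr 1
    apply prod_congr rfl
    intro j _
    by_cases h2 : (n + s j).Prime
    · rw [if_pos h2, if_pos ((hit_iff q b n s hs j).2 h2)]
    · rw [if_neg h2, if_neg (fun h3 => h2 ((hit_iff q b n s hs j).1 h3))]
  rw [sum_congr rfl h1, ← Finset.prod_univ_sum (fun j => Ioc (b j) (b j + q))
    (fun j v => wz z (cop (Wd w) (b j) q) (hit (b j) q n) v * (if v ∈ hit (b j) q n then y else 1))]
  refine (prod_exp (fun j => Ioc (b j) (b j + q)) _ (z * (y - 1) / L + z * |y - 1| * ((3 + Z) * δ) / L) ?_ ?_).trans ?_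
  · intro j
    apply sum_nonneg
    intro v _
    apply mul_nonneg (wz_nonneg z hz _ _ ((h j).dens z Z hz hzZ hZδ).1 _)
    split_ifs
    · exact hy
    · exact zero_le_one
  · intro j
    exact (h j).tilt z Z hz hzZ hZδ y
  · rw [prod_congr rfl fun j _ => by rw [Nat.card_Ioc, Nat.add_sub_cancel_left], prod_const, card_univ, Fintype.card_fin]
    apply le_of_eq
    congr 2
    ring

/-- the diagonal -/
lemma Wk_diag {m : ℕ} {w : ℕ} {L δ K : ℝ} {q n : ℕ} {b : Fin m → ℕ} (h : ∀ j, Cd w L δ K q (b j) n) (z Z : ℝ) (hz : 0 < z)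
    (hzZ : |z - 1| ≤ Z) (hZδ : Z * δ ≤ 1) :
    ∑ s ∈ Fintype.piFinset (fun j => Ioc (b j) (b j + q)), Wk z w q b n s ^ 2 * z⁻¹ ^ hc s n ≤
      Real.exp ((1 - z) * (m / L) + Z * ((3 + Z) * δ) * (m / L)) * (q : ℝ) ^ m := by
  classical
  have h1 : ∀ s ∈ Fintype.piFinset (fun j => Ioc (b j) (b j + q)), Wk z w q b n s ^ 2 * z⁻¹ ^ hc s n =
      ∏ j, (wz z (cop (Wd w) (b j) q) (hit (b j) q n) (s j) ^ 2 * (if s j ∈ hit (b j) q n then z⁻¹ else 1)) := by
    intro s hs
    rw [prod_mul_distrib, pow_hc, prod_pow]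
    unfold Wk
    congr 1
    apply prod_congr rfl
    intro j _
    by_cases h2 : (n + s j).Prime
    · rw [if_pos h2, if_pos ((hit_iff q b n s hs j).2 h2)]
    · rw [if_neg h2, if_neg (fun h3 => h2 ((hit_iff q b n s hs j).1 h3))]
  rw [sum_congr rfl h1, ← Finset.prod_univ_sum (fun j => Ioc (b j) (b j + q))
    (fun j v => wz z (cop (Wd w) (b j) q) (hit (b j) q n) v ^ 2 * (if v ∈ hit (b j) q n then z⁻¹ else 1))]
  refine (prod_exp (fun j => Ioc (b j) (b j + q)) _ ((1 - z) / L + Z * ((3 + Z) * δ) / L) ?_ ?_).trans ?_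
  · intro j
    apply sum_nonneg
    intro v _
    apply mul_nonneg (sq_nonneg _)
    split_ifs
    · positivity
    · exact zero_le_one
  · intro j
    exact (h j).zdiag z Z hz hzZ hZδ
  · rw [prod_congr rfl fun j _ => by rw [Nat.card_Ioc, Nat.add_sub_cancel_left], prod_const, card_univ, Fintype.card_fin]
    apply le_of_eq
    congr 2
    ring

/-- a lower bound for `y ^ k` -/
lemma pow_ge_exp (y : ℝ) (hy : 0 < y) (k : ℕ) (c : ℝ) (h : c ≤ k * Real.log y) : Real.exp c ≤ y ^ k := by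
  calc Real.exp c ≤ Real.exp (k * Real.log y) := Real.exp_le_exp.2 h
    _ = y ^ k := by rw [Real.exp_nat_mul, Real.exp_log hy]

/-- the weights of the vectors with a wrong number of primes -/
lemma trunc {m : ℕ} {w : ℕ} {L δ K : ℝ} {q n : ℕ} {b : Fin m → ℕ} (h : ∀ j, Cd w L δ K q (b j) n) (z Z : ℝ) (hz : 0 < z)
    (hzZ : |z - 1| ≤ Z) (hZδ : Z * δ ≤ 1) (v e t : ℝ) (hv : v = z * m / L) (he : 0 < e) (ht : 0 < t) (ht1 : t ≤ 1 / 2) :
    ∑ s ∈ Fintype.piFinset (fun j => Ioc (b j) (b j + q)), Wk z w q b n s *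
      (open Classical in if |(hc s n : ℝ) - v| ≤ e then 0 else 1) ≤
        2 * Real.exp (v * t * ((3 + Z) * δ) - e * t + 2 * (v + e) * t ^ 2) * (q : ℝ) ^ m := by
  classical
  have hL : m = 0 ∨ 0 < L := by
    rcases Nat.eq_zero_or_pos m with h0 | h0
    · exact Or.inl h0
    · exact Or.inr (h ⟨0, h0⟩).hL
  have hv0 : 0 ≤ v := by
    rw [hv]
    rcases hL with h0 | h0
    · rw [h0]; simp
    · positivity
  obtain ⟨E, hE⟩ : ∃ E : ℝ, E = v * t * ((3 + Z) * δ) - e * t + 2 * (v + e) * t ^ 2 := ⟨_, rfl⟩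
  rw [← hE]
  have h1 := Wk_tilt h z Z hz hzZ hZδ (1 + t) (by linarith)
  have h2 := Wk_tilt h z Z hz hzZ hZδ (1 - t) (by linarith)
  rw [← hv, add_sub_cancel_left, abs_of_pos ht] at h1
  rw [← hv, show 1 - t - 1 = -t by ring, abs_neg, abs_of_pos ht] at h2
  have l1 : t - t ^ 2 ≤ Real.log (1 + t) := by
    have := Real.one_sub_inv_le_log_of_pos (by linarith : 0 < 1 + t)
    refine le_trans ?_ this
    have : (1 + t)⁻¹ ≤ 1 - t + t ^ 2 := by
      rw [inv_le_iff_one_le_mul₀ (by linarith)]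
      nlinarith [pow_pos ht 3]
    linarith
  have l2 : -t - 2 * t ^ 2 ≤ Real.log (1 - t) := by
    have := Real.one_sub_inv_le_log_of_pos (by linarith : 0 < 1 - t)
    refine le_trans ?_ this
    have : (1 - t)⁻¹ ≤ 1 + t + 2 * t ^ 2 := by
      rw [inv_le_iff_one_le_mul₀ (by linarith)]
      nlinarith [mul_nonneg (sq_nonneg t) (sub_nonneg.2 ht1)]
    linarith
  have l3 : Real.log (1 - t) ≤ -t := by
    have := Real.log_le_sub_one_of_pos (by linarith : 0 < 1 - t)
    linarith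
  have h3 : ∀ s, Wk z w q b n s * (if |(hc s n : ℝ) - v| ≤ e then 0 else 1) ≤
      Wk z w q b n s * (1 + t) ^ hc s n * Real.exp (-((v + e) * (t - t ^ 2))) +
        Wk z w q b n s * (1 - t) ^ hc s n * Real.exp (-((v - e) * Real.log (1 - t))) := by
    intro s
    have hW := Wk_nonneg h z Z hz hzZ hZδ s
    have p1 : 0 ≤ (1 + t) ^ hc s n := by positivity
    have p2 : 0 ≤ (1 - t) ^ hc s n := pow_nonneg (by linarith) _
    split_ifs with h4
    · rw [mul_zero]
      positivity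
    · rw [not_le, lt_abs] at h4
      rw [mul_one]
      rcases h4 with h4 | h4
      · have e1 : Real.exp ((v + e) * (t - t ^ 2)) ≤ (1 + t) ^ hc s n := by
          apply pow_ge_exp _ (by linarith)
          have f1 : v + e ≤ hc s n := by linarith
          have f2 : 0 ≤ t - t ^ 2 := by nlinarith
          exact mul_le_mul f1 l1 f2 (by linarith)
        have e2 : 1 ≤ (1 + t) ^ hc s n * Real.exp (-((v + e) * (t - t ^ 2))) := by
          have := mul_le_mul_of_nonneg_right e1 (Real.exp_pos (-((v + e) * (t - t ^ 2)))).le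
          rwa [← Real.exp_add, add_neg_cancel, Real.exp_zero] at this
        have e3 := mul_le_mul_of_nonneg_left e2 hW
        have e4 : 0 ≤ Wk z w q b n s * (1 - t) ^ hc s n * Real.exp (-((v - e) * Real.log (1 - t))) := by positivity
        rw [mul_one, ← mul_assoc] at e3
        linarith
      · have e1 : Real.exp ((v - e) * Real.log (1 - t)) ≤ (1 - t) ^ hc s n := by
          apply pow_ge_exp _ (by linarith)
          have f1 : (hc s n : ℝ) ≤ v - e := by linarith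
          exact mul_le_mul_of_nonpos_right f1 (by linarith)
        have e2 : 1 ≤ (1 - t) ^ hc s n * Real.exp (-((v - e) * Real.log (1 - t))) := by
          have := mul_le_mul_of_nonneg_right e1 (Real.exp_pos (-((v - e) * Real.log (1 - t)))).le
          rwa [← Real.exp_add, add_neg_cancel, Real.exp_zero] at this
        have e3 := mul_le_mul_of_nonneg_left e2 hW
        have e4 : 0 ≤ Wk z w q b n s * (1 + t) ^ hc s n * Real.exp (-((v + e) * (t - t ^ 2))) := by positivity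
        rw [mul_one, ← mul_assoc] at e3
        linarith
  refine (sum_le_sum fun s _ => h3 s).trans ?_
  rw [sum_add_distrib, ← sum_mul, ← sum_mul]
  have hqm : 0 ≤ (q : ℝ) ^ m := by positivity
  have k1 := mul_le_mul_of_nonneg_right h1 (Real.exp_pos (-((v + e) * (t - t ^ 2)))).le
  have k2 := mul_le_mul_of_nonneg_right h2 (Real.exp_pos (-((v - e) * Real.log (1 - t)))).le
  have m1 : Real.exp (v * t + v * t * ((3 + Z) * δ)) * (q : ℝ) ^ m * Real.exp (-((v + e) * (t - t ^ 2))) ≤ Real.exp E * (q : ℝ) ^ m := by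
    rw [mul_right_comm, ← Real.exp_add]
    apply mul_le_mul_of_nonneg_right _ hqm
    apply Real.exp_le_exp.2
    rw [hE]
    have : 0 ≤ (v + e) * t ^ 2 := by positivity
    linarith
  have m2 : Real.exp (v * -t + v * t * ((3 + Z) * δ)) * (q : ℝ) ^ m * Real.exp (-((v - e) * Real.log (1 - t))) ≤
      Real.exp E * (q : ℝ) ^ m := by
    rw [mul_right_comm, ← Real.exp_add]
    apply mul_le_mul_of_nonneg_right _ hqm
    apply Real.exp_le_exp.2
    rw [hE]
    obtain ⟨r, hr⟩ : ∃ r, r = -Real.log (1 - t) - t := ⟨_, rfl⟩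
    have hr0 : 0 ≤ r := by rw [hr]; linarith
    have hr1 : r ≤ 2 * t ^ 2 := by rw [hr]; linarith
    have e1 : -((v - e) * Real.log (1 - t)) = (v - e) * t + (v - e) * r := by rw [hr]; ring
    have e2 : (v - e) * r ≤ (v + e) * r := mul_le_mul_of_nonneg_right (by linarith) hr0
    have e3 : (v + e) * r ≤ (v + e) * (2 * t ^ 2) := mul_le_mul_of_nonneg_left hr1 (by linarith)
    rw [e1]
    linarith
  linarith

/-- the diagonal, truncated -/
lemma trunc_diag {m : ℕ} {w : ℕ} {L δ K : ℝ} {q n : ℕ} {b : Fin m → ℕ} (h : ∀ j, Cd w L δ K q (b j) n) (z Z : ℝ) (hz : 0 < z)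
    (hzZ : |z - 1| ≤ Z) (hZδ : Z * δ ≤ 1) (v e : ℝ) :
    ∑ s ∈ Fintype.piFinset (fun j => Ioc (b j) (b j + q)), Wk z w q b n s ^ 2 *
      (open Classical in if |(hc s n : ℝ) - v| ≤ e then 1 else 0) ≤
        Real.exp (v * Real.log z + e * |Real.log z| + ((1 - z) * (m / L) + Z * ((3 + Z) * δ) * (m / L))) * (q : ℝ) ^ m := by
  classical
  have h1 : ∀ s, Wk z w q b n s ^ 2 * (if |(hc s n : ℝ) - v| ≤ e then 1 else 0) ≤
      Wk z w q b n s ^ 2 * z⁻¹ ^ hc s n * Real.exp (v * Real.log z + e * |Real.log z|) := by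
    intro s
    split_ifs with h2
    · rw [mul_one]
      have e1 : z ^ hc s n ≤ Real.exp (v * Real.log z + e * |Real.log z|) := by
        have f1 : z ^ hc s n = Real.exp (hc s n * Real.log z) := by rw [Real.exp_nat_mul, Real.exp_log hz]
        rw [f1]
        apply Real.exp_le_exp.2
        have f2 : ((hc s n : ℝ) - v) * Real.log z ≤ e * |Real.log z| := by
          calc ((hc s n : ℝ) - v) * Real.log z ≤ |((hc s n : ℝ) - v) * Real.log z| := le_abs_self _
            _ = |(hc s n : ℝ) - v| * |Real.log z| := abs_mul _ _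
            _ ≤ _ := mul_le_mul_of_nonneg_right h2 (abs_nonneg _)
        linarith
      have e2 : 1 ≤ z⁻¹ ^ hc s n * Real.exp (v * Real.log z + e * |Real.log z|) := by
        have f3 := mul_le_mul_of_nonneg_left e1 (by positivity : 0 ≤ z⁻¹ ^ hc s n)
        have f4 : z⁻¹ ^ hc s n * z ^ hc s n = 1 := by rw [← mul_pow, inv_mul_cancel₀ hz.ne', one_pow]
        rwa [f4] at f3
      have e3 := mul_le_mul_of_nonneg_left e2 (sq_nonneg (Wk z w q b n s))
      rw [mul_one, ← mul_assoc] at e3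
      exact e3
    · rw [mul_zero]
      positivity
  refine (sum_le_sum fun s _ => h1 s).trans ?_
  rw [← sum_mul]
  have h2 := mul_le_mul_of_nonneg_right (Wk_diag h z Z hz hzZ hZδ) (Real.exp_pos (v * Real.log z + e * |Real.log z|)).le
  refine h2.trans (le_of_eq ?_)
  rw [mul_right_comm, ← Real.exp_add]
  congr 2
  ring

/-- the truncated weighted number -/
noncomputable def Xt {m : ℕ} (z v e : ℝ) (w q : ℕ) (b : Fin m → ℕ) (n : ℕ → ℕ) (R : ℕ) (s : Fin m → ℕ) : ℝ :=
  ∑ k ∈ range R, Wk z w q b (n k) s * (open Classical in if |(hc s (n k) : ℝ) - v| ≤ e then 1 else 0)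

theorem secmomz {m : ℕ} (w q : ℕ) (b : Fin m → ℕ) (n : ℕ → ℕ) (hn : ∀ k h, n (k + h) = n k + Wd w * h) (R : ℕ) (hR : 0 < R)
    (L δ K : ℝ) (hcd : ∀ k < R, ∀ j, Cd w L δ K q (b j) (n k)) (z Z : ℝ) (hz : 0 < z)
    (hzZ : |z - 1| ≤ Z) (hZδ : Z * δ ≤ 1) (v e : ℝ) (g : ℕ → ℕ → ℝ)
    (hg : ∀ k h, 1 ≤ h → k + h < R → ∀ j, ∑ v ∈ Ioc (b j) (b j + q), wz z (cop (Wd w) (b j) q) (hit (b j) q (n k)) v *
      wz z (cop (Wd w) (b j) q) (hit (b j) q (n k + Wd w * h)) v ≤ Real.exp (g k h / L ^ 2) * (Ioc (b j) (b j + q)).card)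
    (D η : ℝ) (hD : ∀ k < R, ∑ s ∈ Fintype.piFinset (fun j => Ioc (b j) (b j + q)), Wk z w q b (n k) s ^ 2 *
      (open Classical in if |(hc s (n k) : ℝ) - v| ≤ e then 1 else 0) ≤ D * (q : ℝ) ^ m)
    (hF : ∀ k < R, ∑ s ∈ Fintype.piFinset (fun j => Ioc (b j) (b j + q)), Wk z w q b (n k) s *
      (open Classical in if |(hc s (n k) : ℝ) - v| ≤ e then 0 else 1) ≤ η * (q : ℝ) ^ m)
    (hsum : R * D + 2 * ∑ k ∈ range R, ∑ h ∈ Icc 1 (R - 1 - k), Real.exp (m * (g k h / L ^ 2)) ≤ (1 + η) * (R : ℝ) ^ 2) :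
    (((Fintype.piFinset fun j => Ioc (b j) (b j + q)).filter fun s => Xt z v e w q b n R s < R / 2).card : ℝ) ≤
      12 * η * (q : ℝ) ^ m := by
  classical
  obtain ⟨Ω, hΩ⟩ : ∃ Ω, Ω = Fintype.piFinset fun j => Ioc (b j) (b j + q) := ⟨_, rfl⟩
  have hΩc : (Ω.card : ℝ) = (q : ℝ) ^ m := by
    rw [hΩ, Fintype.card_piFinset]
    push_cast
    rw [prod_congr rfl fun j _ => by rw [Nat.card_Ioc, Nat.add_sub_cancel_left], prod_const, card_univ, Fintype.card_fin]
  rw [← hΩ] at hD hF ⊢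
  rw [← hΩc]
  have hRr : (0 : ℝ) < R := by exact_mod_cast hR
  have hW0 : ∀ k < R, ∀ s, 0 ≤ Wk z w q b (n k) s := fun k hk s => Wk_nonneg (hcd k hk) z Z hz hzZ hZδ s
  obtain ⟨I, hI⟩ : ∃ I : ℕ → (Fin m → ℕ) → ℝ, I = fun k s => if |(hc s (n k) : ℝ) - v| ≤ e then 1 else 0 := ⟨_, rfl⟩
  have hI01 : ∀ k s, 0 ≤ I k s ∧ I k s ≤ 1 ∧ I k s * I k s = I k s := by
    intro k s
    rw [hI]
    simp only
    split_ifs <;> norm_num
  have hX : ∀ s, Xt z v e w q b n R s = ∑ k ∈ range R, Wk z w q b (n k) s * I k s := by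
    intro s
    rw [hI]
    rfl
  apply cheb2 Ω _ R η hRr
  · -- the first moment
    have e1 : ∀ k ∈ range R, (1 - η) * Ω.card ≤ ∑ s ∈ Ω, Wk z w q b (n k) s * I k s := by
      intro k hk
      rw [mem_range] at hk
      have f1 := Wk_sum (hcd k hk) z Z hz hzZ hZδ
      rw [← hΩ] at f1
      have f2 := hF k hk
      have f3 : ∑ s ∈ Ω, Wk z w q b (n k) s * I k s = ∑ s ∈ Ω, Wk z w q b (n k) s -
          ∑ s ∈ Ω, Wk z w q b (n k) s * (if |(hc s (n k) : ℝ) - v| ≤ e then 0 else 1) := by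
        rw [← sum_sub_distrib]
        apply sum_congr rfl
        intro s _
        rw [hI]
        simp only
        split_ifs <;> ring
      rw [f3, f1, hΩc]
      linarith
    have e2 := sum_le_sum e1
    rw [sum_const, card_range, nsmul_eq_mul, sum_comm] at e2
    rw [sum_congr rfl fun s _ => hX s]
    linarith
  · -- the second moment
    obtain ⟨ee, hee⟩ : ∃ ee : ℕ → ℕ → ℝ, ee = fun k k' => if k = k' then D else
        Real.exp (m * (g (min k k') (max k k' - min k k') / L ^ 2)) := ⟨_, rfl⟩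
    have h0 : ∀ k, ee k k = D := fun k => by rw [hee]; simp
    have h1 : ∀ k h, 1 ≤ h → ee k (k + h) = Real.exp (m * (g k h / L ^ 2)) := fun k h hh => by
      rw [hee]
      simp only
      rw [if_neg (by omega), min_eq_left (by omega), max_eq_right (by omega), Nat.add_sub_cancel_left]
    have h2 : ∀ k h, 1 ≤ h → ee (k + h) k = Real.exp (m * (g k h / L ^ 2)) := fun k h hh => by
      rw [hee]
      simp only
      rw [if_neg (by omega), min_eq_right (by omega), max_eq_left (by omega), Nat.add_sub_cancel_left]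
    have hpair : ∀ k h, 1 ≤ h → k + h < R → ∑ s ∈ Ω, Wk z w q b (n k) s * Wk z w q b (n (k + h)) s ≤
        Real.exp (m * (g k h / L ^ 2)) * (q : ℝ) ^ m := by
      intro k h hh hkh
      have f1 : ∀ s : Fin m → ℕ, Wk z w q b (n k) s * Wk z w q b (n (k + h)) s =
          ∏ j, (wz z (cop (Wd w) (b j) q) (hit (b j) q (n k)) (s j) * wz z (cop (Wd w) (b j) q) (hit (b j) q (n k + Wd w * h)) (s j)) := by
        intro s
        unfold Wk
        rw [hn, prod_mul_distrib]
      rw [sum_congr rfl fun s _ => f1 s, hΩ, ← Finset.prod_univ_sum (fun j => Ioc (b j) (b j + q))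
        (fun j v => wz z (cop (Wd w) (b j) q) (hit (b j) q (n k)) v * wz z (cop (Wd w) (b j) q) (hit (b j) q (n k + Wd w * h)) v)]
      refine (prod_exp (fun j => Ioc (b j) (b j + q)) _ (g k h / L ^ 2) ?_ ?_).trans ?_
      · intro j
        apply sum_nonneg
        intro v _
        apply mul_nonneg
        · exact wz_nonneg z hz _ _ ((hcd k (by omega) j).dens z Z hz hzZ hZδ).1 _
        · have := hcd (k + h) hkh j
          rw [hn] at this
          exact wz_nonneg z hz _ _ (this.dens z Z hz hzZ hZδ).1 _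
      · intro j
        exact hg k h hh hkh j
      · rw [prod_congr rfl fun j _ => by rw [Nat.card_Ioc, Nat.add_sub_cancel_left], prod_const, card_univ, Fintype.card_fin]
    have hall : ∀ k ∈ range R, ∀ k' ∈ range R, ∑ s ∈ Ω, (Wk z w q b (n k) s * I k s) * (Wk z w q b (n k') s * I k' s) ≤
        ee k k' * (q : ℝ) ^ m := by
      intro k hk k' hk'
      rw [mem_range] at hk hk'
      rcases lt_trichotomy k k' with hkk | hkk | hkk
      · obtain ⟨h, rfl⟩ : ∃ h, k' = k + h := ⟨k' - k, by omega⟩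
        rw [h1 k h (by omega)]
        refine le_trans (sum_le_sum fun s _ => ?_) (hpair k h (by omega) hk')
        have := mul_le_of_le_one_right (hW0 k hk s) (hI01 k s).2.1
        have := mul_le_of_le_one_right (hW0 (k + h) hk' s) (hI01 (k + h) s).2.1
        exact mul_le_mul (by assumption) (by assumption) (mul_nonneg (hW0 _ hk' s) (hI01 _ s).1) (hW0 k hk s)
      · subst hkk
        rw [h0]
        refine le_trans (le_of_eq (sum_congr rfl fun s _ => ?_)) (hD k hk)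
        have e1 : (if |(hc s (n k) : ℝ) - v| ≤ e then (1 : ℝ) else 0) = I k s := by rw [hI]
        rw [e1]
        calc (Wk z w q b (n k) s * I k s) * (Wk z w q b (n k) s * I k s) = Wk z w q b (n k) s ^ 2 * (I k s * I k s) := by ring
          _ = _ := by rw [(hI01 k s).2.2]
      · obtain ⟨h, rfl⟩ : ∃ h, k = k' + h := ⟨k - k', by omega⟩
        rw [h2 k' h (by omega)]
        refine le_trans (sum_le_sum fun s _ => ?_) (hpair k' h (by omega) hk)
        have := mul_le_of_le_one_right (hW0 k' hk' s) (hI01 k' s).2.1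
        have := mul_le_of_le_one_right (hW0 (k' + h) hk s) (hI01 (k' + h) s).2.1
        rw [mul_comm]
        exact mul_le_mul (by assumption) (by assumption) (mul_nonneg (hW0 _ hk s) (hI01 _ s).1) (hW0 k' hk' s)
    have e1 : ∑ s ∈ Ω, Xt z v e w q b n R s ^ 2 = ∑ k ∈ range R, ∑ k' ∈ range R,
        ∑ s ∈ Ω, (Wk z w q b (n k) s * I k s) * (Wk z w q b (n k') s * I k' s) := by
      have f1 : ∀ s ∈ Ω, Xt z v e w q b n R s ^ 2 = ∑ k ∈ range R, ∑ k' ∈ range R,
          (Wk z w q b (n k) s * I k s) * (Wk z w q b (n k') s * I k' s) := by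
        intro s _
        rw [hX, sq, sum_mul_sum]
      rw [sum_congr rfl f1, sum_comm]
      apply sum_congr rfl
      intro k _
      rw [sum_comm]
    rw [e1]
    refine (sum_le_sum fun k hk => sum_le_sum fun k' hk' => hall k hk k' hk').trans ?_
    have e2 : ∑ k ∈ range R, ∑ k' ∈ range R, ee k k' * (q : ℝ) ^ m = (∑ k ∈ range R, ∑ k' ∈ range R, ee k k') * (q : ℝ) ^ m := by
      rw [sum_mul]
      exact sum_congr rfl fun k _ => by rw [sum_mul]
    rw [e2, pairs_sum R D (fun k h => Real.exp (m * (g k h / L ^ 2))) ee h0 h1 h2, hΩc]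
    exact mul_le_mul_of_nonneg_right hsum (by positivity)

end Pool.Agent.Run7.h931.EX
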