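import Pool.Agent.Run7.h931.EX.Two

/-!
# The number of primes in perturbed intervals, part 5: the second moment below the threshold
-/

set_option autoImplicit false

namespace Pool.Agent.Run7.h931.EX

open Finset Filter
open Pool.Agent.Run7.h931.RS (Pw Fw Wd Wd_pos one_le_Pw one_le_Fw Cd hit cop hit_sub prod_exp pairs_sum tri cd_ev sieve moments hl_up
  bad_sum Fw_mulW Cc ev_log)

/-- the entropy -/
noncomputable def ent (z : ℝ) : ℝ := z * Real.log z - z + 1

theorem two_Zz (T a w : ℕ) (Λ Z ε e₀ δ η : ℝ) (hΛ : 1 ≤ Λ) (hZ : 1 ≤ Z) (hε : 0 < ε) (he : 0 < e₀) (he1 : e₀ ≤ 1)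
    (hδ : 0 < δ) (hδ1 : δ ≤ 1 / 4) (hZδ : Z * δ ≤ 1) (hδe : (1 + Z) * Λ * ((3 + Z) * δ) ≤ e₀ / 4)
    (hdg : e₀ * Z + Z * ((3 + Z) * δ) * Λ ≤ ε / 2) (hη : 0 < η) (hη1 : η ≤ 1)
    (hsh : ∀ H : ℕ, ∑ h ∈ Icc 1 H, (Real.exp ((2 * (Λ * Z ^ 2)) * (Pw w * (Fw w h - 1))) - 1) ≤ η * H)
    (hδη : Real.exp (4 * (Λ * Z ^ 2) * (δ * Pw w)) ≤ 1 + η) :
    ∃ K : ℝ, 0 ≤ K ∧ ∀ᶠ N : ℕ in atTop, ∀ q : ℕ, (N : ℝ) ≤ q * Real.log N ^ a → q ≤ N → ∀ (m : ℕ) (b : Fin m → ℕ),
      (∀ j, b j ≤ T * N) → (m : ℝ) ≤ Λ * Real.log N ^ 2 → ∃ (n : ℕ → ℕ) (R : ℕ), (N : ℝ) / (8 * Wd w) ≤ R ∧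
        (∀ k < R, 1 ≤ n k ∧ n k ≤ N) ∧ (∀ k k', n k = n k' → k = k') ∧
        (∀ k < R, ∀ j, Cd w (Real.log N) δ K q (b j) (n k)) ∧
        ∀ z : ℝ, 0 < z → |z - 1| ≤ Z → |Real.log z| ≤ Z → m / Real.log N ^ 2 * ent z ≤ 1 - ε →
          (((Fintype.piFinset fun j => Ioc (b j) (b j + q)).filter fun s =>
            Xt z (z * m / Real.log N) (e₀ * Real.log N) w q b n R s < R / 2).card : ℝ) ≤ 12 * (7 * η) * (q : ℝ) ^ m := by
  classical
  obtain ⟨K, hK, h1⟩ := cd_ev T a w δ (1 / 2) hδ hδ1 (by norm_num) (by norm_num)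
  obtain ⟨C₀, hC₀, h2⟩ := sieve a
  obtain ⟨κ, hκ⟩ : ∃ κ, κ = Λ * Z ^ 2 := ⟨_, rfl⟩
  have hκ0 : 0 < κ := by rw [hκ]; positivity
  rw [← hκ] at hsh hδη
  obtain ⟨Km, hKm, h3⟩ := moments (2 * (κ * (2 * C₀))) (by positivity) C₀
  have hWpos := Wd_pos w
  have hP := one_le_Pw w
  obtain ⟨V, hV⟩ : ∃ V, V = (1 + Z) * Λ := ⟨_, rfl⟩
  have hV0 : 0 < V := by rw [hV]; positivity
  rw [← hV] at hδe
  obtain ⟨t, ht⟩ : ∃ t, t = e₀ / (8 * (V + 1)) := ⟨_, rfl⟩
  have ht0 : 0 < t := by rw [ht]; positivity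
  have ht1 : t ≤ 1 / 2 := by
    rw [ht, div_le_iff₀ (by positivity)]
    linarith
  have htV : 2 * (V + 1) * t = e₀ / 4 := by rw [ht]; field_simp; norm_num
  refine ⟨K, hK, ?_⟩
  filter_upwards [h1, h2, hl_up T a 4 δ hδ, ev_log (8 * Wd w * (Λ + Km) / η + 1), ev_log (Real.log (8 * Wd w / η) / (ε / 2)),
    ev_log (Real.log (2 / η) / (e₀ * t / 2)), eventually_ge_atTop 3, eventually_ge_atTop (8 * Wd w)] with
    N g1 g2 g3 g4 g5 g5' g6 g7 q hq hqN m b hb hm
  obtain ⟨L, hL⟩ : ∃ L, L = Real.log (N : ℝ) := ⟨_, rfl⟩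
  obtain ⟨W, hW⟩ : ∃ W, W = Wd w := ⟨_, rfl⟩
  have hWr : (0 : ℝ) < W := by rw [hW]; exact_mod_cast hWpos
  have hN0 : (0 : ℝ) < N := by exact_mod_cast (by omega : 0 < N)
  have hL1 : 1 ≤ L := by
    rw [hL]
    have : 0 ≤ 8 * Wd w * (Λ + Km) / η := by positivity
    linarith
  have hL0 : 0 < L := by linarith
  obtain ⟨n, hn⟩ : ∃ n : ℕ → ℕ, n = fun k => W * (N / (2 * W) + 1 + k) := ⟨_, rfl⟩
  obtain ⟨R, hR⟩ : ∃ R : ℕ, R = N / (4 * W) := ⟨_, rfl⟩
  have hWp : 0 < W := by rw [hW]; exact hWpos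
  have hRr : (N : ℝ) / (8 * W) ≤ R := by
    have a1 : (N : ℝ) < (4 * W : ℕ) * ((R : ℝ) + 1) := by rw [hR]; exact_mod_cast Nat.lt_mul_div_succ N (by omega)
    have a2 : (8 * W : ℝ) ≤ N := by rw [← hW] at g7; exact_mod_cast g7
    rw [div_le_iff₀ (by positivity)]
    push_cast at a1
    nlinarith
  have hR0 : 0 < R := by
    have : (0 : ℝ) < R := lt_of_lt_of_le (by positivity) hRr
    exact_mod_cast this
  have hnk : ∀ k < R, N ≤ 2 * n k ∧ n k ≤ N := by
    intro k hk
    rw [hn]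
    simp only
    constructor
    · have := (Nat.lt_mul_div_succ N (by omega : 0 < 2 * W)).le
      calc N ≤ 2 * W * (N / (2 * W) + 1) := this
        _ ≤ 2 * (W * (N / (2 * W) + 1 + k)) := by nlinarith
    · have a1 : W * (N / (2 * W)) * 2 ≤ N := by
        have := Nat.mul_div_le N (2 * W)
        nlinarith
      have a2 : W * (N / (4 * W)) * 4 ≤ N := by
        have := Nat.mul_div_le N (4 * W)
        nlinarith
      have a3 : 1 + k ≤ N / (4 * W) := by omega
      have a4 : W * (N / (2 * W) + 1 + k) ≤ W * (N / (2 * W)) + W * (N / (4 * W)) := by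
        rw [← mul_add]
        exact Nat.mul_le_mul_left _ (by omega)
      omega
  have hcd : ∀ k < R, ∀ j, Cd w L δ K q (b j) (n k) := by
    intro k hk j
    obtain ⟨a1, a2⟩ := hnk k hk
    rw [hL]
    apply g1 q hq hqN (b j) (n k) (hb j) a2
    · have : (N : ℝ) ≤ 2 * n k := by exact_mod_cast a1
      linarith
    · rw [hn, ← hW]
      exact dvd_mul_right _ _
  have hqa := hq
  rw [← hL] at g4 g5 g5' hm
  refine ⟨n, R, by rw [← hW]; exact hRr, fun k hk => ⟨by have := hnk k hk; omega, (hnk k hk).2⟩, ?_, by rw [← hL]; exact hcd, ?_⟩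
  · intro k k' hkk
    rw [hn] at hkk
    simp only at hkk
    have := Nat.eq_of_mul_eq_mul_left hWp hkk
    omega
  intro z hz hzZ hlz hent
  rw [← hL] at hent ⊢
  -- the exceptional differences
  have hE : ∀ (k : ℕ) (j : Fin m), ∃ E : Finset ℕ, k < R → ((E.card : ℝ) ≤ N / L ^ 4 ∧ ∀ h : ℕ, 1 ≤ h → h ≤ N → h ∉ E →
      (Cc (n k + b j) q h : ℝ) ≤ (1 + δ) * Fw 0 h * (q / L ^ 2)) := by
    intro k j
    by_cases hk : k < R
    · obtain ⟨a1, a2⟩ := hnk k hk
      obtain ⟨E, hE1, hE2⟩ := g3 (n k + b j) q (by omega) (by nlinarith [hb j]) hqa hqN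
      rw [← hL] at hE1 hE2
      exact ⟨E, fun _ => ⟨hE1, hE2⟩⟩
    · exact ⟨∅, fun h => absurd h hk⟩
  choose E hE using hE
  obtain ⟨F, hF⟩ : ∃ F : ℕ → Finset ℕ, F = fun k => univ.biUnion (E k) := ⟨_, rfl⟩
  have hFc : ∀ k < R, ((F k).card : ℝ) ≤ Λ * (N / L ^ 2) := by
    intro k hk
    have a1 : ((F k).card : ℝ) ≤ ∑ j : Fin m, ((E k j).card : ℝ) := by
      rw [hF]
      exact_mod_cast card_biUnion_le
    refine a1.trans ((sum_le_sum fun j _ => (hE k j hk).1).trans ?_)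
    rw [sum_const, card_univ, Fintype.card_fin, nsmul_eq_mul]
    calc (m : ℝ) * (N / L ^ 4) ≤ (Λ * L ^ 2) * (N / L ^ 4) := mul_le_mul_of_nonneg_right hm (by positivity)
      _ = _ := by field_simp
  obtain ⟨g₀, hg₀⟩ : ∃ g₀ : ℕ → ℕ → ℝ, g₀ = fun k h => if W * h ∈ F k then 2 * (C₀ * Fw 0 (W * h) ^ C₀) else
    2 * Pw w * (Fw w h - 1) + 4 * δ * Pw w := ⟨_, rfl⟩
  obtain ⟨g, hg⟩ : ∃ g : ℕ → ℕ → ℝ, g = fun k h => Z ^ 2 * g₀ k h := ⟨_, rfl⟩
  have hFw1 : ∀ h, 0 ≤ 2 * Pw w * (Fw w h - 1) := fun h => by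
    have := one_le_Fw w h
    apply mul_nonneg (by linarith) (by linarith)
  have hg0 : ∀ k h, 0 ≤ g₀ k h := by
    intro k h
    rw [hg₀]
    simp only
    have a1 := one_le_Fw 0 (W * h)
    have a2 := hFw1 h
    split_ifs
    · positivity
    · have : 0 ≤ 4 * δ * Pw w := by positivity
      linarith
  have hWh : ∀ k h, k + h < R → W * h ≤ N := by
    intro k h hkh
    have a2 : W * (N / (4 * W)) * 4 ≤ N := by
      have := Nat.mul_div_le N (4 * W)
      nlinarith
    have a3 : W * h ≤ W * (N / (4 * W)) := Nat.mul_le_mul_left _ (by omega)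
    omega
  have hmL : (m : ℝ) / L ≤ Λ * L := by
    rw [div_le_iff₀ hL0]
    linarith
  have hmL0 : 0 ≤ (m : ℝ) / L := by positivity
  have hv : z * m / L ≤ V * L := by
    rw [mul_div_assoc, hV, mul_assoc]
    exact mul_le_mul (by linarith [(abs_le.1 hzZ).2]) hmL hmL0 (by linarith)
  have hv0 : 0 ≤ z * m / L := by positivity
  have hqm : 0 ≤ (q : ℝ) ^ m := by positivity
  apply secmomz w q b n (fun k h => by rw [hn, ← hW]; ring) R hR0 L δ K hcd z Z hz hzZ hZδ (z * m / L) (e₀ * L) g _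
    (Real.exp ((1 - ε / 2) * L)) (7 * η)
  · -- the diagonal
    intro k hk
    refine (trunc_diag (hcd k hk) z Z hz hzZ hZδ (z * m / L) (e₀ * L)).trans ?_
    apply mul_le_mul_of_nonneg_right _ hqm
    apply Real.exp_le_exp.2
    have e1 : z * m / L * Real.log z + e₀ * L * |Real.log z| + ((1 - z) * (m / L) + Z * ((3 + Z) * δ) * (m / L)) =
        m / L ^ 2 * ent z * L + (e₀ * L * |Real.log z| + Z * ((3 + Z) * δ) * (m / L)) := by
      unfold ent
      field_simp
      ring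
    rw [e1]
    have e2 := mul_le_mul_of_nonneg_right hent hL0.le
    have e3 : e₀ * L * |Real.log z| ≤ e₀ * L * Z := mul_le_mul_of_nonneg_left hlz (by positivity)
    have e4 : Z * ((3 + Z) * δ) * (m / L) ≤ Z * ((3 + Z) * δ) * (Λ * L) := mul_le_mul_of_nonneg_left hmL (by positivity)
    have e5 := mul_le_mul_of_nonneg_right hdg hL0.le
    linarith
  · -- the truncation
    intro k hk
    refine (trunc (hcd k hk) z Z hz hzZ hZδ (z * m / L) (e₀ * L) t rfl (by positivity) ht0 ht1).trans ?_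
    apply mul_le_mul_of_nonneg_right _ hqm
    have e1 : z * m / L * t * ((3 + Z) * δ) - e₀ * L * t + 2 * (z * m / L + e₀ * L) * t ^ 2 ≤ -(L * (e₀ * t / 2)) := by
      have f1 : z * m / L * t * ((3 + Z) * δ) ≤ (V * L) * t * ((3 + Z) * δ) := by
        apply mul_le_mul_of_nonneg_right _ (by positivity)
        exact mul_le_mul_of_nonneg_right hv ht0.le
      have f2 : (V * L) * t * ((3 + Z) * δ) = (V * ((3 + Z) * δ)) * (L * t) := by ring
      have f3 : (V * ((3 + Z) * δ)) * (L * t) ≤ (e₀ / 4) * (L * t) := mul_le_mul_of_nonneg_right hδe (by positivity)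
      have f4 : 2 * (z * m / L + e₀ * L) * t ^ 2 ≤ 2 * (V * L + 1 * L) * t ^ 2 := by
        apply mul_le_mul_of_nonneg_right _ (sq_nonneg t)
        have : e₀ * L ≤ 1 * L := mul_le_mul_of_nonneg_right he1 hL0.le
        linarith
      have f5 : 2 * (V * L + 1 * L) * t ^ 2 = (2 * (V + 1) * t) * (L * t) := by ring
      rw [f5, htV] at f4
      linarith
    have e2 := Real.exp_le_exp.2 e1
    have e3 : 2 * Real.exp (-(L * (e₀ * t / 2))) ≤ η := by
      rw [div_le_iff₀ (by positivity)] at g5'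
      have := Real.exp_le_exp.2 g5'
      rw [Real.exp_log (by positivity)] at this
      rw [Real.exp_neg, ← div_eq_mul_inv, div_le_iff₀ (Real.exp_pos _)]
      rw [div_le_iff₀ hη] at this
      linarith
    linarith
  · -- the sums
    have hRr0 : (0 : ℝ) < R := by exact_mod_cast hR0
    have b1 : (R : ℝ) * Real.exp ((1 - ε / 2) * L) ≤ η * (R : ℝ) ^ 2 := by
      have c2 : Real.exp ((1 - ε / 2) * L) ≤ η * R := by
        rw [show (1 - ε / 2) * L = L - ε / 2 * L by ring, Real.exp_sub, hL, Real.exp_log hN0, ← hL]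
        have d1 : 8 * W / η ≤ Real.exp (ε / 2 * L) := by
          rw [div_le_iff₀ (by positivity), ← hW] at g5
          have := Real.exp_le_exp.2 g5
          rw [Real.exp_log (by positivity)] at this
          rwa [mul_comm L] at this
        rw [div_le_iff₀ (Real.exp_pos _)]
        have d2 : (N : ℝ) = (η * (N / (8 * W))) * (8 * W / η) := by field_simp
        calc (N : ℝ) = (η * (N / (8 * W))) * (8 * W / η) := d2
          _ ≤ (η * R) * Real.exp (ε / 2 * L) := mul_le_mul (mul_le_mul_of_nonneg_left hRr hη.le) d1 (by positivity) (by positivity)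
      calc (R : ℝ) * Real.exp ((1 - ε / 2) * L) ≤ R * (η * R) := mul_le_mul_of_nonneg_left c2 hRr0.le
        _ = _ := by ring
    have b2 : ∀ k ∈ range R, ∑ h ∈ Icc 1 (R - 1 - k), Real.exp (m * (g k h / L ^ 2)) ≤
        (1 + η) * (((R - 1 - k : ℕ) : ℝ) + η * R) + η * R / 2 := by
      intro k hk
      rw [mem_range] at hk
      have c1 : ∀ h, Real.exp (m * (g k h / L ^ 2)) ≤ Real.exp (κ * g₀ k h) := by
        intro h
        apply Real.exp_le_exp.2
        have e1 : (m : ℝ) * (g k h / L ^ 2) ≤ (Λ * L ^ 2) * (g k h / L ^ 2) :=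
          mul_le_mul_of_nonneg_right hm (div_nonneg (by rw [hg]; exact mul_nonneg (sq_nonneg Z) (hg0 k h)) (by positivity))
        refine e1.trans (le_of_eq ?_)
        rw [hg, hκ]
        field_simp
      have c2 : ∀ h ∈ Icc 1 (R - 1 - k), Real.exp (m * (g k h / L ^ 2)) ≤
          (if W * h ∈ F k then Real.exp ((κ * (2 * C₀)) * Fw 0 (W * h) ^ C₀) else 0) +
            (1 + η) * (1 + (Real.exp ((2 * κ) * (Pw w * (Fw w h - 1))) - 1)) := by
        intro h _
        refine (c1 h).trans ?_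
        have d1 : 0 ≤ (1 + η) * (1 + (Real.exp ((2 * κ) * (Pw w * (Fw w h - 1))) - 1)) := by
          have := Real.exp_pos ((2 * κ) * (Pw w * (Fw w h - 1)))
          rw [add_sub_cancel]
          positivity
        by_cases hmem : W * h ∈ F k
        · have e : κ * g₀ k h = (κ * (2 * C₀)) * Fw 0 (W * h) ^ C₀ := by rw [hg₀]; simp only; rw [if_pos hmem]; ring
          rw [if_pos hmem, e]
          linarith
        · have e : κ * g₀ k h = 4 * κ * (δ * Pw w) + (2 * κ) * (Pw w * (Fw w h - 1)) := by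
            rw [hg₀]
            simp only
            rw [if_neg hmem]
            ring
          rw [if_neg hmem, e, zero_add, Real.exp_add, add_sub_cancel]
          exact mul_le_mul_of_nonneg_right hδη (Real.exp_pos _).le
      refine (sum_le_sum c2).trans ?_
      rw [sum_add_distrib, ← mul_sum, sum_add_distrib, sum_const, Nat.card_Icc, nsmul_eq_mul, mul_one, Nat.add_sub_cancel, ← sum_filter]
      have c3 := hsh (R - 1 - k)
      have c4 : (((R - 1 - k : ℕ)) : ℝ) ≤ R := by exact_mod_cast (by omega : R - 1 - k ≤ R)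
      have c5 : η * (((R - 1 - k : ℕ)) : ℝ) ≤ η * R := mul_le_mul_of_nonneg_left c4 hη.le
      have c6 := bad_sum W N hWp (κ * (2 * C₀)) C₀ Km (h3 N) (F k) (R - 1 - k) (by
        rcases Nat.eq_zero_or_pos (R - 1 - k) with h0 | h0
        · rw [h0]; omega
        · exact hWh k (R - 1 - k) (by omega)) L hL0
      have c7 := hFc k hk
      have c8 : L * (F k).card / 2 + Km * N / (2 * L) ≤ η * R / 2 := by
        have d1 : L * (F k).card ≤ Λ * (N / L) := by
          calc L * (F k).card ≤ L * (Λ * (N / L ^ 2)) := mul_le_mul_of_nonneg_left c7 hL0.le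
            _ = Λ * (N / L) := by field_simp
        have d2 : (Λ + Km) * N / L ≤ η * R := by
          have f1 : 8 * W * (Λ + Km) ≤ η * L := by
            rw [← hW] at g4
            have : 8 * W * (Λ + Km) / η ≤ L := by linarith
            rw [div_le_iff₀ hη] at this
            linarith
          rw [div_le_iff₀ hL0]
          have f2 : (Λ + Km) * N = (8 * W * (Λ + Km)) * (N / (8 * W)) := by field_simp
          rw [f2]
          calc (8 * W * (Λ + Km)) * (N / (8 * W)) ≤ (η * L) * R := mul_le_mul f1 hRr (by positivity) (by positivity)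
            _ = _ := by ring
        have d3 : (Λ + Km) * N / L = Λ * (N / L) + Km * N / L := by ring
        have d4 : Km * N / (2 * L) = (Km * N / L) / 2 := by ring
        rw [d4]
        linarith
      have c9 : (1 + η) * ((((R - 1 - k : ℕ)) : ℝ) + ∑ h ∈ Icc 1 (R - 1 - k), (Real.exp ((2 * κ) * (Pw w * (Fw w h - 1))) - 1)) ≤
          (1 + η) * ((((R - 1 - k : ℕ)) : ℝ) + η * R) := mul_le_mul_of_nonneg_left (by linarith) (by linarith)
      linarith
    have b3 := sum_le_sum b2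
    rw [sum_add_distrib, ← mul_sum, sum_add_distrib, sum_const, sum_const, card_range, nsmul_eq_mul, nsmul_eq_mul] at b3
    have b4 := tri R
    have b5 : (1 + η) * (∑ k ∈ range R, (((R - 1 - k : ℕ) : ℝ)) + R * (η * R)) ≤ (1 + η) * ((R : ℝ) ^ 2 / 2 + R * (η * R)) :=
      mul_le_mul_of_nonneg_left (by linarith) (by linarith)
    have b6 : η ^ 2 ≤ η := by nlinarith
    nlinarith [mul_nonneg (sub_nonneg.2 b6) (sq_nonneg (R : ℝ)), mul_nonneg hη.le (sq_nonneg (R : ℝ))]
  · -- the coordinates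
    intro k h hh hkh j
    have hk : k < R := by omega
    have hcd2 : Cd w L δ K q (b j) (n k + Wd w * h) := by
      have := hcd (k + h) hkh j
      rw [hn] at this ⊢
      rw [← hW]
      have e : W * (N / (2 * W) + 1 + (k + h)) = W * (N / (2 * W) + 1 + k) + W * h := by ring
      rw [← e]
      exact this
    by_cases hmem : W * h ∈ F k
    · have e : g k h = Z ^ 2 * (2 * (C₀ * Fw 0 (W * h) ^ C₀)) := by rw [hg, hg₀]; simp only; rw [if_pos hmem]
      rw [e]
      have a0 := one_le_Fw 0 (W * h)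
      apply (hcd k hk j).zbad hcd2 z Z hz hzZ hZδ (C₀ * Fw 0 (W * h) ^ C₀) (by positivity)
      have := g2 (n k + b j) q (W * h) hqa hqN (Nat.succ_le_of_lt (Nat.mul_pos hWp (by omega)))
      rw [← hL, hW] at this
      rw [hW]
      exact this
    · have e : g k h = Z ^ 2 * (2 * Pw w * (Fw w h - 1) + 4 * δ * Pw w) := by rw [hg, hg₀]; simp only; rw [if_neg hmem]
      rw [e]
      apply (hcd k hk j).zgood hcd2 z Z hz hzZ hZδ (Fw w h) (one_le_Fw w h)
      have hnE : W * h ∉ E k j := by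
        intro hmE
        apply hmem
        rw [hF]
        exact mem_biUnion.2 ⟨j, mem_univ j, hmE⟩
      have := (hE k j hk).2 (W * h) (Nat.succ_le_of_lt (Nat.mul_pos hWp (by omega))) (hWh k h hkh) hnE
      rw [hW] at this
      refine this.trans ?_
      apply mul_le_mul_of_nonneg_right _ (by positivity)
      exact mul_le_mul_of_nonneg_left (Fw_mulW w h hh) (by linarith)

end Pool.Agent.Run7.h931.EX
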